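import Pool.Agent.H93.T1.Nd

/-!
ROW Ng (project MP_78d38b_T1, block N): classes of neutral primes (about 170 lines).

PROOF. Put `M = ∏ q ∈ Qs a b, q`, `D = a^2 - 4 b`. The primes in `Qs a b` are odd (`mem_Qs`).
(1) There is a character `χ : ℕ → ZMod 2` with `ev χ (cl b) = 1` and `ev χ (cl D) = 1`: the classes
`cl b`, `cl D` and `cl b + cl D = cl (b D)` (`cl_mul`) are nonzero (`cl_eq_zero_iff`, `Hyp.nb`, `Hyp.nD`,
`Hyp.nbD`), so `cl b`, `cl D` are linearly independent over `ZMod 2` and there is a functional with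
the value one on both (for instance: `v ↦ f v`, with `f` from `Module.Basis`/`LinearIndependent.extend`,
or by hand: choose `i` with `cl b i = 1`; if `cl D i = 1` take `f = coordinate i`; otherwise
`cl D ≠ 0` has a coordinate `j` with `cl D j = 1`, `j ≠ i`; if `cl b j = 1` take the coordinate `j`,
and if `cl b j = 0` take the sum of the coordinates `i` and `j`.) The functional is `ev χ` with
`χ i = f (single i 1)` (for coordinates: `χ = Pi.single i 1` etc., `ev_single`, `exists_ev`).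
(2) The supports of `cl b`, `cl D` are in `{0, 2} ∪ Qs a b` (`cl_apply_of_not_prime`,
`cl_apply_of_not_dvd`).
(3) There is a class `c` modulo `8 M`, prime to `8 M`, such that every prime `l = c` modulo `8 M` has
`chi l i = χ i` for `i = 0`, `i = 2` and `i ∈ Qs a b`. This is `exists_class` of `H93/MQ/Cls.lean` for
`S = insert 2 (Qs a b)`, except that there the modulus is `modS S = 8 * ∏ p ∈ S, p = 16 M`: copy the
proof (the residue class constructed there is a class modulo `8 M`: `s 2 = 8`).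
(4) For a prime `l = c` modulo `8 M`: `l` is prime to `8 M`, so `l ≠ 2`, `l ∉ Qs a b`, hence `l` does
not divide `2 b D`. By (2), (3) and `ev_congr`, `ev (chi l) (cl b) = ev χ (cl b) = 1`, so by `ev_chi`
(file `H93/MQ/ClB.lean`) `b` is not a square modulo `l`; the same for `D`. `SqMod l x` is
`IsSquare (x : ZMod l)`.
-/

set_option autoImplicit false
open scoped Classical

namespace H93T1

open H38T1 Pool.Agent.H93.MQ

private lemma Ng_two (x : ZMod 2) : x = 0 ∨ x = 1 := by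
  revert x; decide

private lemma Ng_ne {x : ZMod 2} (h : x ≠ 0) : x = 1 := (Ng_two x).resolve_left h

private theorem Ng_class {S : Finset ℕ} (hS : ∀ p ∈ S, p.Prime) (h2 : 2 ∉ S) (χ : ℕ → ZMod 2) :
    ∃ r : ℕ, r.Coprime (8 * ∏ p ∈ S, p) ∧ ∀ q : ℕ, q.Prime → q ≡ r [MOD 8 * ∏ p ∈ S, p] →
      q ∉ S ∧ q ≠ 2 ∧ ∀ i, i = 0 ∨ i = 2 ∨ i ∈ S → chi q i = χ i := by
  have hSn : ∀ p ∈ S, p ≠ 2 := fun p hp h => h2 (h ▸ hp)
  -- the residues
  have hres : ∀ p : ℕ, ∃ a : ℕ, p ∈ S →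
      ((a : ZMod p) ≠ 0) ∧ (χ p + chi p 0 * χ 0 = 0 ↔ IsSquare (a : ZMod p)) := by
    intro p
    by_cases hp : p ∈ S
    · obtain ⟨a, ha⟩ := Cls_res (hS p hp) (hSn p hp) (χ p + chi p 0 * χ 0)
      exact ⟨a, fun _ => ha⟩
    · exact ⟨0, fun h1 => absurd h1 hp⟩
  choose a ha using hres
  obtain ⟨b, hb8, hb4, hb7⟩ : ∃ b : ℕ, b < 8 ∧ (χ 0 = 0 ↔ b % 4 = 1) ∧
      (χ 2 = 0 ↔ (b = 1 ∨ b = 7)) ∧ b % 2 = 1 := by
    rcases Ng_two (χ 0) with h0 | h0 <;> rcases Ng_two (χ 2) with h1 | h1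
    · exact ⟨1, by norm_num, by simp [h0], by simp [h1], by norm_num⟩
    · exact ⟨5, by norm_num, by simp [h0], by simp [h1], by norm_num⟩
    · exact ⟨7, by norm_num, by simp [h0], by simp [h1], by norm_num⟩
    · exact ⟨3, by norm_num, by simp [h0], by simp [h1], by norm_num⟩
  obtain ⟨hb7, hbo⟩ := hb7
  let T : Finset ℕ := insert 2 S
  let s : ℕ → ℕ := fun i => if i = 2 then 8 else i
  let w : ℕ → ℕ := fun i => if i = 2 then b else a i
  have hT : ∀ p ∈ T, p.Prime := by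
    intro p hp
    rcases Finset.mem_insert.1 hp with h | h
    · rw [h]; exact Nat.prime_two
    · exact hS p h
  have hs : ∀ i ∈ T, s i ≠ 0 := by
    intro i hi
    by_cases h : i = 2
    · simp [s, h]
    · simp only [s, if_neg h]
      exact (hT i hi).ne_zero
  have hco : ∀ i ∈ T, i ≠ 2 → Nat.Coprime 8 i := by
    intro i hi h
    have h3 : Nat.Coprime 2 i := (Nat.coprime_primes Nat.prime_two (hT i hi)).2 (Ne.symm h)
    exact Nat.Coprime.pow_left 3 h3
  have pp : Set.Pairwise (↑T : Set ℕ) (Function.onFun Nat.Coprime s) := by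
    intro i hi j hj hij
    change Nat.Coprime (s i) (s j)
    by_cases h : i = 2
    · by_cases h' : j = 2
      · exact absurd (h.trans h'.symm) hij
      · simp only [s, if_pos h, if_neg h']
        exact hco j hj h'
    · by_cases h' : j = 2
      · simp only [s, if_neg h, if_pos h']
        exact (hco i hi h).symm
      · simp only [s, if_neg h, if_neg h']
        exact (Nat.coprime_primes (hT i hi) (hT j hj)).2 hij
  obtain ⟨r, hr⟩ := Nat.chineseRemainderOfFinset w s T hs pp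
  have hr8 : r ≡ b [MOD 8] := by
    have := hr 2 (Finset.mem_insert_self _ _)
    simpa [s, w] using this
  have hrp : ∀ p ∈ S, r ≡ a p [MOD p] := by
    intro p hp
    have := hr p (Finset.mem_insert_of_mem hp)
    simpa [s, w, if_neg (hSn p hp)] using this
  have hr8' : r % 8 = b := by
    rw [hr8]
    exact Nat.mod_eq_of_lt hb8
  have hrc : ∀ p ∈ S, Nat.Coprime r p := by
    intro p hp
    rw [Nat.coprime_comm, Nat.Prime.coprime_iff_not_dvd (hS p hp)]
    intro hd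
    apply (ha p hp).1
    have h3 : ((r : ℕ) : ZMod p) = (a p : ZMod p) := (ZMod.natCast_eq_natCast_iff _ _ _).2 (hrp p hp)
    rw [← h3]
    exact (ZMod.natCast_eq_zero_iff _ _).2 hd
  have hcop : r.Coprime (8 * ∏ p ∈ S, p) := by
    refine Nat.Coprime.mul_right ?_ (Nat.Coprime.prod_right fun p hp => hrc p hp)
    have h3 : r.Coprime 2 := by
      rw [Nat.coprime_comm, Nat.Prime.coprime_iff_not_dvd Nat.prime_two]
      omega
    exact Nat.Coprime.pow_right 3 h3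
  refine ⟨r, hcop, fun q hq hqr => ?_⟩
  have hdv : ∀ p ∈ S, p ∣ 8 * ∏ p ∈ S, p :=
    fun p hp => Dvd.dvd.mul_left (Finset.dvd_prod_of_mem _ hp) _
  have hqS : q ∉ S := by
    intro hqS
    have h3 : q ∣ 8 * ∏ p ∈ S, p := hdv q hqS
    have h4 : q ≡ r [MOD q] := hqr.of_dvd h3
    have h5 : q ∣ r := by
      have h6 : 0 ≡ r [MOD q] := ((Nat.modEq_zero_iff_dvd.2 dvd_rfl).symm).trans h4
      exact Nat.modEq_zero_iff_dvd.1 h6.symm
    have h6 := Nat.eq_one_of_dvd_coprimes hcop h5 h3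
    exact hq.one_lt.ne' h6
  have hq8 : q % 8 = b := by
    have h3 : q ≡ r [MOD 8] := hqr.of_dvd (Dvd.intro _ rfl)
    rw [← hr8']
    exact h3
  have hq2 : q ≠ 2 := by
    rintro rfl
    omega
  have hc0 : chi q 0 = χ 0 := by
    have h3 := chi_zero hq hq2
    have h4 : q % 4 = b % 4 := by omega
    rw [h4, ← hb4] at h3
    by_cases h5 : χ 0 = 0
    · rw [h5]
      exact h3.2 h5
    · rw [Ng_ne h5]
      exact Ng_ne fun h6 => h5 (h3.1 h6)
  refine ⟨hqS, hq2, ?_⟩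
  rintro i (rfl | rfl | hi)
  · exact hc0
  · have h3 := chi_two hq hq2
    rw [hq8, ← hb7] at h3
    by_cases h5 : χ 2 = 0
    · rw [h5]
      exact h3.2 h5
    · rw [Ng_ne h5]
      exact Ng_ne fun h6 => h5 (h3.1 h6)
  · have h := hSn i hi
    have hip := hS i hi
    have hne : i ≠ q := by
      rintro rfl
      exact hqS hi
    have hrec := chi_recip hip hq h hq2 hne
    have h3 := chi_eq_zero_iff (q := i) hq (Ne.symm hne)
    have h4 : q ≡ a i [MOD i] := (hqr.of_dvd (hdv i hi)).trans (hrp i hi)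
    have h5 : ((q : ℤ) : ZMod i) = (a i : ZMod i) := by
      rw [Int.cast_natCast]
      exact (ZMod.natCast_eq_natCast_iff _ _ _).2 h4
    rw [h5, ← (ha i hi).2] at h3
    have h6 : chi i q = χ i + chi i 0 * χ 0 := by
      by_cases h7 : χ i + chi i 0 * χ 0 = 0
      · rw [h7]
        exact h3.2 h7
      · rw [Ng_ne h7]
        exact Ng_ne fun h8 => h7 (h3.1 h8)
    rw [h6, hc0] at hrec
    have key : ∀ x y z : ZMod 2, x + y + z = y → z = x := by decide
    exact key _ _ _ hrec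

private theorem Ng_fun {v w : V} (hv : v ≠ 0) (hw : w ≠ 0) :
    ∃ χ : ℕ → ZMod 2, ev χ v = 1 ∧ ev χ w = 1 := by
  suffices h : ∃ f : V →ₗ[ZMod 2] ZMod 2, f v = 1 ∧ f w = 1 by
    obtain ⟨f, h1, h2⟩ := h
    obtain ⟨χ, rfl⟩ := exists_ev f
    exact ⟨χ, h1, h2⟩
  obtain ⟨i, hi⟩ := Finsupp.ne_iff.1 hv
  obtain ⟨j, hj⟩ := Finsupp.ne_iff.1 hw
  have hi' : v i = 1 := Ng_ne hi
  have hj' : w j = 1 := Ng_ne hj
  rcases Ng_two (w i) with h1 | h1
  · rcases Ng_two (v j) with h3 | h3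
    · refine ⟨Finsupp.lapply i + Finsupp.lapply j, ?_, ?_⟩
      · change v i + v j = 1
        rw [hi', h3, add_zero]
      · change w i + w j = 1
        rw [h1, hj', zero_add]
    · exact ⟨Finsupp.lapply j, h3, hj'⟩
  · exact ⟨Finsupp.lapply i, hi', h1⟩

private theorem Ng_supp {x N : ℤ} (hx : x ≠ 0) (hN : N ≠ 0) (hd : x ∣ N) {i : ℕ}
    (hi : cl x i ≠ 0) : i = 0 ∨ i = 2 ∨ i ∈ N.natAbs.primeFactors.erase 2 := by
  by_cases h0 : i = 0
  · exact Or.inl h0
  · right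
    by_cases h2 : i = 2
    · exact Or.inl h2
    · right
      have hp : i.Prime := by
        by_contra h
        exact hi (cl_apply_of_not_prime x h0 h)
      have hdv : (i : ℤ) ∣ x := by
        by_contra h
        exact hi (cl_apply_of_not_dvd hx hp h)
      rw [Finset.mem_erase, Nat.mem_primeFactors, ← Int.natCast_dvd]
      exact ⟨h2, hp, hdv.trans hd, Int.natAbs_ne_zero.2 hN⟩

private theorem Ng_nsq {l : ℕ} (hl : l.Prime) (h2 : l ≠ 2) {x : ℤ} (hx : ¬ (l : ℤ) ∣ x)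
    (h : ev (chi l) (cl x) = 1) : ¬ SqMod l x := by
  rintro ⟨t, ht⟩
  have h3 : IsSquare ((x : ℤ) : ZMod l) := by
    refine ⟨(t : ZMod l), ?_⟩
    have h4 : ((x - t ^ 2 : ℤ) : ZMod l) = 0 := (ZMod.intCast_zmod_eq_zero_iff_dvd _ l).2 ht
    push_cast at h4
    rw [sub_eq_zero] at h4
    rw [h4, sq]
  have h5 := (ev_chi hl h2 hx).2 h3
  rw [h5] at h
  exact absurd h (by decide)

theorem neutral_class {a b : ℤ} (hab : Hyp a b) :
    ∃ c : ℕ, c.Coprime (8 * ∏ q ∈ Qs a b, q) ∧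
      ∀ l : ℕ, l.Prime → l ≡ c [MOD 8 * ∏ q ∈ Qs a b, q] →
        ¬ (l : ℤ) ∣ 2 * (b * (a ^ 2 - 4 * b)) ∧ ¬ SqMod l b ∧ ¬ SqMod l (a ^ 2 - 4 * b) := by
  have hb0 := Hyp.b_ne hab
  have hD0 := Hyp.D_ne hab
  have hN0 : b * (a ^ 2 - 4 * b) ≠ 0 := mul_ne_zero hb0 hD0
  obtain ⟨χ, h1, h2⟩ := Ng_fun (v := cl b) (w := cl (a ^ 2 - 4 * b))
    (fun h => hab.nb ((cl_eq_zero_iff hb0).1 h)) (fun h => hab.nD ((cl_eq_zero_iff hD0).1 h))
  have hQ : ∀ p ∈ Qs a b, p.Prime := fun p hp => ((mem_Qs hab).1 hp).1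
  have hQ2 : 2 ∉ Qs a b := fun h => ((mem_Qs hab).1 h).2.1 rfl
  obtain ⟨c, hc, hcl⟩ := Ng_class hQ hQ2 χ
  refine ⟨c, hc, fun l hl hlc => ?_⟩
  obtain ⟨hlQ, hl2, hlχ⟩ := hcl l hl hlc
  have hnd : ¬ (l : ℤ) ∣ b * (a ^ 2 - 4 * b) := fun h => hlQ ((mem_Qs hab).2 ⟨hl, hl2, h⟩)
  have hlp : Prime (l : ℤ) := Nat.prime_iff_prime_int.1 hl
  have e1 : ev (chi l) (cl b) = 1 := by
    rw [← h1]
    exact ev_congr fun i hi => hlχ i (Ng_supp hb0 hN0 (Dvd.intro _ rfl) hi)
  have e2 : ev (chi l) (cl (a ^ 2 - 4 * b)) = 1 := by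
    rw [← h2]
    exact ev_congr fun i hi => hlχ i (Ng_supp hD0 hN0 (Dvd.intro_left _ rfl) hi)
  refine ⟨?_, Ng_nsq hl hl2 (fun h => hnd (h.mul_right _)) e1,
    Ng_nsq hl hl2 (fun h => hnd (h.mul_left _)) e2⟩
  intro h
  rcases hlp.dvd_or_dvd h with h' | h'
  · apply hl2
    have h4 : l ∣ 2 := by exact_mod_cast h'
    exact (Nat.prime_dvd_prime_iff_eq hl Nat.prime_two).1 h4
  · exact hnd h'

end H93T1
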