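import Pool.Agent.H38.T1.Tw
import Pool.Agent.H42.PC.BFin
import Pool.Agent.H42.PC.EPit

/-!
ROW Cf (project MP_78d38b_T1, block C): infinitely many primes whose Frobenius element generates a
given cyclic subgroup (about 150 lines).

PROOF. Use the files `H42/PC/BDefs, BAvg, BFin, EPit` with base field `ℚ`. `G = L ≃ₐ[ℚ] L`,
`BFin_S ℚ L` is the submodule of the functions `φ : G → ℝ` with
`avg ℚ L φ X → (∑ g, φ g) / |G|`; all `tht C` are in it (see the first lines of the proof of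
`frobenius_density` in `BFin.lean`: `avg_tht (pith ℚ) (fun M => pith M) C`, `tht_mean`).
(1) For a subgroup `C` let `A C g = Nat.card {x : G // Subgroup.zpowers (x⁻¹ * g * x) = C}` (real
valued). Claim: `A C ∈ BFin_S ℚ L` for all `C`, by strong induction on `Nat.card C`:
`x⁻¹ g x ∈ C` iff `zpowers (x⁻¹ g x) ≤ C`, so
`Nat.card C * tht C g = ∑ D ≤ C, A D g = A C g + ∑ D < C, A D g` (finite sums over
`Finset.univ.filter` in `Subgroup G`, which is finite; sum over the fibres of `x ↦ zpowers (x⁻¹ g x)`: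
`Finset.card_eq_sum_card_fiberwise`), and `D < C` has smaller cardinality. Submodule: closed under
subtraction and scalar multiplication.
(2) Take `C = zpowers σ`. `∑ g, A C g > 0`: the term `g = σ` has `x = 1`. So
`avg ℚ L (A C) X → c > 0`.
(3) The set `B` of the places `v` of `𝓞 ℚ` with `Un ℚ L v` and `A C (frb ℚ L v) ≠ 0` is infinite:
otherwise the numerator of `avg ℚ L (A C) X` (the finsum) is bounded by a constant and the
denominator `prc ℚ univ X` tends to infinity (`prc_tendsto (pith ℚ)`), so the average tends to zero.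
(4) For `v ∈ B` there is `x` with `zpowers (x⁻¹ * frb * x) = zpowers σ`; so `x⁻¹ * frb * x = σ ^ j`
with `j` prime to `orderOf σ` (`Subgroup.mem_zpowers_iff`, `mem_powers_iff_mem_zpowers`;
`orderOf (σ ^ j) = orderOf σ` by `Nat.card_zpowers`, `orderOf_pow`: `Nat.Coprime`; if `σ = 1` everything
is trivial), and it is a Frobenius element at some `w` over `v` (`fr_conj'`, `BAvg_frb`). Let
`p = Ideal.absNorm v.asIdeal`: a prime number (the prime ideals of `𝓞 ℚ` are generated by primes,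
`Rat.ringOfIntegersEquiv`; or `BCnt_prime` gives a prime `p ∈ v` and `v = (p)`, `absNorm (p) = p`, see
also `ratPlace` and `uniqueAbove_rat` in `H10/RatLoc.lean`), `(p : 𝓞 L) ∈ w.asIdeal`, and
`IsArithFrobAt (𝓞 ℚ) g w.asIdeal` says `g • x - x ^ Nat.card (𝓞 ℚ ⧸ w.asIdeal.under (𝓞 ℚ)) ∈ w` with
`w.asIdeal.under (𝓞 ℚ) = v.asIdeal`, cardinality `p`.
(5) The map `v ↦ p` is injective on `B` (the prime over `p` is unique), so the set is infinite
(`Set.infinite_of_injOn_mapsTo`).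
-/

set_option autoImplicit false
open scoped Classical

open NumberField IsDedekindDomain Filter Topology Pool.Agent.H42.PC

namespace H93T1

theorem Cf_card {G : Type} [Fintype G] (P : G → Prop) :
    (Nat.card {x : G // P x} : ℝ) = ∑ x : G, (if P x then (1 : ℝ) else 0) := by
  rw [Nat.card_eq_fintype_card, Fintype.card_subtype, Finset.sum_ite, Finset.sum_const,
    Finset.sum_const_zero, add_zero, nsmul_eq_mul, mul_one]

/-- the number of conjugators -/
noncomputable def Cf_A {G : Type} [Group G] (C : Subgroup G) (g : G) : ℝ :=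
  (Nat.card {x : G // Subgroup.zpowers (x⁻¹ * g * x) = C} : ℝ)

theorem Cf_sum {G : Type} [Group G] [Fintype G] (C : Subgroup G) (g : G) :
    (Nat.card C : ℝ) * tht C g = ∑ D ∈ Finset.univ.filter (fun D : Subgroup G => D ≤ C),
      Cf_A D g := by
  have hC : (Nat.card C : ℝ) ≠ 0 := by
    have : Nat.card C ≠ 0 := Nat.card_pos.ne'
    exact_mod_cast this
  unfold tht Cf_A
  rw [mul_div_cancel₀ _ hC, Cf_card]
  simp only [Cf_card]
  rw [Finset.sum_comm]
  refine Finset.sum_congr rfl fun x _ => ?_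
  rw [Finset.sum_ite_eq]
  simp only [Finset.mem_filter, Finset.mem_univ, true_and, Subgroup.zpowers_le]

theorem Cf_span {G : Type} [Group G] [Fintype G] (S : Submodule ℝ (G → ℝ))
    (hS : ∀ C : Subgroup G, tht C ∈ S) (n : ℕ) : ∀ C : Subgroup G, Nat.card C = n →
    Cf_A C ∈ S := by
  induction n using Nat.strong_induction_on with
  | _ n ih =>
    intro C hC
    have e : Cf_A C = (Nat.card C : ℝ) • tht C -
        ∑ D ∈ (Finset.univ.filter (fun D : Subgroup G => D ≤ C)).erase C, Cf_A D := by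
      funext g
      rw [Pi.sub_apply, Pi.smul_apply, smul_eq_mul, Cf_sum, Finset.sum_apply]
      rw [← Finset.add_sum_erase _ _ (show C ∈ Finset.univ.filter (fun D : Subgroup G => D ≤ C) by
        simp)]
      ring
    rw [e]
    refine S.sub_mem (S.smul_mem _ (hS C)) (S.sum_mem fun D hD => ?_)
    rw [Finset.mem_erase, Finset.mem_filter] at hD
    have hlt : Nat.card D < n := by
      rw [← hC]
      have h1 : D < C := lt_of_le_of_ne hD.2.2 hD.1
      exact Set.ncard_lt_ncard (s := (D : Set G)) (t := (C : Set G)) h1 (Set.toFinite _)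
    exact ih _ hlt D rfl

theorem Cf_prime {p : ℕ} (hp : p.Prime) : Prime (p : 𝓞 ℚ) := by
  rw [← MulEquiv.prime_iff (Rat.ringOfIntegersEquiv : 𝓞 ℚ ≃* ℤ)]
  change Prime (Rat.ringOfIntegersEquiv (p : 𝓞 ℚ))
  rw [map_natCast]
  exact Nat.prime_iff_prime_int.mp hp

/-- the places of the rationals -/
theorem Cf_rat (v : HeightOneSpectrum (𝓞 ℚ)) : (Ideal.absNorm v.asIdeal).Prime ∧
    v.asIdeal = Ideal.span {((Ideal.absNorm v.asIdeal : ℕ) : 𝓞 ℚ)} := by
  obtain ⟨p, hp, hpv, -⟩ := BCnt_prime v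
  have hpr := Cf_prime hp
  have h1 : (Ideal.span {(p : 𝓞 ℚ)}).IsPrime := (Ideal.span_singleton_prime hpr.ne_zero).2 hpr
  have h2 : (Ideal.span {(p : 𝓞 ℚ)}) ≠ ⊥ := by
    rw [Ne, Ideal.span_singleton_eq_bot]
    exact hpr.ne_zero
  have h3 : (Ideal.span {(p : 𝓞 ℚ)}).IsMaximal := h1.isMaximal h2
  have h4 : Ideal.span {(p : 𝓞 ℚ)} = v.asIdeal :=
    h3.eq_of_le v.isPrime.ne_top (by rwa [Ideal.span_singleton_le_iff_mem])
  have h5 : Ideal.absNorm v.asIdeal = p := by
    rw [← h4, Ideal.absNorm_span_singleton]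
    have h6 : (p : 𝓞 ℚ) = algebraMap ℤ (𝓞 ℚ) (p : ℤ) := by simp
    rw [h6, Algebra.norm_algebraMap, RingOfIntegers.rank, Module.finrank_self, pow_one]
    simp
  rw [h5]
  exact ⟨hp, h4.symm⟩

theorem Cf_inj : Function.Injective
    (fun v : HeightOneSpectrum (𝓞 ℚ) => Ideal.absNorm v.asIdeal) := by
  intro v w h
  apply HeightOneSpectrum.ext
  simp only at h
  rw [(Cf_rat v).2, (Cf_rat w).2, h]

theorem Cf_coprime {G : Type} [Group G] [Finite G] {σ : G} {j : ℕ}
    (h : Subgroup.zpowers (σ ^ j) = Subgroup.zpowers σ) : j.Coprime (orderOf σ) := by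
  have h1 : orderOf (σ ^ j) = orderOf σ := by
    rw [← Nat.card_zpowers, h, Nat.card_zpowers]
  rw [orderOf_pow] at h1
  have h2 := orderOf_pos σ
  have h3 : (orderOf σ).gcd j = 1 := by
    rcases Nat.div_eq_self.1 h1 with h4 | h4
    · omega
    · exact h4
  rw [Nat.coprime_comm]
  exact h3

theorem frob_inf {L : Type} [Field L] [NumberField L] [IsGalois ℚ L] (σ : L ≃ₐ[ℚ] L) :
    {p : ℕ | p.Prime ∧ ∃ (j : ℕ) (w : HeightOneSpectrum (𝓞 L)), j.Coprime (orderOf σ) ∧
      (p : 𝓞 L) ∈ w.asIdeal ∧ ∀ x : 𝓞 L, (σ ^ j) • x - x ^ p ∈ w.asIdeal}.Infinite := by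
  have : Fintype (L ≃ₐ[ℚ] L) := Fintype.ofFinite _
  have hcard : (Nat.card (L ≃ₐ[ℚ] L) : ℝ) ≠ 0 := by
    have : Nat.card (L ≃ₐ[ℚ] L) ≠ 0 := Nat.card_pos.ne'
    exact_mod_cast this
  set C := Subgroup.zpowers σ with hC
  have hmem : Cf_A C ∈ BFin_S ℚ L := Cf_span (BFin_S ℚ L) (fun C => by
    have h1 := avg_tht (pith ℚ) (fun M : IntermediateField ℚ L => pith M) C
    change Tendsto (avg ℚ L (tht C)) atTop (𝓝 ((∑ g, tht C g) / Nat.card (L ≃ₐ[ℚ] L)))
    rw [tht_mean, div_self hcard]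
    exact h1) _ C rfl
  have hlim : Tendsto (avg ℚ L (Cf_A C)) atTop
    (𝓝 ((∑ g, Cf_A C g) / Nat.card (L ≃ₐ[ℚ] L))) := hmem
  have hnn : ∀ g, 0 ≤ Cf_A C g := fun g => Nat.cast_nonneg _
  have hpos : 0 < ∑ g, Cf_A C g := by
    refine Finset.sum_pos' (fun g _ => hnn g) ⟨σ, Finset.mem_univ _, ?_⟩
    unfold Cf_A
    have : Nonempty {x : L ≃ₐ[ℚ] L // Subgroup.zpowers (x⁻¹ * σ * x) = C} :=
      ⟨⟨1, by rw [inv_one, one_mul, mul_one]⟩⟩
    exact_mod_cast Nat.card_pos
  set c := (∑ g, Cf_A C g) / Nat.card (L ≃ₐ[ℚ] L) with hc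
  have hcpos : 0 < c := by
    apply div_pos hpos
    exact lt_of_le_of_ne (Nat.cast_nonneg _) (Ne.symm hcard)
  set B : Set (HeightOneSpectrum (𝓞 ℚ)) := {v | Un ℚ L v ∧ Cf_A C (frb ℚ L v) ≠ 0} with hB
  have hBinf : B.Infinite := by
    intro hfin
    have hbound : ∀ X : ℕ, avg ℚ L (Cf_A C) X ≤
        (∑ v ∈ hfin.toFinset, Cf_A C (frb ℚ L v)) / prc ℚ Set.univ X := by
      intro X
      unfold avg
      apply div_le_div_of_nonneg_right _ (Nat.cast_nonneg _)
      rw [finsum_mem_eq_finite_toFinset_sum _ (BAvg_unfin X),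
        ← Finset.sum_filter_ne_zero]
      apply Finset.sum_le_sum_of_subset_of_nonneg
      · intro v hv
        rw [Finset.mem_filter, Set.Finite.mem_toFinset] at hv
        rw [Set.Finite.mem_toFinset]
        exact ⟨hv.1.1, hv.2⟩
      · intro v _ _
        exact hnn _
    have h0 : Tendsto (fun X : ℕ => (∑ v ∈ hfin.toFinset, Cf_A C (frb ℚ L v)) /
        (prc ℚ Set.univ X : ℝ)) atTop (𝓝 0) :=
      Tendsto.div_atTop tendsto_const_nhds (prc_tendsto (pith ℚ))
    have h1 := le_of_tendsto_of_tendsto' hlim h0 hbound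
    linarith
  refine Set.infinite_of_injOn_mapsTo (s := B)
    (f := fun v : HeightOneSpectrum (𝓞 ℚ) => Ideal.absNorm v.asIdeal)
    (Cf_inj.injOn) ?_ hBinf
  rintro v ⟨-, hv⟩
  have hvp := Cf_rat v
  have hne : Nat.card {x : L ≃ₐ[ℚ] L // Subgroup.zpowers (x⁻¹ * frb ℚ L v * x) = C} ≠ 0 := by
    intro h
    apply hv
    unfold Cf_A
    rw [h, Nat.cast_zero]
  obtain ⟨x, hx⟩ : ∃ x : L ≃ₐ[ℚ] L, Subgroup.zpowers (x⁻¹ * frb ℚ L v * x) = C := by
    by_contra hcon
    apply hne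
    rw [Nat.card_eq_zero]
    left
    exact ⟨fun y => hcon ⟨y.1, y.2⟩⟩
  have hfr : IsFr ℚ L v (x⁻¹ * frb ℚ L v * x) := by
    have := fr_conj' (BAvg_frb (K := ℚ) (L := L) v) x⁻¹
    rwa [inv_inv] at this
  have hmemz : x⁻¹ * frb ℚ L v * x ∈ Subgroup.zpowers σ := by
    rw [← hC, ← hx]
    exact Subgroup.mem_zpowers _
  obtain ⟨j, hj⟩ := mem_powers_iff_mem_zpowers.2 hmemz
  simp only at hj
  rw [← hj] at hx hfr
  obtain ⟨w, hw, hF⟩ := hfr
  refine ⟨hvp.1, j, w, Cf_coprime hx, ?_, ?_⟩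
  · have h1 : ((Ideal.absNorm v.asIdeal : ℕ) : 𝓞 ℚ) ∈ v.asIdeal := Ideal.absNorm_mem _
    change ((Ideal.absNorm v.asIdeal : ℕ) : 𝓞 L) ∈ w.asIdeal
    generalize Ideal.absNorm v.asIdeal = N at h1 ⊢
    rw [hw.over, Ideal.mem_comap, map_natCast] at h1
    exact h1
  · intro y
    have h1 := hF y
    have h2 : Nat.card (𝓞 ℚ ⧸ w.asIdeal.under (𝓞 ℚ)) = Ideal.absNorm v.asIdeal := by
      rw [← hw.over, Ideal.absNorm_apply, Submodule.cardQuot_apply]
    rw [h2] at h1
    exact h1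

end H93T1
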