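import Mathlib

/-!
ROW Cd (project MP_78d38b_T1, block C): a Galois extension containing given square roots (about 90
lines).

PROOF. `Ω = AlgebraicClosure K'`, an algebra over `ℚ` and `K'` (`IsScalarTower ℚ K' Ω`). For
`w ∈ W` choose `ρ w : Ω` with `ρ w ^ 2 = algebraMap K' Ω w` (`IsAlgClosed.exists_pow_nat_eq` or
`IsAlgClosed.exists_pow_nat_eq _ two_pos`). Let
`E = (IsScalarTower.toAlgHom ℚ K' Ω).fieldRange ⊔ IntermediateField.adjoin ℚ (ρ '' W)`, an
intermediate field of `Ω / ℚ`, finite dimensional (`IntermediateField.finiteDimensional_sup`; the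
range is isomorphic to `K'`; `IntermediateField.finiteDimensional_adjoin` with `ρ w` integral over
`ℚ`, `Ω / ℚ` being algebraic: `Algebra.IsAlgebraic.trans ℚ K' Ω`). Let
`L = IntermediateField.normalClosure ℚ E Ω` (notation/name: `normalClosure ℚ E Ω`), an intermediate
field of `Ω / ℚ`: finite dimensional (`normalClosure.is_finiteDimensional`), normal
(`normalClosure.normal`), hence Galois (characteristic zero: separable), and `E ≤ L`
(`IntermediateField.le_normalClosure`). `NumberField L`. `Algebra K' L` is given by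
`(IntermediateField.inclusion (le : range ≤ L)) ∘ (K' ≃ range)`, for instance
`RingHom.codRestrict (algebraMap K' Ω) L (fun x => ...)` and `RingHom.toAlgebra`; the square root of
`algebraMap K' L w` is `⟨ρ w, _⟩`.
(Alternative: `L` the splitting field over `ℚ` of the product of `minpoly ℚ θ`, `K' = ℚ(θ)`, and of
the polynomials `(minpoly ℚ w).comp (X^2)`.)
`L` is a subtype, of type `Type`.
-/

set_option autoImplicit false
open scoped Classical

open NumberField

namespace H93T1

theorem exists_field {K' : Type} [Field K'] [NumberField K'] (W : Finset K') :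
    ∃ (L : Type) (_ : Field L) (_ : NumberField L) (_ : Algebra K' L), IsGalois ℚ L ∧
      ∀ w ∈ W, ∃ r : L, r ^ 2 = algebraMap K' L w := by
  let Ω := AlgebraicClosure K'
  have : Algebra.IsAlgebraic ℚ K' := inferInstance
  have : Algebra.IsAlgebraic ℚ Ω := Algebra.IsAlgebraic.trans ℚ K' Ω
  have hρ : ∀ w : K', ∃ z : Ω, z ^ 2 = algebraMap K' Ω w := fun w =>
    IsAlgClosed.exists_pow_nat_eq _ two_pos
  choose ρ hρ using hρ
  let E1 : IntermediateField ℚ Ω := (IsScalarTower.toAlgHom ℚ K' Ω).fieldRange
  let S : Set Ω := ρ '' (W : Set K')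
  have : Finite S := ((Finset.finite_toSet W).image ρ).to_subtype
  let E2 : IntermediateField ℚ Ω := IntermediateField.adjoin ℚ S
  have h1 : FiniteDimensional ℚ E1 := by
    have e := (AlgEquiv.ofInjectiveField (IsScalarTower.toAlgHom ℚ K' Ω)).toLinearEquiv
    exact LinearEquiv.finiteDimensional e
  have h2 : FiniteDimensional ℚ E2 :=
    IntermediateField.finiteDimensional_adjoin (fun x _ => Algebra.IsIntegral.isIntegral x)
  let E : IntermediateField ℚ Ω := E1 ⊔ E2
  have : FiniteDimensional ℚ E := IntermediateField.finiteDimensional_sup E1 E2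
  let L : IntermediateField ℚ Ω := IntermediateField.normalClosure ℚ E Ω
  have hLf : FiniteDimensional ℚ L := normalClosure.is_finiteDimensional ℚ E Ω
  have : IsAlgClosure ℚ Ω := ⟨inferInstance, inferInstance⟩
  have : Normal ℚ Ω := IsAlgClosure.normal ℚ Ω
  have hLn : Normal ℚ L := normalClosure.normal ℚ E Ω
  have hEL : E ≤ L := IntermediateField.le_normalClosure E
  have hK : ∀ x : K', algebraMap K' Ω x ∈ L := fun x =>
    hEL (le_sup_left (a := E1) (b := E2) ⟨x, rfl⟩)
  let φ : K' →+* L := RingHom.codRestrict (algebraMap K' Ω) L hK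
  let hNF : NumberField L := { to_charZero := inferInstance, to_finiteDimensional := hLf }
  refine ⟨L, inferInstance, hNF, φ.toAlgebra, ?_, ?_⟩
  · exact { to_isSeparable := inferInstance, to_normal := hLn }
  · intro w hw
    refine ⟨⟨ρ w, hEL (le_sup_right (a := E1) (b := E2)
      (IntermediateField.subset_adjoin ℚ S ⟨w, hw, rfl⟩))⟩, ?_⟩
    apply Subtype.ext
    exact hρ w

end H93T1
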