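import Pool.Agent.H38.T1.Tw

/-!
ROW Ck (project MP_78d38b_T1, block C): Kummer theory (about 140 lines).

PROOF. For `z ∈ Z`, `rep z ≠ 0` (`rep_ne`), so `r z ≠ 0`; for `σ : L ≃ₐ[K'] L`,
`(σ (r z))^2 = σ (algebraMap K L (rep z)) = (r z)^2` (`σ` fixes the image of `K`), so
`σ (r z) = r z` or `- r z`. Let `V = {z // z ∈ Z} → ZMod 2` (a vector space over `ZMod 2`) and
`κ σ z = if σ (r z) = r z then 0 else 1`. `κ (σ τ) = κ σ + κ τ` (values `± r z`; `r z ≠ - r z` as the
characteristic is zero). So `S = {κ σ}` is an additive subgroup of `V`, hence a subspace (scalars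
in `ZMod 2`). If `Φ₀ = (z ↦ Φ z)` is in `S` we are done. Otherwise there is a linear functional `ℓ` on
`V` with `ℓ Φ₀ ≠ 0`, `S ≤ ker ℓ` (`Submodule.exists_le_ker_of_notMem`); `ℓ e = ∑ z, c z * e z` with
`c z = ℓ (Pi.single z 1)`. Let `u = ∏ z with c z = 1, rep z : K` and `ρ = ∏ z with c z = 1, r z : L`.
`ρ ^ 2 = algebraMap K L u`, `ρ ≠ 0`. For all `σ`, `σ ρ = (-1)^(∑ c z κ σ z) ρ = ρ` (each factor
`σ (r z) = (-1)^(κ σ z) r z`, and `∑ z, c z * κ σ z = ℓ (κ σ) = 0`). So `ρ` is fixed by all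
`σ : L ≃ₐ[K'] L`, and `ρ = algebraMap K' L t` (`IsGalois.mem_bot_iff_fixed`,
`IntermediateField.mem_bot`). So `algebraMap K K' u = t ^ 2` (injectivity of `K' → L`,
`IsScalarTower.algebraMap_apply`). As `[K' : K] = 2 m + 1` is odd, `u` is a square in `K`: norms:
`N(t)^2 = u^(2m+1)` (`Algebra.norm_algebraMap`, `map_pow`), so `u = (N(t) / u^m)^2`. Hence
`sc u = 0` (`sc_eq_zero`), but `sc u = ∑ z with c z = 1, sc (rep z) = ∑ z with c z = 1, z` (`sc_mul`,
`sc_rep`, induction on the finite set), so `0 = Φ (sc u) = ∑ c z * Φ z = ℓ Φ₀ ≠ 0`, a contradiction.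
-/

set_option autoImplicit false
open scoped Classical

open NumberField H38T1

namespace H93T1

/-- The sign. -/
private noncomputable def Ck_e (L : Type) [Field L] (e : ZMod 2) : L := if e = 0 then 1 else -1

private lemma Ck_cases (e : ZMod 2) : e = 0 ∨ e = 1 := by
  revert e; decide

private lemma Ck_zero (L : Type) [Field L] : Ck_e L 0 = 1 := if_pos rfl

private lemma Ck_one (L : Type) [Field L] : Ck_e L 1 = -1 := if_neg (by decide)

private lemma Ck_add (L : Type) [Field L] (a b : ZMod 2) :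
    Ck_e L (a + b) = Ck_e L a * Ck_e L b := by
  rcases Ck_cases a with rfl | rfl <;> rcases Ck_cases b with rfl | rfl
  · rw [add_zero, Ck_zero, one_mul]
  · rw [zero_add, Ck_zero, one_mul]
  · rw [add_zero, Ck_zero, mul_one]
  · rw [show (1 : ZMod 2) + 1 = 0 from by decide, Ck_zero, Ck_one]
    norm_num

private lemma Ck_sum (L : Type) [Field L] {ι : Type*} (s : Finset ι) (x : ι → ZMod 2) :
    Ck_e L (∑ z ∈ s, x z) = ∏ z ∈ s, Ck_e L (x z) := by
  induction s using Finset.induction_on with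
  | empty => rw [Finset.sum_empty, Finset.prod_empty, Ck_zero]
  | insert a s ha ih => rw [Finset.sum_insert ha, Finset.prod_insert ha, Ck_add, ih]

private lemma Ck_inj {L : Type} [Field L] [CharZero L] {a b : ZMod 2} {r : L} (hr : r ≠ 0)
    (h : Ck_e L a * r = Ck_e L b * r) : a = b := by
  have h1 : Ck_e L a = Ck_e L b := mul_right_cancel₀ hr h
  rcases Ck_cases a with rfl | rfl <;> rcases Ck_cases b with rfl | rfl
  · rfl
  · rw [Ck_zero, Ck_one] at h1; norm_num at h1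
  · rw [Ck_zero, Ck_one] at h1; norm_num at h1
  · rfl

private lemma Ck_map {K' L : Type} [Field K'] [Field L] [Algebra K' L] (σ : L ≃ₐ[K'] L)
    (e : ZMod 2) : σ (Ck_e L e) = Ck_e L e := by
  rcases Ck_cases e with rfl | rfl
  · rw [Ck_zero, map_one]
  · rw [Ck_one, map_neg, map_one]

private lemma Ck_sc {K : Type} [Field K] {ι : Type*} (s : Finset ι) (f : ι → K)
    (hf : ∀ i, f i ≠ 0) : sc (∏ i ∈ s, f i) = ∑ i ∈ s, sc (f i) := by
  induction s using Finset.induction_on with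
  | empty =>
    rw [Finset.prod_empty, Finset.sum_empty, sc_eq_zero one_ne_zero]
    exact ⟨1, by rw [one_mul]⟩
  | insert a s ha ih =>
    rw [Finset.prod_insert ha, Finset.sum_insert ha,
      sc_mul (hf a) (Finset.prod_ne_zero_iff.2 fun i _ => hf i), ih]

private lemma Ck_sq {K K' : Type} [Field K] [Field K'] [Algebra K K']
    (hodd : Odd (Module.finrank K K')) {u : K} (hu : u ≠ 0) {t : K'}
    (h : algebraMap K K' u = t ^ 2) : IsSquare u := by
  obtain ⟨m, hm⟩ := hodd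
  have h1 := congrArg (Algebra.norm K) h
  rw [Algebra.norm_algebraMap, map_pow, hm] at h1
  refine ⟨Algebra.norm K t / u ^ m, ?_⟩
  rw [div_mul_div_comm, eq_div_iff (by positivity)]
  rw [← sq (Algebra.norm K t), ← h1]
  ring

theorem kummer {K K' L : Type} [Field K] [NumberField K] [Field K'] [NumberField K'] [Field L]
    [NumberField L] [Algebra K K'] [Algebra K' L] [Algebra K L] [IsScalarTower K K' L]
    [IsGalois K' L] (hodd : Odd (Module.finrank K K')) (Z : Finset (SC K))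
    (Φ : SC K →+ ZMod 2) (r : SC K → L) (hr : ∀ z ∈ Z, r z ^ 2 = algebraMap K L (rep z)) :
    ∃ σ : L ≃ₐ[K'] L, ∀ z ∈ Z, σ (r z) = if Φ z = 0 then r z else - r z := by
  have hr0 : ∀ z : {z // z ∈ Z}, r z ≠ 0 := by
    intro z h
    have h1 := hr z z.2
    rw [h, zero_pow two_ne_zero] at h1
    have h2 := (map_eq_zero (algebraMap K L)).1 h1.symm
    exact rep_ne _ h2
  have hσ : ∀ (σ : L ≃ₐ[K'] L) (z : {z // z ∈ Z}), ∃ e : ZMod 2, σ (r z) = Ck_e L e * r z := by
    intro σ z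
    have h1 : (σ (r z)) ^ 2 = (r z) ^ 2 := by
      rw [← map_pow, hr z z.2, IsScalarTower.algebraMap_apply K K' L, σ.commutes]
    rcases sq_eq_sq_iff_eq_or_eq_neg.1 h1 with h2 | h2
    · exact ⟨0, by rw [Ck_zero, one_mul, h2]⟩
    · exact ⟨1, by rw [Ck_one, h2, neg_one_mul]⟩
  choose κ hκ using hσ
  have hmul : ∀ σ τ, κ (σ * τ) = κ σ + κ τ := by
    intro σ τ
    funext z
    apply Ck_inj (hr0 z)
    rw [← hκ, Pi.add_apply, Ck_add]
    change σ (τ (r z)) = _
    rw [hκ τ z, map_mul, Ck_map, hκ σ z]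
    ring
  have hone : κ 1 = 0 := by
    have h1 := hmul 1 1
    rw [mul_one] at h1
    exact left_eq_add.1 h1
  let S : Submodule (ZMod 2) ({z // z ∈ Z} → ZMod 2) :=
    { carrier := Set.range κ
      add_mem' := by
        rintro _ _ ⟨σ, rfl⟩ ⟨τ, rfl⟩
        exact ⟨σ * τ, hmul σ τ⟩
      zero_mem' := ⟨1, hone⟩
      smul_mem' := by
        rintro c _ ⟨σ, rfl⟩
        rcases Ck_cases c with rfl | rfl
        · rw [zero_smul]; exact ⟨1, hone⟩
        · rw [one_smul]; exact ⟨σ, rfl⟩ }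
  by_cases hΦ : (fun z : {z // z ∈ Z} => Φ z) ∈ S
  · obtain ⟨σ, hs⟩ := hΦ
    refine ⟨σ, fun z hz => ?_⟩
    have h1 := hκ σ ⟨z, hz⟩
    have h2 : κ σ ⟨z, hz⟩ = Φ z := congrFun hs ⟨z, hz⟩
    rw [h2] at h1
    change σ (r z) = Ck_e L (Φ z) * r z at h1
    rw [h1]
    rcases Ck_cases (Φ z) with h3 | h3
    · rw [h3, Ck_zero, one_mul, if_pos rfl]
    · rw [h3, Ck_one, neg_one_mul, if_neg (by decide)]
  · exfalso
    obtain ⟨ℓ, hℓ, hS⟩ := Submodule.exists_le_ker_of_notMem hΦ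
    have hκℓ : ∀ σ, ℓ (κ σ) = 0 := fun σ => hS ⟨σ, rfl⟩
    obtain ⟨c, hc⟩ : ∃ c : {z // z ∈ Z} → ZMod 2, ∀ x, ℓ x = ∑ z, x z * c z :=
      ⟨fun z => ℓ fun j => if z = j then 1 else 0, fun x => by
        rw [LinearMap.pi_apply_eq_sum_univ ℓ x]
        rfl⟩
    obtain ⟨fu, hfu⟩ : ∃ fu : {z // z ∈ Z} → K, ∀ z, fu z = if c z = 0 then 1 else rep z :=
      ⟨_, fun z => rfl⟩
    obtain ⟨fr, hfr⟩ : ∃ fr : {z // z ∈ Z} → L, ∀ z, fr z = if c z = 0 then 1 else r z :=
      ⟨_, fun z => rfl⟩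
    have hfu0 : ∀ z, fu z ≠ 0 := by
      intro z
      rw [hfu]
      split_ifs
      · exact one_ne_zero
      · exact rep_ne _
    have hsq : (∏ z, fr z) ^ 2 = algebraMap K L (∏ z, fu z) := by
      rw [← Finset.prod_pow, map_prod]
      refine Finset.prod_congr rfl fun z _ => ?_
      rw [hfr, hfu]
      split_ifs
      · rw [one_pow, map_one]
      · exact hr z z.2
    have hfix : ∀ σ : L ≃ₐ[K'] L, σ (∏ z, fr z) = ∏ z, fr z := by
      intro σ
      have h1 : ∀ z, σ (fr z) = Ck_e L (κ σ z * c z) * fr z := by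
        intro z
        rw [hfr]
        rcases Ck_cases (c z) with h2 | h2
        · rw [if_pos h2, h2, mul_zero, Ck_zero, map_one, one_mul]
        · rw [if_neg (by rw [h2]; decide), h2, mul_one]
          exact hκ σ z
      rw [map_prod, Finset.prod_congr rfl (fun z _ => h1 z), Finset.prod_mul_distrib, ← Ck_sum,
        ← hc, hκℓ, Ck_zero, one_mul]
    obtain ⟨t, ht⟩ := (IsGalois.mem_range_algebraMap_iff_fixed (F := K') (∏ z, fr z)).2 hfix
    have hu : algebraMap K K' (∏ z, fu z) = t ^ 2 := by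
      apply (algebraMap K' L).injective
      rw [← IsScalarTower.algebraMap_apply K K' L, ← hsq, map_pow, ht]
    have hu0 : (∏ z, fu z) ≠ 0 := Finset.prod_ne_zero_iff.2 fun z _ => hfu0 z
    have h1 : sc (∏ z, fu z) = 0 := (sc_eq_zero hu0).2 (Ck_sq hodd hu0 hu)
    rw [Ck_sc _ _ hfu0] at h1
    have h2 := congrArg Φ h1
    rw [map_sum, map_zero] at h2
    apply hℓ
    rw [hc, ← h2]
    refine Finset.sum_congr rfl fun z _ => ?_
    rw [hfu]
    rcases Ck_cases (c z) with h3 | h3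
    · rw [if_pos h3, h3, mul_zero, (sc_eq_zero one_ne_zero).2 ⟨1, by rw [one_mul]⟩, map_zero]
    · rw [if_neg (by rw [h3]; decide), h3, mul_one, sc_rep]

end H93T1
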