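import Pool.Agent.H38.T1.Tw

/-!
ROW Cl (project MP_78d38b_T1, block C): the Legendre class from the Frobenius element (about 150
lines).

PROOF. `V = v.valuation K`, `x = rep z`, `V x = 1`. `eo v z = ord V x = - log (V x) = 0`.
`la v z = lam V (unif v) x = if Sq V x then 0 else 1` (`lam_unit`, file `H38/RT/Ta.lean`, or directly
from the definition since `ord V x = 0`), `Sq V x ↔ ∃ t, V (x - t ^ 2) < 1`.
(1) `x = n / d` with `n, d : 𝓞 K`, `d ∉ v.asIdeal`
(`HeightOneSpectrum.exists_primeCompl_mul_eq_of_integer`, see its use in `exists_sqrt_mod`,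
`H68/QS/Val.lean`). Let `y = n * d : 𝓞 K` (so `y = x d^2` in `K`); `n ∉ v` too (`V x = 1`), so `y ∉ v`.
(2) `s = r * d : L`, `s ^ 2 = algebraMap K L y`, so `s` is integral: `s : 𝓞 L`
(`IsIntegral.of_pow`). `φ s = s` if `e = 0` and `φ s = - s` if `e ≠ 0` (`φ` fixes the image of `K`?
we only know it on `r`: use the hypothesis `hφK`). `s ∉ w` since `s ^ 2 = y ∉ w` (`w` lies over `v`).
(3) `φ • s - s ^ p ∈ w.asIdeal` (`hφ`). `p = 2 m + 1`, `s ^ p = s * y ^ m`. So `s * (1 - y ^ m) ∈ w`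
or `s * (-1 - y ^ m) ∈ w`; hence `1 - y ^ m ∈ w`, or `1 + y ^ m ∈ w`, and then it is in `v`
(`w ∩ 𝓞 K = v`).
(4) In the finite field `F = 𝓞 K ⧸ v.asIdeal` of cardinality `p` (`hN`), `2 ≠ 0`: Euler:
`IsSquare (y : F) ↔ y ^ m = 1` (`FiniteField.isSquare_iff`, `Fintype.card F / 2 = m`). So `y` is a
square in `F` iff `e = 0` (if `e ≠ 0` then `y ^ m = -1 ≠ 1`).
(5) `Sq V x ↔ IsSquare (y : F)`: if `y - m₁ ^ 2 ∈ v` then `V (x - (m₁ / d)^2) < 1`. Conversely if
`V (x - t ^ 2) < 1` then `V t = 1`, `t = n' / d'`, `d' ∉ v`, and `y d'^2 = (n' d)^2` modulo `v`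
(multiply by `d^2 d'^2`), so `y` is a square in `F` (`d' ≠ 0` in `F`). (`exists_res` in
`H38/RT/Ta.lean` may help.)
-/

set_option autoImplicit false
open scoped Classical

open NumberField IsDedekindDomain H38T1 H38RT

namespace H93T1

/-- Euler's criterion in the residue field. -/
private theorem Cl_euler {K : Type} [Field K] [NumberField K] {p m : ℕ} (hp2 : p = 2 * m + 1)
    {v : HeightOneSpectrum (𝓞 K)} (hv : (p : 𝓞 K) ∈ v.asIdeal)
    (hN : Ideal.absNorm v.asIdeal = p) {y : 𝓞 K} (hy : y ∉ v.asIdeal) :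
    (∃ a : 𝓞 K, y - a ^ 2 ∈ v.asIdeal) ↔ y ^ m - 1 ∈ v.asIdeal := by
  have hmax : v.asIdeal.IsMaximal := v.isMaximal
  let _ : Field (𝓞 K ⧸ v.asIdeal) := Ideal.Quotient.field v.asIdeal
  have hfin : Finite (𝓞 K ⧸ v.asIdeal) := by
    apply Nat.finite_of_card_ne_zero
    have h1 : Nat.card (𝓞 K ⧸ v.asIdeal) = p := hN
    rw [h1]
    omega
  let _ : Fintype (𝓞 K ⧸ v.asIdeal) := Fintype.ofFinite _
  have hcard : Fintype.card (𝓞 K ⧸ v.asIdeal) = p := by
    rw [← Nat.card_eq_fintype_card]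
    exact hN
  have hy0 : Ideal.Quotient.mk v.asIdeal y ≠ 0 := fun h => hy (Ideal.Quotient.eq_zero_iff_mem.1 h)
  have hchar : ringChar (𝓞 K ⧸ v.asIdeal) ≠ 2 := by
    intro hc
    have h3 : (2 : 𝓞 K ⧸ v.asIdeal) = 0 := by
      have h4 : ((ringChar (𝓞 K ⧸ v.asIdeal) : ℕ) : 𝓞 K ⧸ v.asIdeal) = 0 :=
        ringChar.Nat.cast_ringChar
      rw [hc] at h4
      exact_mod_cast h4
    have h5 : ((p : ℕ) : 𝓞 K ⧸ v.asIdeal) = 0 := by
      have h6 := Ideal.Quotient.eq_zero_iff_mem.2 hv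
      rw [map_natCast] at h6
      exact h6
    rw [hp2] at h5
    push_cast at h5
    rw [h3, zero_mul, zero_add] at h5
    exact one_ne_zero h5
  have hE := FiniteField.isSquare_iff hchar hy0
  rw [hcard] at hE
  have hm : p / 2 = m := by omega
  rw [hm] at hE
  constructor
  · rintro ⟨a, ha⟩
    have h1 : IsSquare (Ideal.Quotient.mk v.asIdeal y) := by
      refine ⟨Ideal.Quotient.mk v.asIdeal a, ?_⟩
      rw [← map_mul, Ideal.Quotient.eq, ← sq]
      exact ha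
    have h2 := hE.1 h1
    rw [← map_pow, ← map_one (Ideal.Quotient.mk v.asIdeal), Ideal.Quotient.eq] at h2
    exact h2
  · intro h
    have h1 : (Ideal.Quotient.mk v.asIdeal y) ^ m = 1 := by
      rw [← map_pow, ← map_one (Ideal.Quotient.mk v.asIdeal), Ideal.Quotient.eq]
      exact h
    obtain ⟨b, hb⟩ := hE.2 h1
    obtain ⟨a, rfl⟩ := Ideal.Quotient.mk_surjective b
    refine ⟨a, ?_⟩
    rw [← map_mul, Ideal.Quotient.eq, ← sq] at hb
    exact hb

/-- `Sq` and squares in the ring of integers. -/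
private theorem Cl_sq {K : Type} [Field K] [NumberField K] {v : HeightOneSpectrum (𝓞 K)} {x : K}
    (hx : v.valuation K x = 1) {n d : 𝓞 K} (hd : d ∉ v.asIdeal)
    (hnd : x * algebraMap (𝓞 K) K d = algebraMap (𝓞 K) K n) :
    Sq (v.valuation K) x → ∃ b c : 𝓞 K, c ∉ v.asIdeal ∧ n * d * c ^ 2 - b ^ 2 ∈ v.asIdeal := by
  rintro ⟨t, ht⟩
  have hVd : v.valuation K (algebraMap (𝓞 K) K d) = 1 := v.valuation_eq_one_iff_notMem.mpr hd
  have ht1 : v.valuation K t ≤ 1 := by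
    by_contra hcon
    have h1 : 1 < v.valuation K t := not_le.1 hcon
    have h2 : 1 < v.valuation K (t ^ 2) := by
      rw [map_pow]
      exact one_lt_pow₀ h1 two_ne_zero
    have h3 : v.valuation K (x - t ^ 2) = v.valuation K (t ^ 2) :=
      Valuation.map_sub_eq_of_lt_right _ (by rw [hx]; exact h2)
    rw [h3] at ht
    exact absurd ht (not_lt.2 h2.le)
  obtain ⟨b, ⟨c, hc⟩, hbc⟩ := v.exists_primeCompl_mul_eq_of_integer t ht1
  refine ⟨b * d, c, hc, ?_⟩
  rw [← v.valuation_lt_one_iff_mem (K := K)]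
  have hVc : v.valuation K (algebraMap (𝓞 K) K c) = 1 := v.valuation_eq_one_iff_notMem.mpr hc
  have h1 : algebraMap (𝓞 K) K (n * d * c ^ 2 - (b * d) ^ 2) =
      (x - t ^ 2) * (algebraMap (𝓞 K) K d ^ 2 * algebraMap (𝓞 K) K c ^ 2) := by
    have h2 : t * algebraMap (𝓞 K) K c = algebraMap (𝓞 K) K b := hbc
    rw [map_sub, map_mul, map_mul, map_pow, map_pow, map_mul, ← hnd, ← h2]
    ring
  have h3 : v.valuation K (algebraMap (𝓞 K) K (n * d * c ^ 2 - (b * d) ^ 2)) < 1 := by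
    rw [h1, map_mul, map_mul, map_pow, map_pow, hVd, hVc, one_pow, mul_one, mul_one]
    exact ht
  exact h3

private theorem Cl_sq' {K : Type} [Field K] [NumberField K] {v : HeightOneSpectrum (𝓞 K)} {x : K}
    {n d a : 𝓞 K} (hd : d ∉ v.asIdeal)
    (hnd : x * algebraMap (𝓞 K) K d = algebraMap (𝓞 K) K n) (ha : n * d - a ^ 2 ∈ v.asIdeal) :
    Sq (v.valuation K) x := by
  have hVd : v.valuation K (algebraMap (𝓞 K) K d) = 1 := v.valuation_eq_one_iff_notMem.mpr hd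
  have hd0 : algebraMap (𝓞 K) K d ≠ 0 := by
    intro h
    rw [h, map_zero] at hVd
    exact zero_ne_one hVd
  refine ⟨algebraMap (𝓞 K) K a / algebraMap (𝓞 K) K d, ?_⟩
  have h1 : x - (algebraMap (𝓞 K) K a / algebraMap (𝓞 K) K d) ^ 2 =
      algebraMap (𝓞 K) K (n * d - a ^ 2) * (algebraMap (𝓞 K) K d ^ 2)⁻¹ := by
    rw [map_sub, map_mul, map_pow, ← hnd]
    field_simp
  rw [h1, map_mul, map_inv₀, map_pow, hVd, one_pow, inv_one, mul_one]
  have h2 := (v.valuation_lt_one_iff_mem (K := K) (n * d - a ^ 2)).2 ha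
  exact h2

theorem leg_of {K L : Type} [Field K] [NumberField K] [Field L] [NumberField L] [Algebra K L]
    {p : ℕ} (hp : p.Prime) (hp2 : p ≠ 2) {w : HeightOneSpectrum (𝓞 L)}
    {v : HeightOneSpectrum (𝓞 K)} (hwv : w.asIdeal.LiesOver v.asIdeal)
    (hv : (p : 𝓞 K) ∈ v.asIdeal) (hN : Ideal.absNorm v.asIdeal = p) {φ : L ≃ₐ[ℚ] L}
    (hφK : ∀ x : K, φ (algebraMap K L x) = algebraMap K L x)
    (hφ : ∀ x : 𝓞 L, φ • x - x ^ p ∈ w.asIdeal) {z : SC K} {e : ZMod 2} {r : L}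
    (hr : r ^ 2 = algebraMap K L (rep z)) (hφr : φ r = if e = 0 then r else - r)
    (hu : v.valuation K (rep z) = 1) : eo v z = 0 ∧ la v z = e := by
  obtain ⟨m, hm⟩ := hp.odd_of_ne_two hp2
  have hord : ord (v.valuation K) (rep z) = 0 := by
    unfold ord
    rw [hu, WithZero.log_one, neg_zero]
  have heo : eo v z = 0 := by
    unfold eo
    rw [hord, Int.cast_zero]
  have hla : la v z = if Sq (v.valuation K) (rep z) then 0 else 1 := by
    unfold la lam
    rw [hord, neg_zero, zpow_zero, mul_one]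
  refine ⟨heo, ?_⟩
  rw [hla]
  obtain ⟨n, ⟨d, hd⟩, hnd⟩ := v.exists_primeCompl_mul_eq_of_integer (rep z) hu.le
  have hd' : d ∉ v.asIdeal := hd
  have hnd' : rep z * algebraMap (𝓞 K) K d = algebraMap (𝓞 K) K n := hnd
  have hVd : v.valuation K (algebraMap (𝓞 K) K d) = 1 := v.valuation_eq_one_iff_notMem.mpr hd'
  have hyK : algebraMap (𝓞 K) K (n * d) = rep z * algebraMap (𝓞 K) K d ^ 2 := by
    rw [map_mul, ← hnd']
    ring
  have hy : n * d ∉ v.asIdeal := by
    have h1 : v.valuation K (algebraMap (𝓞 K) K (n * d)) = 1 := by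
      rw [hyK, map_mul, map_pow, hu, hVd, one_pow, mul_one]
    exact v.valuation_eq_one_iff_notMem.mp h1
  -- the square root in `L`
  have htow : ∀ a : 𝓞 K, algebraMap (𝓞 L) L (algebraMap (𝓞 K) (𝓞 L) a) =
      algebraMap K L (algebraMap (𝓞 K) K a) := fun a => rfl
  have hs2 : (r * algebraMap K L (algebraMap (𝓞 K) K d)) ^ 2 =
      algebraMap (𝓞 L) L (algebraMap (𝓞 K) (𝓞 L) (n * d)) := by
    rw [htow, hyK, map_mul, map_pow, mul_pow, hr]
  have hint : IsIntegral ℤ (r * algebraMap K L (algebraMap (𝓞 K) K d)) := by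
    apply IsIntegral.of_pow two_pos
    rw [hs2]
    exact RingOfIntegers.isIntegral_coe _
  obtain ⟨S, hS⟩ : ∃ S : 𝓞 L, algebraMap (𝓞 L) L S =
      r * algebraMap K L (algebraMap (𝓞 K) K d) := ⟨⟨_, hint⟩, rfl⟩
  have hinj : Function.Injective (algebraMap (𝓞 L) L) := RingOfIntegers.coe_injective
  have hS2 : S ^ 2 = algebraMap (𝓞 K) (𝓞 L) (n * d) := by
    apply hinj
    rw [map_pow, hS, hs2]
  have hφS : φ • S = (if e = 0 then (1 : 𝓞 L) else -1) * S := by
    apply hinj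
    have h1 : algebraMap (𝓞 L) L (φ • S) = φ (algebraMap (𝓞 L) L S) := rfl
    rw [h1, map_mul, hS, map_mul, hφr, hφK]
    split_ifs
    · rw [map_one, one_mul]
    · rw [map_neg, map_one]
      ring
  have hSp : S ^ p = S * algebraMap (𝓞 K) (𝓞 L) ((n * d) ^ m) := by
    rw [hm, pow_succ, pow_mul, hS2, map_pow, mul_comm]
  have hlo := hwv
  have hmem : ∀ a : 𝓞 K, a ∈ v.asIdeal ↔ algebraMap (𝓞 K) (𝓞 L) a ∈ w.asIdeal := fun a =>
    Ideal.mem_of_liesOver w.asIdeal v.asIdeal a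
  have hprime : w.asIdeal.IsPrime := w.isPrime
  have hSw : S ∉ w.asIdeal := by
    intro h
    apply hy
    rw [hmem, ← hS2]
    exact Ideal.pow_mem_of_mem _ h 2 two_pos
  have hkey : (if e = 0 then (1 : 𝓞 K) else -1) - (n * d) ^ m ∈ v.asIdeal := by
    rw [hmem]
    have h1 := hφ S
    have h2 : φ • S - S ^ p = S * algebraMap (𝓞 K) (𝓞 L)
        ((if e = 0 then (1 : 𝓞 K) else -1) - (n * d) ^ m) := by
      rw [hφS, hSp, map_sub]
      split_ifs
      · rw [map_one]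
        ring
      · rw [map_neg, map_one]
        ring
    rw [h2] at h1
    exact (hprime.mem_or_mem h1).resolve_left hSw
  have hE := Cl_euler hm hv hN hy
  by_cases he : e = 0
  · rw [if_pos he] at hkey
    have h1 : (n * d) ^ m - 1 ∈ v.asIdeal := by
      have h2 := v.asIdeal.neg_mem hkey
      rwa [neg_sub] at h2
    obtain ⟨a, ha⟩ := hE.2 h1
    rw [if_pos (Cl_sq' hd' hnd' ha), he]
  · rw [if_neg he] at hkey
    have he1 : e = 1 := by
      have hdec : ∀ x : ZMod 2, x ≠ 0 → x = 1 := by decide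
      exact hdec e he
    rw [he1]
    refine if_neg fun hsq => ?_
    obtain ⟨b, c, hc, hbc⟩ := Cl_sq hu hd' hnd' hsq
    have hvp : v.asIdeal.IsPrime := v.isPrime
    -- `c` is invertible modulo `v`
    have hmax : v.asIdeal.IsMaximal := v.isMaximal
    obtain ⟨c', hc'⟩ : ∃ c' : 𝓞 K, c * c' - 1 ∈ v.asIdeal := by
      let _ : Field (𝓞 K ⧸ v.asIdeal) := Ideal.Quotient.field v.asIdeal
      have hc0 : Ideal.Quotient.mk v.asIdeal c ≠ 0 := fun h =>
        hc (Ideal.Quotient.eq_zero_iff_mem.1 h)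
      obtain ⟨c', hc'⟩ := Ideal.Quotient.mk_surjective ((Ideal.Quotient.mk v.asIdeal c)⁻¹)
      refine ⟨c', ?_⟩
      rw [← Ideal.Quotient.eq, map_mul, map_one, hc']
      exact mul_inv_cancel₀ hc0
    have h1 : n * d - (b * c') ^ 2 ∈ v.asIdeal := by
      have h2 : n * d - (b * c') ^ 2 = (n * d * c ^ 2 - b ^ 2) * c' ^ 2 -
          (c * c' - 1) * (n * d * (c * c' + 1)) := by ring
      rw [h2]
      exact v.asIdeal.sub_mem (v.asIdeal.mul_mem_right _ hbc) (v.asIdeal.mul_mem_right _ hc')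
    have h3 := hE.1 ⟨_, h1⟩
    have h4 : (-2 : 𝓞 K) ∈ v.asIdeal := by
      have h5 := v.asIdeal.add_mem hkey h3
      have h6 : -1 - (n * d) ^ m + ((n * d) ^ m - 1) = (-2 : 𝓞 K) := by ring
      rwa [h6] at h5
    have h7 : (1 : 𝓞 K) ∈ v.asIdeal := by
      have h8 := v.asIdeal.add_mem hv (v.asIdeal.mul_mem_left (m : 𝓞 K) h4)
      have h9 : (p : 𝓞 K) + (m : 𝓞 K) * (-2) = 1 := by
        rw [hm]
        push_cast
        ring
      rwa [h9] at h8
    exact hvp.ne_top ((Ideal.eq_top_iff_one _).2 h7)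

end H93T1
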