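import Mathlib

/-!
ROW Cp (project MP_78d38b_T1, block C): primes in arithmetic progressions (about 90 lines).

PROOF. `dir_true` is Dirichlet's theorem (`Nat.infinite_setOf_prime_and_eq_mod`, or
`Nat.forall_exists_prime_gt_and_eq_mod` in Mathlib: primes `l` with `(l : ZMod q) = a`, `a` a unit;
`ZMod.natCast_eq_natCast_iff` for the congruence).
`dir_split`: `n = 8 * M`.
Case `p ∤ M` (so `p` is prime to `8 M`, `p` odd): choose `c'` with `c' = c` modulo `8 M` and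
`c' = 1 + p` modulo `p^2` (`Nat.chineseRemainder`); `c'` is prime to `8 M p^2`. By `dir_true`-type
Dirichlet there are infinitely many primes `l = c'` modulo `8 M p^2`; modulo `p^2`,
`l^(p-1) = (1+p)^(p-1) = 1 + (p-1) p = 1 - p ≠ 1` (binomial theorem: `(1+p)^k = 1 + k p` modulo `p^2`
by induction on `k`).
Case `p ∣ M`: `p^2 ∤ M` (squarefree). Let `M = p M₁`, `p ∤ M₁`. If `c^(p-1) ≠ 1` modulo `p^2` put
`c₂ = c`, otherwise `c₂ = c (1 + p)`; then `c₂ = c` modulo `p` and `c₂^(p-1) ≠ 1` modulo `p^2` (in the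
second case `c₂^(p-1) = (1+p)^(p-1) = 1 - p`). Choose `c'` with `c' = c` modulo `8 M₁` and `c' = c₂`
modulo `p^2`; then `c' = c` modulo `8 M` (`8 M₁` and `p` are coprime), `c'` is prime to `8 M₁ p^2`.
Infinitely many primes `l = c'` modulo `8 M₁ p^2`. Then `l = c` modulo `8 M` and
`l^(p-1) = c₂^(p-1) ≠ 1` modulo `p^2`.
`¬ p ^ 2 ∣ l ^ (p - 1) - 1` (natural subtraction, `l ≥ 1`): `p^2 ∣ l^(p-1) - 1` iff
`l^(p-1) ≡ 1 [MOD p^2]` (`Nat.modEq_iff_dvd'`).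
-/

set_option autoImplicit false
open scoped Classical

namespace H93T1

theorem dir_true {m : ℕ} (hm : m ≠ 0) {c : ℕ} (hc : c.Coprime m) :
    {l : ℕ | l.Prime ∧ l ≡ c [MOD m]}.Infinite :=
  Nat.infinite_setOfPred_prime_and_modEq hm hc

private lemma Cp_one {p : ℕ} (hp : p.Prime) : ¬ ((1 + p) ^ (p - 1) ≡ 1 [MOD p ^ 2]) := by
  intro h
  rw [← ZMod.natCast_eq_natCast_iff] at h
  push_cast at h
  have h0 : (p : ZMod (p ^ 2)) ^ 2 = 0 := by
    have := ZMod.natCast_self (p ^ 2)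
    push_cast at this
    exact this
  have h1 : ∀ k : ℕ, (1 + (p : ZMod (p ^ 2))) ^ k = 1 + k * p := by
    intro k
    induction k with
    | zero => simp
    | succ k ih =>
      rw [pow_succ (1 + (p : ZMod (p ^ 2))) k, ih]
      push_cast
      linear_combination (k : ZMod (p ^ 2)) * h0
  rw [h1] at h
  have h2 : ((p - 1 : ℕ) : ZMod (p ^ 2)) = (p : ZMod (p ^ 2)) - 1 := by
    rw [Nat.cast_sub hp.one_le, Nat.cast_one]
  rw [h2] at h
  have h3 : (p : ZMod (p ^ 2)) = 0 := by linear_combination h0 - h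
  rw [ZMod.natCast_eq_zero_iff] at h3
  have h4 := Nat.le_of_dvd hp.pos h3
  have h5 := hp.two_le
  nlinarith

private lemma Cp_ex {p : ℕ} (hp : p.Prime) (c : ℕ) :
    ∃ c₂ : ℕ, c₂ ≡ c [MOD p] ∧ ¬ (c₂ ^ (p - 1) ≡ 1 [MOD p ^ 2]) := by
  by_cases h : c ^ (p - 1) ≡ 1 [MOD p ^ 2]
  · refine ⟨c * (1 + p), ?_, ?_⟩
    · have h1 : (1 + p) ≡ 1 [MOD p] := by simp [Nat.ModEq]
      simpa using h1.mul_left c
    · intro h2
      rw [mul_pow] at h2
      have h3 := (h.mul_right ((1 + p) ^ (p - 1))).symm.trans h2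
      rw [one_mul] at h3
      exact Cp_one hp h3
  · exact ⟨c, Nat.ModEq.refl c, h⟩

private lemma Cp_main {p A : ℕ} (hp : p.Prime) (hA : A ≠ 0) (hAp : A.Coprime p) {c c₀ : ℕ}
    (hc : c.Coprime A) (hc₀ : c₀.Coprime p) :
    {l : ℕ | l.Prime ∧ l ≡ c [MOD A] ∧ l ≡ c₀ [MOD p] ∧ ¬ p ^ 2 ∣ l ^ (p - 1) - 1}.Infinite := by
  obtain ⟨c₂, h1, h2⟩ := Cp_ex hp c₀
  have hAp2 : A.Coprime (p ^ 2) := hAp.pow_right 2
  obtain ⟨c', h3, h4⟩ := Nat.chineseRemainder hAp2 c c₂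
  have hp2 : p ^ 2 ≠ 0 := pow_ne_zero 2 hp.ne_zero
  have h5 : c'.Coprime (A * p ^ 2) := by
    refine Nat.Coprime.mul_right ?_ ?_
    · rw [Nat.coprime_iff_gcd_eq_one, h3.gcd_eq]
      exact hc
    · refine Nat.Coprime.pow_right 2 ?_
      have h6 : c' ≡ c₀ [MOD p] := (h4.of_dvd (Dvd.intro p (sq p).symm)).trans h1
      rw [Nat.coprime_iff_gcd_eq_one, h6.gcd_eq]
      exact hc₀
  refine (dir_true (mul_ne_zero hA hp2) h5).mono ?_
  rintro l ⟨hl, hlc⟩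
  have h6 : l ≡ c' [MOD A] := hlc.of_dvd (Dvd.intro _ rfl)
  have h7 : l ≡ c' [MOD p ^ 2] := hlc.of_dvd (Dvd.intro_left _ rfl)
  refine ⟨hl, h6.trans h3, ?_, ?_⟩
  · exact ((h7.trans h4).of_dvd (Dvd.intro p (sq p).symm)).trans h1
  · intro h8
    apply h2
    have h9 : 1 ≤ l ^ (p - 1) := Nat.one_le_pow _ _ hl.pos
    have h10 : l ^ (p - 1) ≡ 1 [MOD p ^ 2] := ((Nat.modEq_iff_dvd' h9).2 h8).symm
    exact ((h7.trans h4).pow (p - 1)).symm.trans h10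

theorem dir_split {p : ℕ} (hp : p.Prime) (hp2 : p ≠ 2) {M : ℕ} (hM : Squarefree M) (hMo : Odd M)
    {c : ℕ} (hc : c.Coprime (8 * M)) :
    {l : ℕ | l.Prime ∧ l ≡ c [MOD 8 * M] ∧ ¬ p ^ 2 ∣ l ^ (p - 1) - 1}.Infinite := by
  have h8 : Nat.Coprime 8 p := by
    have : Nat.Coprime 2 p := Nat.coprime_two_left.2 (hp.odd_of_ne_two hp2)
    exact Nat.Coprime.pow_left 3 this
  have hM0 : M ≠ 0 := hM.ne_zero
  by_cases hpM : p ∣ M
  · obtain ⟨M₁, rfl⟩ := hpM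
    have hM₁ : M₁.Coprime p := by
      rw [Nat.coprime_comm, hp.coprime_iff_not_dvd]
      intro h
      have h1 := hM p (mul_dvd_mul_left p h)
      exact hp.one_lt.ne' (Nat.isUnit_iff.1 h1)
    have hM₁0 : M₁ ≠ 0 := by
      rintro rfl
      exact hM0 (mul_zero p)
    have hA : (8 * M₁).Coprime p := Nat.Coprime.mul_left h8 hM₁
    have e : 8 * (p * M₁) = 8 * M₁ * p := by ring
    rw [e] at hc
    refine (Cp_main hp (A := 8 * M₁) (by omega) hA (c := c) (c₀ := c)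
      (Nat.Coprime.coprime_mul_right_right hc) (Nat.Coprime.coprime_mul_left_right hc)).mono ?_
    rintro l ⟨h1, h2, h3, h4⟩
    refine ⟨h1, ?_, h4⟩
    rw [e]
    exact (Nat.modEq_and_modEq_iff_modEq_mul hA).1 ⟨h2, h3⟩
  · have hA : (8 * M).Coprime p := Nat.Coprime.mul_left h8
      (by rw [Nat.coprime_comm, hp.coprime_iff_not_dvd]; exact hpM)
    refine (Cp_main hp (A := 8 * M) (by omega) hA (c := c) (c₀ := 1) hc
      (Nat.coprime_one_left p)).mono ?_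
    rintro l ⟨h1, h2, h3, h4⟩
    exact ⟨h1, h2, h4⟩

end H93T1
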