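import Pool.Agent.H38.T1.Tw
import Pool.Agent.H42.PC.BCnt

/-!
ROW Cs (project MP_78d38b_T1, block C): split and non-split primes (about 130 lines).

PROOF of `spl_of`. Let `v` be a place of `K` containing `p`. By `h`, every element `y` of the finite
field `F = 𝓞 K ⧸ v.asIdeal` has `y ^ p = y`, so `Nat.card F ≤ p` (`BDeg_card_le` in
`H42/PC/BDeg.lean`: import it if you like, or count the roots of `X^p - X`); `F` has characteristic
`p` (`(p : F) = 0`), so `Nat.card F ≥ p` (`ZMod p → F` is injective, or the cardinality is a power of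
`p`): `Nat.card F = p = Ideal.absNorm v.asIdeal` (`Ideal.absNorm_apply`, `Submodule.cardQuot_apply`),
and every element of `F` is the class of an integer (`ZMod p → F` injective between sets of the same
cardinality is surjective).
Let `g • v = v` (action of `H38/T1/Df.lean`: `x ∈ (g • v).asIdeal ↔ gO g⁻¹ x ∈ v.asIdeal`, `mem_mv`,
`smul_def`). For `x : 𝓞 K` take an integer `m` with `x - m ∈ v`. As `g • v = v`,
`g (x - m) = g x - m ∈ v` too. So `g x - x ∈ v` for all `x : 𝓞 K`. The place `v` lies over a place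
`v₀` of `𝓞 ℚ` (`BCnt_below ℚ v`, file `H42/PC/BCnt.lean`) and `(p : 𝓞 ℚ) ∈ v₀` (contraction), so
`Un ℚ K v₀` by `hun` and `g = 1` (definition of `Un`, file `H42/PC/BDefs.lean`; `g • x` there is the
action of the Galois group on `𝓞 K`, equal to `gO g x` by `RingOfIntegers.ext`/`rfl`).

PROOF of `not_spl`. Let `v = w ∩ 𝓞 K'` (`BCnt_below K' w`). `(p : 𝓞 K') ∈ v`. For `x : 𝓞 K'`:
`algebraMap (𝓞 K') (𝓞 L) (gO ψ x) = φ • algebraMap (𝓞 K') (𝓞 L) x` (by `hψ`), so
`gO ψ x - x ^ p ∈ v`. Hence `x ∈ v` implies `gO ψ x ∈ v`, that is `v ≤ ψ⁻¹ • v`; both are maximal,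
so `ψ⁻¹ • v = v` and `Spl K' p` gives `ψ⁻¹ = 1`, a contradiction.
-/

set_option autoImplicit false
open scoped Classical

open NumberField IsDedekindDomain H38T1 Pool.Agent.H42.PC

namespace H93T1

theorem Cs_card_le {F : Type*} [Field F] [Finite F] {p : ℕ} (hp : 1 < p)
    (h : ∀ y : F, y ^ p - y = 0) : Nat.card F ≤ p := by
  classical
  have := Fintype.ofFinite F
  rw [Nat.card_eq_fintype_card]
  set q : Polynomial F := Polynomial.X ^ p - Polynomial.X with hq
  have hd : q.natDegree = p := FiniteField.X_pow_card_sub_X_natDegree_eq F hp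
  have hq0 : q ≠ 0 := by
    intro h0
    rw [h0, Polynomial.natDegree_zero] at hd
    omega
  calc Fintype.card F = (Finset.univ : Finset F).card := rfl
    _ ≤ q.roots.toFinset.card := Finset.card_le_card fun y _ => by
        rw [Multiset.mem_toFinset, Polynomial.mem_roots hq0, Polynomial.IsRoot.def, hq,
          Polynomial.eval_sub, Polynomial.eval_pow, Polynomial.eval_X]
        exact h y
    _ ≤ q.roots.card := Multiset.toFinset_card_le _
    _ ≤ q.natDegree := Polynomial.card_roots' q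
    _ = p := hd

/-- a field of characteristic `p` in which `y ^ p = y` is the prime field -/
theorem Cs_prime_field {F : Type*} [Field F] [Finite F] {p : ℕ} (hp : p.Prime)
    (hp0 : (p : F) = 0) (h : ∀ y : F, y ^ p - y = 0) :
    Nat.card F = p ∧ ∀ y : F, ∃ m : ℕ, (m : F) = y := by
  have : Fact p.Prime := ⟨hp⟩
  have hc : CharP F p := (CharP.charP_iff_prime_eq_zero hp).2 hp0
  have hle := Cs_card_le hp.one_lt h
  have hinj : Function.Injective (ZMod.castHom (dvd_refl p) F) := (ZMod.castHom _ F).injective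
  have hge : p ≤ Nat.card F := by
    have h1 := Nat.card_le_card_of_injective _ hinj
    rwa [Nat.card_zmod] at h1
  have hcard : Nat.card F = p := le_antisymm hle hge
  have hbij := hinj.bijective_of_nat_card_le (by rw [Nat.card_zmod]; exact hle)
  refine ⟨hcard, fun y => ?_⟩
  obtain ⟨z, hz⟩ := hbij.2 y
  refine ⟨z.val, ?_⟩
  rw [← hz, ZMod.castHom_apply, ZMod.cast_eq_val]

theorem spl_of {K : Type} [Field K] [NumberField K] {p : ℕ} (hp : p.Prime) (hp2 : p ≠ 2)
    (hun : ∀ v : HeightOneSpectrum (𝓞 ℚ), (p : 𝓞 ℚ) ∈ v.asIdeal → Un ℚ K v)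
    (h : ∀ v : HeightOneSpectrum (𝓞 K), (p : 𝓞 K) ∈ v.asIdeal →
      ∀ x : 𝓞 K, x ^ p - x ∈ v.asIdeal) : Spl K p := by
  refine ⟨hp, hp2, fun v hv => ?_⟩
  have hmax : v.asIdeal.IsMaximal := v.isMaximal
  let _ := Ideal.Quotient.field v.asIdeal
  have : Finite (𝓞 K ⧸ v.asIdeal) := Ideal.finiteQuotientOfFreeOfNeBot _ v.ne_bot
  have hp0 : ((p : ℕ) : 𝓞 K ⧸ v.asIdeal) = 0 := by
    have h1 := (Ideal.Quotient.eq_zero_iff_mem (I := v.asIdeal)).2 hv
    rwa [map_natCast] at h1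
  obtain ⟨hcard, hint⟩ := Cs_prime_field (F := 𝓞 K ⧸ v.asIdeal) hp hp0 (by
    intro y
    obtain ⟨y, rfl⟩ := Ideal.Quotient.mk_surjective y
    rw [← map_pow, ← map_sub, Ideal.Quotient.eq_zero_iff_mem]
    exact h v hv y)
  refine ⟨by rw [Ideal.absNorm_apply, Submodule.cardQuot_apply]; exact hcard, fun g hg => ?_⟩
  have key : ∀ x : 𝓞 K, gO g x - x ∈ v.asIdeal := by
    intro x
    obtain ⟨m, hm⟩ := hint (Ideal.Quotient.mk v.asIdeal x)
    have h1 : x - (m : 𝓞 K) ∈ v.asIdeal := by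
      rw [← Ideal.Quotient.eq_zero_iff_mem, map_sub, map_natCast, hm, sub_self]
    have h2 : gO g (x - (m : 𝓞 K)) ∈ (g • v).asIdeal := by
      rw [smul_def, mem_mv]
      have h3 : gO g⁻¹ (gO g (x - (m : 𝓞 K))) = x - (m : 𝓞 K) := by
        apply RingOfIntegers.ext
        rw [gO_coe, gO_coe]
        exact g.symm_apply_apply _
      rw [h3]
      exact h1
    rw [hg, map_sub, map_natCast] at h2
    have h4 := v.asIdeal.sub_mem h2 h1
    have h5 : gO g x - (m : 𝓞 K) - (x - (m : 𝓞 K)) = gO g x - x := by ring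
    rwa [h5] at h4
  obtain ⟨v₀, hv₀⟩ := BCnt_below ℚ v
  have hpv : (p : 𝓞 ℚ) ∈ v₀.asIdeal := by
    rw [hv₀.over, Ideal.under, Ideal.mem_comap, map_natCast]
    exact hv
  refine hun v₀ hpv v hv₀ g fun x => ?_
  have h6 : g • x = gO g x := RingOfIntegers.ext rfl
  rw [h6]
  exact key x

theorem not_spl {K' L : Type} [Field K'] [NumberField K'] [Field L] [NumberField L] [Algebra K' L]
    {p : ℕ} (hp : p.Prime) {w : HeightOneSpectrum (𝓞 L)} (hw : (p : 𝓞 L) ∈ w.asIdeal)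
    {φ : L ≃ₐ[ℚ] L} (hφ : ∀ x : 𝓞 L, φ • x - x ^ p ∈ w.asIdeal) {ψ : K' ≃ₐ[ℚ] K'}
    (hψ : ∀ x : K', φ (algebraMap K' L x) = algebraMap K' L (ψ x)) (hψ1 : ψ ≠ 1) :
    ¬ Spl K' p := by
  rintro ⟨-, -, hS⟩
  obtain ⟨v, hv⟩ := BCnt_below K' w
  have hmem : ∀ x : 𝓞 K', x ∈ v.asIdeal ↔ algebraMap (𝓞 K') (𝓞 L) x ∈ w.asIdeal := by
    intro x
    rw [hv.over, Ideal.under, Ideal.mem_comap]
  have hpv : (p : 𝓞 K') ∈ v.asIdeal := by
    rw [hmem, map_natCast]
    exact hw
  obtain ⟨-, h1⟩ := hS v hpv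
  have hvp := v.isPrime
  have hle : v.asIdeal ≤ (ψ⁻¹ • v).asIdeal := by
    intro x hx
    rw [smul_def, mem_mv, inv_inv]
    have h2 : gO ψ x - x ^ p ∈ v.asIdeal := by
      rw [hmem, map_sub, map_pow]
      have h3 : algebraMap (𝓞 K') (𝓞 L) (gO ψ x) = φ • algebraMap (𝓞 K') (𝓞 L) x := by
        apply RingOfIntegers.ext
        exact (hψ (x : K')).symm
      rw [h3]
      exact hφ _
    have h4 : x ^ p ∈ v.asIdeal := Ideal.pow_mem_of_mem _ hx p hp.pos
    have h5 := v.asIdeal.add_mem h2 h4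
    rwa [sub_add_cancel] at h5
  have heq : ψ⁻¹ • v = v := by
    apply HeightOneSpectrum.ext
    exact (v.isMaximal.eq_of_le (ψ⁻¹ • v).isPrime.ne_top hle).symm
  exact hψ1 (inv_eq_one.1 (h1 _ heq))

end H93T1
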