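import Pool.Agent.H93.T1.Cf
import Pool.Agent.H93.T1.Cs
import Pool.Agent.H93.T1.Cd
import Pool.Agent.H93.T1.Ck
import Pool.Agent.H93.T1.Cl
import Pool.Agent.H93.T1.Cp
import Pool.Agent.H10.RatLoc

/-!
Block C of T1 (MP_78d38b): the density theorems, assembly (helper93).
-/

set_option autoImplicit false
set_option linter.style.haveILetI false
open scoped Classical

open NumberField IsDedekindDomain H38T1 H38RT Pool.Agent.H42.PC
open scoped Pointwise

namespace H93T1

/-- Only finitely many rational primes lie below a finite set of places. -/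
private lemma Ca_fin {K : Type} [Field K] [NumberField K] {S : Set (HeightOneSpectrum (𝓞 K))}
    (hS : S.Finite) : {p : ℕ | p.Prime ∧ ∃ v ∈ S, (p : 𝓞 K) ∈ v.asIdeal}.Finite := by
  refine (hS.image rp).subset ?_
  rintro p ⟨hp, v, hv, hpv⟩
  exact ⟨v, hv, (mem_iff_eq hp).1 hpv⟩

private lemma Ca_mem_rat {K L : Type} [Field K] [NumberField K] [Field L] [NumberField L]
    [Algebra K L] {w : HeightOneSpectrum (𝓞 L)} {v : HeightOneSpectrum (𝓞 K)}
    (h : w.asIdeal.LiesOver v.asIdeal) (p : ℕ) :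
    (p : 𝓞 L) ∈ w.asIdeal ↔ (p : 𝓞 K) ∈ v.asIdeal := by
  rw [h.over, Ideal.mem_comap, map_natCast]

/-- A stable place is fixed. -/
private lemma Ca_fix {K : Type} [Field K] [NumberField K] {g : K ≃ₐ[ℚ] K}
    {v : HeightOneSpectrum (𝓞 K)} (h : ∀ x ∈ v.asIdeal, gO g x ∈ v.asIdeal) : g • v = v := by
  have h1 : v.asIdeal ≤ (g⁻¹ • v).asIdeal := by
    intro x hx
    rw [smul_def, mem_mv, inv_inv]
    exact h x hx
  have h2 : v = g⁻¹ • v := HeightOneSpectrum.ext
    (v.isMaximal.eq_of_le (g⁻¹ • v).isPrime.ne_top h1)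
  calc g • v = g • (g⁻¹ • v) := by rw [← h2]
    _ = v := smul_inv_smul g v

/-- The density theorem: `p` splits completely in `K`, the automorphism `t` of `K'` is in the
decomposition group of a place above `p`, and the Legendre classes at a place of `K` above `p` are
prescribed. -/
theorem cheb_gen {K K' : Type} [Field K] [NumberField K] [IsGalois ℚ K] [Field K'] [NumberField K']
    [Algebra K K'] (hodd : Odd (Module.finrank K K')) (τ : K' ≃ₐ[K] K') (Z : Finset (SC K))
    (Φ : SC K →+ ZMod 2) :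
    {p : ℕ | Spl K p ∧ (∃ w : HeightOneSpectrum (𝓞 K'), (p : 𝓞 K') ∈ w.asIdeal ∧
        ((τ ^ 2).restrictScalars ℚ) • w = w) ∧
      ∃ v : HeightOneSpectrum (𝓞 K), (p : 𝓞 K) ∈ v.asIdeal ∧
        ∀ z ∈ Z, eo v z = 0 ∧ la v z = Φ z}.Infinite := by
  -- the field
  obtain ⟨L, _, _, _, hGal, hL⟩ := exists_field (K' := K')
    (Z.image (fun z => algebraMap K K' (rep z)))
  letI : Algebra K L := ((algebraMap K' L).comp (algebraMap K K')).toAlgebra
  haveI : IsScalarTower K K' L := IsScalarTower.of_algebraMap_eq' rfl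
  haveI : IsGalois ℚ L := hGal
  haveI : IsGalois K' L := IsGalois.tower_top_of_isGalois ℚ K' L
  haveI : IsGalois K L := IsGalois.tower_top_of_isGalois ℚ K L
  have hr' : ∀ z : SC K, ∃ r : L, z ∈ Z → r ^ 2 = algebraMap K L (rep z) := by
    intro z
    by_cases hz : z ∈ Z
    · obtain ⟨r, hr⟩ := hL (algebraMap K K' (rep z)) (Finset.mem_image_of_mem _ hz)
      exact ⟨r, fun _ => by rw [hr, IsScalarTower.algebraMap_apply K K' L]⟩
    · exact ⟨0, fun h => absurd h hz⟩
  choose r hr using hr'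
  obtain ⟨σ₁, hσ₁⟩ := kummer (K := K) (K' := K') (L := L) hodd Z Φ r hr
  let τ' : L ≃ₐ[K] L := τ.liftNormal L
  have hτ' : ∀ x : K', τ' (algebraMap K' L x) = algebraMap K' L (τ x) :=
    fun x => AlgEquiv.liftNormal_commutes τ L x
  let σ : L ≃ₐ[ℚ] L := (σ₁.restrictScalars ℚ) * ((τ' ^ 2).restrictScalars ℚ)
  have hσ : ∀ x : L, σ x = σ₁ (τ' (τ' x)) := by
    intro x
    change σ₁ ((τ' ^ 2) x) = _
    rw [sq]
    rfl
  have hσK' : ∀ x : K', σ (algebraMap K' L x) = algebraMap K' L ((τ ^ 2) x) := by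
    intro x
    rw [hσ, hτ', hτ', σ₁.commutes, sq]
    rfl
  have hσK : ∀ x : K, σ (algebraMap K L x) = algebraMap K L x := by
    intro x
    rw [IsScalarTower.algebraMap_apply K K' L, hσK', AlgEquiv.commutes]
  have hr0 : ∀ z ∈ Z, r z ≠ 0 := by
    intro z hz h0
    have h1 := hr z hz
    rw [h0, zero_pow two_ne_zero] at h1
    exact rep_ne z ((map_eq_zero (algebraMap K L)).1 h1.symm)
  have hσr : ∀ z ∈ Z, σ (r z) = if Φ z = 0 then r z else - r z := by
    intro z hz
    rw [hσ]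
    have h1 : τ' (r z) = r z ∨ τ' (r z) = - r z := by
      apply sq_eq_sq_iff_eq_or_eq_neg.1
      rw [← map_pow, hr z hz, τ'.commutes]
    have h2 : τ' (τ' (r z)) = r z := by
      rcases h1 with h | h
      · rw [h, h]
      · rw [h, map_neg, h, neg_neg]
    rw [h2]
    exact hσ₁ z hz
  -- powers of `σ`
  have hjK' : ∀ (j : ℕ) (x : K'), (σ ^ j) (algebraMap K' L x) = algebraMap K' L (((τ ^ 2) ^ j) x) := by
    intro j
    induction j with
    | zero => intro x; rfl
    | succ j ih =>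
      intro x
      rw [pow_succ, pow_succ]
      change (σ ^ j) (σ (algebraMap K' L x)) = algebraMap K' L (((τ ^ 2) ^ j) ((τ ^ 2) x))
      rw [hσK', ih]
  have hjK : ∀ (j : ℕ) (x : K), (σ ^ j) (algebraMap K L x) = algebraMap K L x := by
    intro j x
    rw [IsScalarTower.algebraMap_apply K K' L, hjK', AlgEquiv.commutes]
  have hjr : ∀ (j : ℕ), ∀ z ∈ Z, (σ ^ j) (r z) = if (j : ZMod 2) * Φ z = 0 then r z else - r z := by
    intro j z hz
    induction j with
    | zero => rw [Nat.cast_zero, zero_mul, if_pos rfl]; rfl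
    | succ j ih =>
      rw [pow_succ']
      change σ ((σ ^ j) (r z)) = _
      rw [ih]
      have hb : ∀ x : ZMod 2, x = 0 ∨ x = 1 := by decide
      have e : ((j + 1 : ℕ) : ZMod 2) = (j : ZMod 2) + 1 := by push_cast; ring
      have h10 : (1 : ZMod 2) ≠ 0 := by decide
      have h11 : (1 : ZMod 2) + 1 = 0 := by decide
      have h12 := hσr z hz
      rcases hb (Φ z) with h1 | h1
      · simp only [h1, mul_zero, if_true] at h12 ⊢
        exact h12
      · rcases hb (j : ZMod 2) with h2 | h2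
        · simp only [e, h1, h2, if_true, zero_add, mul_one, h10, if_false] at h12 ⊢
          exact h12
        · simp only [e, h1, h2, mul_one, h10, if_false, h11, if_true, map_neg] at h12 ⊢
          rw [h12, neg_neg]
  -- the coprime exponent
  have hodd_j : ∀ j : ℕ, j.Coprime (orderOf σ) → ∀ z ∈ Z, (j : ZMod 2) * Φ z = Φ z := by
    intro j hj z hz
    have hb : ∀ x : ZMod 2, x = 0 ∨ x = 1 := by decide
    rcases hb (Φ z) with h1 | h1
    · rw [h1, mul_zero]
    · have h2 : Even (orderOf σ) := by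
        by_contra hne
        have h3 := hjr (orderOf σ) z hz
        rw [pow_orderOf_eq_one, h1, mul_one] at h3
        have h4 : ((orderOf σ : ℕ) : ZMod 2) = 1 := by
          rw [ZMod.natCast_eq_one_iff_odd]
          exact Nat.not_even_iff_odd.1 hne
        rw [h4, if_neg one_ne_zero] at h3
        have h5 : r z = - r z := h3
        exact hr0 z hz (by
          have h6 : (2 : L) * r z = 0 := by linear_combination h5
          rcases mul_eq_zero.1 h6 with h7 | h7
          · exact absurd h7 two_ne_zero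
          · exact h7)
      have h3 : Odd j := by
        rw [← Nat.not_even_iff_odd]
        intro h4
        have h5 := Nat.dvd_gcd h4.two_dvd h2.two_dvd
        rw [hj] at h5
        omega
      have h4 : ((j : ℕ) : ZMod 2) = 1 := by
        rw [ZMod.natCast_eq_one_iff_odd]
        exact h3
      rw [h4, one_mul]
  -- the bad primes
  have hbad : {p : ℕ | p.Prime ∧ (p = 2 ∨ (∃ v ∈ {v : HeightOneSpectrum (𝓞 ℚ) | ¬ Un ℚ K v},
      (p : 𝓞 ℚ) ∈ v.asIdeal) ∨ (∃ v ∈ ⋃ z ∈ Z, {v : HeightOneSpectrum (𝓞 K) |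
        v.valuation K (rep z) ≠ 1}, (p : 𝓞 K) ∈ v.asIdeal))}.Finite := by
    have h1 := Ca_fin (un_finite (K := ℚ) (L := K))
    have h2 : (⋃ z ∈ Z, {v : HeightOneSpectrum (𝓞 K) | v.valuation K (rep z) ≠ 1}).Finite := by
      exact Set.Finite.biUnion Z.finite_toSet fun z _ => fin_bad (rep_ne z)
    have h3 := Ca_fin h2
    refine ((Set.finite_singleton 2).union (h1.union h3)).subset ?_
    rintro p ⟨hp, h | h | h⟩
    · exact Or.inl h
    · exact Or.inr (Or.inl ⟨hp, h⟩)
    · exact Or.inr (Or.inr ⟨hp, h⟩)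
  refine ((frob_inf σ).sdiff hbad).mono ?_
  rintro p ⟨⟨hp, j, w, hj, hpw, hφ⟩, hgood⟩
  have hp2 : p ≠ 2 := fun h => hgood ⟨hp, Or.inl h⟩
  have hun : ∀ v : HeightOneSpectrum (𝓞 ℚ), (p : 𝓞 ℚ) ∈ v.asIdeal → Un ℚ K v := by
    intro v hv
    by_contra hne
    exact hgood ⟨hp, Or.inr (Or.inl ⟨v, hne, hv⟩)⟩
  have hval : ∀ v : HeightOneSpectrum (𝓞 K), (p : 𝓞 K) ∈ v.asIdeal → ∀ z ∈ Z,
      v.valuation K (rep z) = 1 := by
    intro v hv z hz
    by_contra hne
    exact hgood ⟨hp, Or.inr (Or.inr ⟨v, Set.mem_biUnion hz hne, hv⟩)⟩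
  obtain ⟨v, hwv⟩ := BCnt_below K w
  have hpv : (p : 𝓞 K) ∈ v.asIdeal := (Ca_mem_rat hwv p).1 hpw
  -- the Frobenius is trivial on `K`
  have hxv : ∀ x : 𝓞 K, x ^ p - x ∈ v.asIdeal := by
    intro x
    have h1 := hφ (algebraMap (𝓞 K) (𝓞 L) x)
    have h2 : (σ ^ j) • (algebraMap (𝓞 K) (𝓞 L) x) = algebraMap (𝓞 K) (𝓞 L) x := by
      apply RingOfIntegers.ext
      exact hjK j (x : K)
    rw [h2, ← map_pow, ← map_sub] at h1
    have h3 : x - x ^ p ∈ v.asIdeal := by
      rw [hwv.over, Ideal.mem_comap]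
      exact h1
    have h4 := v.asIdeal.neg_mem h3
    rwa [neg_sub] at h4
  have hspl : Spl K p := by
    refine spl_of hp hp2 hun fun v' hv' x => ?_
    haveI := v.isPrime
    haveI := v'.isPrime
    have hm : ∀ u : HeightOneSpectrum (𝓞 K), (p : 𝓞 K) ∈ u.asIdeal →
        (p : 𝓞 ℚ) ∈ u.asIdeal.under (𝓞 ℚ) := by
      intro u hu
      rw [Ideal.mem_comap, map_natCast]
      exact hu
    obtain ⟨g, hg⟩ := Algebra.IsInvariant.exists_smul_of_under_eq (𝓞 ℚ) (𝓞 K) (K ≃ₐ[ℚ] K)
      v.asIdeal v'.asIdeal (Pool.Agent.H10.uniqueAbove_rat hp _ _ inferInstance inferInstance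
        (hm v hpv) (hm v' hv'))
    rw [hg, Ideal.mem_pointwise_smul_iff_inv_smul_mem, smul_sub, smul_pow']
    exact hxv _
  refine ⟨hspl, ?_, v, hpv, ?_⟩
  · obtain ⟨w', hw'⟩ := BCnt_below K' w
    refine ⟨w', (Ca_mem_rat hw' p).1 hpw, Ca_fix ?_⟩
    -- the Frobenius and its powers preserve `w`
    have hst : ∀ x ∈ w.asIdeal, (σ ^ j) • x ∈ w.asIdeal := by
      intro x hx
      have h1 := hφ x
      have h2 : x ^ p ∈ w.asIdeal := Ideal.pow_mem_of_mem _ hx p hp.pos
      have h3 := w.asIdeal.add_mem h1 h2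
      rwa [sub_add_cancel] at h3
    have hstp : ∀ (i : ℕ), ∀ x ∈ w.asIdeal, ((σ ^ j) ^ i) • x ∈ w.asIdeal := by
      intro i
      induction i with
      | zero => intro x hx; rw [pow_zero, one_smul]; exact hx
      | succ i ih =>
        intro x hx
        rw [pow_succ, mul_smul]
        exact ih _ (hst x hx)
    obtain ⟨i, hi⟩ : ∃ i : ℕ, (σ ^ j) ^ i = σ := by
      obtain ⟨i, hi⟩ := exists_pow_eq_self_of_coprime hj
      exact ⟨i, hi⟩
    have hσw : ∀ x ∈ w.asIdeal, σ • x ∈ w.asIdeal := by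
      intro x hx
      have h1 := hstp i x hx
      rwa [hi] at h1
    intro x hx
    rw [hw'.over, Ideal.mem_comap] at hx ⊢
    have h1 := hσw _ hx
    have h2 : σ • (algebraMap (𝓞 K') (𝓞 L) x) =
        algebraMap (𝓞 K') (𝓞 L) (gO ((τ ^ 2).restrictScalars ℚ) x) := by
      apply RingOfIntegers.ext
      exact hσK' (x : K')
    rwa [h2] at h1
  · intro z hz
    refine leg_of hp hp2 hwv hpv (hspl.2.2 v hpv).1 (hjK j) hφ (hr z hz) ?_ (hval v hpv z hz)
    rw [hjr j z hz, hodd_j j hj z hz]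

/-- The general form: `t` is an automorphism of the Galois extension `K'` of odd degree. -/
theorem adm_gen (K K' : Type) [Field K] [NumberField K] [IsGalois ℚ K] [Field K'] [NumberField K']
    [IsGalois ℚ K'] [Algebra K K'] (hodd : Odd (Module.finrank ℚ K')) (t : K' ≃ₐ[K] K')
    {J : ℕ → Prop} (hJ : ∀ l : ℕ, Spl K l → (∃ w : HeightOneSpectrum (𝓞 K'),
      (l : 𝓞 K') ∈ w.asIdeal ∧ (t.restrictScalars ℚ) • w = w) → J l)
    (hdir : ∀ M : ℕ, Squarefree M → Odd M → ∀ c : ℕ, c.Coprime (8 * M) →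
      {l : ℕ | l.Prime ∧ l ≡ c [MOD 8 * M] ∧ J l}.Infinite) : Adm K J := by
  haveI : IsGalois K K' := IsGalois.tower_top_of_isGalois ℚ K K'
  have hodd' : Odd (Module.finrank K K') := by
    have h1 := Module.finrank_mul_finrank ℚ K K'
    rw [← h1] at hodd
    exact (Nat.odd_mul.1 hodd).2
  obtain ⟨τ, hτ⟩ : ∃ τ : K' ≃ₐ[K] K', τ ^ 2 = t := by
    have h1 : Odd (orderOf t) := by
      have h2 : orderOf t ∣ Module.finrank K K' := by
        rw [← IsGalois.card_aut_eq_finrank]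
        exact orderOf_dvd_natCard t
      exact hodd'.of_dvd_nat h2
    obtain ⟨k, hk⟩ := h1
    refine ⟨t ^ (k + 1), ?_⟩
    rw [← pow_mul]
    have h3 : (k + 1) * 2 = orderOf t + 1 := by omega
    rw [h3, pow_succ, pow_orderOf_eq_one, one_mul]
  refine ⟨fun Z Φ => ?_, hdir⟩
  refine (cheb_gen (K := K) (K' := K') hodd' τ Z Φ).mono ?_
  rintro l ⟨h1, h2, h3⟩
  rw [hτ] at h2
  exact ⟨h1, hJ l h1 h2, h3⟩

theorem adm_true (K : Type) [Field K] [NumberField K] [IsGalois ℚ K]
    (hodd : Odd (Module.finrank ℚ K)) : Adm K (fun _ => True) := by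
  refine adm_gen K K hodd 1 (fun _ _ _ => trivial) (fun M hM hMo c hc => ?_)
  have hM0 : M ≠ 0 := by
    rintro rfl
    exact absurd hMo (by decide)
  refine (dir_true (m := 8 * M) (by omega) hc).mono ?_
  rintro l ⟨h1, h2⟩
  exact ⟨h1, h2, trivial⟩

end H93T1
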