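import Pool.Agent.H93.T1.Cp

/-!
Block C of T1 (MP_78d38b): primes in arithmetic progressions with conditions modulo the squares of
finitely many primes.
-/

set_option autoImplicit false
open scoped Classical

namespace H93T1

private lemma Cq_one {p : ℕ} (hp : p.Prime) : ¬ ((1 + p) ^ (p - 1) ≡ 1 [MOD p ^ 2]) := by
  intro h
  rw [← ZMod.natCast_eq_natCast_iff] at h
  push_cast at h
  have h0 : (p : ZMod (p ^ 2)) ^ 2 = 0 := by
    have := ZMod.natCast_self (p ^ 2)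
    push_cast at this
    exact this
  have h1 : ∀ k : ℕ, (1 + (p : ZMod (p ^ 2))) ^ k = 1 + k * p := by
    intro k
    induction k with
    | zero => simp
    | succ k ih =>
      rw [pow_succ (1 + (p : ZMod (p ^ 2))) k, ih]
      push_cast
      linear_combination (k : ZMod (p ^ 2)) * h0
  rw [h1] at h
  have h2 : ((p - 1 : ℕ) : ZMod (p ^ 2)) = (p : ZMod (p ^ 2)) - 1 := by
    rw [Nat.cast_sub hp.one_le, Nat.cast_one]
  rw [h2] at h
  have h3 : (p : ZMod (p ^ 2)) = 0 := by linear_combination h0 - h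
  rw [ZMod.natCast_eq_zero_iff] at h3
  have h4 := Nat.le_of_dvd hp.pos h3
  have h5 := hp.two_le
  nlinarith

private lemma Cq_ex {p : ℕ} (hp : p.Prime) (c : ℕ) :
    ∃ c₂ : ℕ, c₂ ≡ c [MOD p] ∧ ¬ (c₂ ^ (p - 1) ≡ 1 [MOD p ^ 2]) := by
  by_cases h : c ^ (p - 1) ≡ 1 [MOD p ^ 2]
  · refine ⟨c * (1 + p), ?_, ?_⟩
    · have h1 : (1 + p) ≡ 1 [MOD p] := by simp [Nat.ModEq]
      simpa using h1.mul_left c
    · intro h2
      rw [mul_pow] at h2
      have h3 := (h.mul_right ((1 + p) ^ (p - 1))).symm.trans h2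
      rw [one_mul] at h3
      exact Cq_one hp h3
  · exact ⟨c, Nat.ModEq.refl c, h⟩

private lemma Cq_main (S : Finset ℕ) (hS : ∀ p ∈ S, p.Prime) :
    ∀ {A c : ℕ} (c₀ : ℕ → ℕ), A ≠ 0 → (∀ p ∈ S, A.Coprime p) → c.Coprime A →
      (∀ p ∈ S, (c₀ p).Coprime p) →
      {l : ℕ | l.Prime ∧ l ≡ c [MOD A] ∧ ∀ p ∈ S, l ≡ c₀ p [MOD p] ∧
        ¬ p ^ 2 ∣ l ^ (p - 1) - 1}.Infinite := by
  induction S using Finset.induction_on with
  | empty =>
    intro A c c₀ hA hAp hc hc₀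
    refine (dir_true hA hc).mono ?_
    rintro l ⟨h1, h2⟩
    exact ⟨h1, h2, fun p hp => absurd hp (Finset.notMem_empty p)⟩
  | insert p S hpS ih =>
    intro A c c₀ hA hAp hc hc₀
    have hp : p.Prime := hS p (Finset.mem_insert_self _ _)
    have hmem : p ∈ insert p S := Finset.mem_insert_self _ _
    obtain ⟨c₂, h1, h2⟩ := Cq_ex hp (c₀ p)
    have hAp2 : A.Coprime (p ^ 2) := (hAp p hmem).pow_right 2
    obtain ⟨c', h3, h4⟩ := Nat.chineseRemainder hAp2 c c₂
    have hp2 : p ^ 2 ≠ 0 := pow_ne_zero 2 hp.ne_zero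
    have h5 : c'.Coprime (A * p ^ 2) := by
      refine Nat.Coprime.mul_right ?_ ?_
      · rw [Nat.coprime_iff_gcd_eq_one, h3.gcd_eq]
        exact hc
      · refine Nat.Coprime.pow_right 2 ?_
        have h6 : c' ≡ c₀ p [MOD p] := (h4.of_dvd (Dvd.intro p (sq p).symm)).trans h1
        rw [Nat.coprime_iff_gcd_eq_one, h6.gcd_eq]
        exact hc₀ p hmem
    refine (ih (fun q hq => hS q (Finset.mem_insert_of_mem hq)) (A := A * p ^ 2) (c := c') c₀
      (mul_ne_zero hA hp2) ?_ h5 (fun q hq => hc₀ q (Finset.mem_insert_of_mem hq))).mono ?_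
    · intro q hq
      refine Nat.Coprime.mul_left (hAp q (Finset.mem_insert_of_mem hq)) (Nat.Coprime.pow_left 2 ?_)
      rw [Nat.coprime_primes hp (hS q (Finset.mem_insert_of_mem hq))]
      rintro rfl
      exact hpS hq
    · rintro l ⟨hl, hlc, hlS⟩
      have h6 : l ≡ c' [MOD A] := hlc.of_dvd (Dvd.intro _ rfl)
      have h7 : l ≡ c' [MOD p ^ 2] := hlc.of_dvd (Dvd.intro_left _ rfl)
      refine ⟨hl, h6.trans h3, ?_⟩
      intro q hq
      rcases Finset.mem_insert.1 hq with rfl | hq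
      · refine ⟨((h7.trans h4).of_dvd (Dvd.intro q (sq q).symm)).trans h1, ?_⟩
        intro h8
        apply h2
        have h9 : 1 ≤ l ^ (q - 1) := Nat.one_le_pow _ _ hl.pos
        have h10 : l ^ (q - 1) ≡ 1 [MOD q ^ 2] := ((Nat.modEq_iff_dvd' h9).2 h8).symm
        exact ((h7.trans h4).pow (q - 1)).symm.trans h10
      · exact hlS q hq

/-- Dirichlet's theorem with conditions modulo the squares of finitely many odd primes. -/
theorem dir_S {S : Finset ℕ} (hS : ∀ p ∈ S, p.Prime ∧ p ≠ 2) {M : ℕ} (hM : Squarefree M)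
    {c : ℕ} (hc : c.Coprime (8 * M)) :
    {l : ℕ | l.Prime ∧ l ≡ c [MOD 8 * M] ∧ ∀ p ∈ S, ¬ p ^ 2 ∣ l ^ (p - 1) - 1}.Infinite := by
  have hM0 : M ≠ 0 := hM.ne_zero
  set S' := S.filter (fun p => p ∣ M) with hS'
  have hpr : ∀ T : Finset ℕ, T ⊆ S' → ∏ p ∈ T, p ∣ M := by
    intro T hT
    refine Finset.prod_dvd_of_isRelPrime ?_ (fun p hp => (Finset.mem_filter.1 (hT hp)).2)
    intro p hp q hq hpq
    have h1 := (hS p (Finset.mem_filter.1 (hT hp)).1).1
    have h2 := (hS q (Finset.mem_filter.1 (hT hq)).1).1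
    exact Nat.coprime_iff_isRelPrime.1 ((Nat.coprime_primes h1 h2).2 hpq)
  obtain ⟨M₁, hM₁⟩ := hpr S' (Finset.Subset.refl _)
  have hM₁0 : M₁ ≠ 0 := by
    rintro rfl
    exact hM0 (by rw [hM₁, mul_zero])
  have hM₁S : ∀ p ∈ S, M₁.Coprime p := by
    intro p hp
    have hpp := (hS p hp).1
    rw [Nat.coprime_comm, hpp.coprime_iff_not_dvd]
    intro h
    have h1 : p ∈ S' := Finset.mem_filter.2 ⟨hp, by rw [hM₁]; exact h.mul_left _⟩
    have h2 : p * p ∣ M := by
      rw [hM₁]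
      exact mul_dvd_mul (Finset.dvd_prod_of_mem _ h1) h
    exact hpp.one_lt.ne' (Nat.isUnit_iff.1 (hM p h2))
  have h8 : ∀ p ∈ S, Nat.Coprime 8 p := by
    intro p hp
    have : Nat.Coprime 2 p := Nat.coprime_two_left.2 ((hS p hp).1.odd_of_ne_two (hS p hp).2)
    exact Nat.Coprime.pow_left 3 this
  have e : 8 * M = 8 * M₁ * ∏ p ∈ S', p := by rw [hM₁]; ring
  rw [e] at hc
  refine (Cq_main S (fun p hp => (hS p hp).1) (A := 8 * M₁) (c := c)
    (fun p => if p ∣ M then c else 1) (by omega)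
    (fun p hp => Nat.Coprime.mul_left (h8 p hp) (hM₁S p hp))
    (Nat.Coprime.coprime_mul_right_right hc) ?_).mono ?_
  · intro p hp
    by_cases h : p ∣ M
    · simp only [h, if_true]
      exact (Nat.Coprime.coprime_mul_left_right hc).coprime_dvd_right
        (Finset.dvd_prod_of_mem _ (Finset.mem_filter.2 ⟨hp, h⟩))
    · simp only [h, if_false]
      exact Nat.coprime_one_left p
  · rintro l ⟨h1, h2, h3⟩
    refine ⟨h1, ?_, fun p hp => (h3 p hp).2⟩
    rw [e]
    have hcop : (8 * M₁).Coprime (∏ p ∈ S', p) := by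
      refine Nat.Coprime.prod_right fun p hp => ?_
      exact Nat.Coprime.mul_left (h8 p (Finset.mem_filter.1 hp).1)
        (hM₁S p (Finset.mem_filter.1 hp).1)
    refine (Nat.modEq_and_modEq_iff_modEq_mul hcop).1 ⟨h2, ?_⟩
    rw [Nat.modEq_iff_dvd]
    have h4 : ((∏ p ∈ S', p : ℕ) : ℤ) = ∏ p ∈ S', (p : ℤ) := by push_cast; rfl
    rw [h4]
    refine Finset.prod_dvd_of_coprime ?_ ?_
    · intro p hp q hq hpq
      have h1 := (hS p (Finset.mem_filter.1 hp).1).1
      have h2 := (hS q (Finset.mem_filter.1 hq).1).1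
      exact (Nat.isCoprime_iff_coprime.2 ((Nat.coprime_primes h1 h2).2 hpq))
    · intro p hp
      have h5 := (h3 p (Finset.mem_filter.1 hp).1).1
      rw [if_pos (Finset.mem_filter.1 hp).2] at h5
      exact Nat.modEq_iff_dvd.1 h5

end H93T1
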