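import Pool.Agent.H93.T1.Nd

/-!
Block N of T1 (MP_78d38b), helper93: for `a > 0`, `b > 0`, `a^2 - 4 b > 0` and coprime `a`, `b` the
sums `kb a b` and `kd a b` agree (quadratic reciprocity), so that the real type is `false`.
-/

set_option autoImplicit false
open scoped Classical NumberTheorySymbols

open H38T1 Pool.Agent.H93.MQ

namespace H93T1

/-- The sign of an element of `ZMod 2`. -/
private noncomputable def Nb_sg (x : ZMod 2) : ℤ := if x = 0 then 1 else -1

private lemma Nb_sg_zero : Nb_sg 0 = 1 := if_pos rfl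

private lemma Nb_sg_one : Nb_sg 1 = -1 := if_neg one_ne_zero

private lemma Nb_sg_add (x y : ZMod 2) : Nb_sg (x + y) = Nb_sg x * Nb_sg y := by
  have h01 : ∀ x : ZMod 2, x = 0 ∨ x = 1 := by decide
  have h11 : (1 : ZMod 2) + 1 = 0 := by decide
  rcases h01 x with rfl | rfl <;> rcases h01 y with rfl | rfl
  · rw [add_zero, Nb_sg_zero, mul_one]
  · rw [zero_add, Nb_sg_zero, one_mul]
  · rw [add_zero, Nb_sg_zero, mul_one]
  · rw [h11, Nb_sg_zero, Nb_sg_one]; norm_num

private lemma Nb_sg_sum (F : Finset ℕ) (f : ℕ → ZMod 2) :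
    Nb_sg (∑ q ∈ F, f q) = ∏ q ∈ F, Nb_sg (f q) := by
  induction F using Finset.induction_on with
  | empty => rw [Finset.sum_empty, Finset.prod_empty, Nb_sg_zero]
  | insert q F hq ih => rw [Finset.sum_insert hq, Finset.prod_insert hq, Nb_sg_add, ih]

private lemma Nb_leg {q : ℕ} (hq : q.Prime) {x : ℤ} (hx : ¬ (q : ℤ) ∣ x) :
    J(x | q) = Nb_sg (lg q x) := by
  have : Fact q.Prime := ⟨hq⟩
  rw [← jacobiSym.legendreSym.to_jacobiSym]
  have hx0 : (x : ZMod q) ≠ 0 := fun h => hx ((ZMod.intCast_zmod_eq_zero_iff_dvd x q).1 h)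
  have hsq : IsSquare (x : ZMod q) ↔ SqMod q x := by
    constructor
    · rintro ⟨r, hr⟩
      obtain ⟨t, rfl⟩ := ZMod.intCast_surjective r
      refine ⟨t, ?_⟩
      rw [← ZMod.intCast_zmod_eq_zero_iff_dvd]
      push_cast
      rw [hr]
      ring
    · rintro ⟨t, ht⟩
      refine ⟨(t : ZMod q), ?_⟩
      rw [← ZMod.intCast_zmod_eq_zero_iff_dvd] at ht
      push_cast at ht
      rw [← sq]
      exact sub_eq_zero.1 ht
  unfold lg
  split_ifs with h
  · rw [Nb_sg_zero]
    exact (legendreSym.eq_one_iff q hx0).2 (hsq.2 h)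
  · rw [Nb_sg_one]
    exact (legendreSym.eq_neg_one_iff q).2 (fun h' => h (hsq.1 h'))

private lemma Nb_prod (x : ℤ) (F : Finset ℕ) (hF : ∀ q ∈ F, q ≠ 0) (f : ℕ → ℕ) :
    J(x | ∏ q ∈ F, q ^ f q) = ∏ q ∈ F, J(x | q) ^ f q := by
  induction F using Finset.induction_on with
  | empty => rw [Finset.prod_empty, Finset.prod_empty, jacobiSym.one_right]
  | insert q F hq ih =>
    have hq0 : q ≠ 0 := hF q (Finset.mem_insert_self _ _)
    have hF' : ∀ r ∈ F, r ≠ 0 := fun r hr => hF r (Finset.mem_insert_of_mem hr)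
    rw [Finset.prod_insert hq, Finset.prod_insert hq,
      jacobiSym.mul_right' x (pow_ne_zero _ hq0)
        (Finset.prod_ne_zero_iff.2 fun r hr => pow_ne_zero _ (hF' r hr)),
      jacobiSym.pow_right, ih hF']

private lemma Nb_jac {x : ℤ} {N : ℕ} (hN : N ≠ 0)
    (hcop : ∀ q : ℕ, q.Prime → q ∣ N → ¬ (q : ℤ) ∣ x) :
    J(x | N) = Nb_sg (∑ q ∈ N.primeFactors.filter (fun q => Odd (N.factorization q)), lg q x) := by
  have h1 : N = ∏ q ∈ N.primeFactors, q ^ N.factorization q :=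
    (Nat.prod_factorization_pow_eq_self hN).symm
  conv_lhs => rw [h1]
  rw [Nb_prod x _ (fun q hq => (Nat.prime_of_mem_primeFactors hq).ne_zero), Nb_sg_sum,
    Finset.prod_filter]
  refine Finset.prod_congr rfl fun q hq => ?_
  have hqp := Nat.prime_of_mem_primeFactors hq
  have h2 := Nb_leg hqp (hcop q hqp (Nat.dvd_of_mem_primeFactors hq))
  have h3 : Nb_sg (lg q x) = 1 ∨ Nb_sg (lg q x) = -1 := by
    unfold Nb_sg
    split_ifs
    · exact Or.inl rfl
    · exact Or.inr rfl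
  rw [h2]
  split_ifs with h
  · rcases h3 with h3 | h3
    · rw [h3, one_pow]
    · rw [h3, h.neg_one_pow]
  · have he := Nat.not_odd_iff_even.1 h
    rcases h3 with h3 | h3
    · rw [h3, one_pow]
    · rw [h3, he.neg_one_pow]

/-- The balance vanishes. -/
theorem bal_zero {a b : ℤ} (hab : Hyp a b) (ha : 0 < a) (hb : 0 < b) (hD : 4 * b < a ^ 2)
    (hc : IsCoprime a b) : kb a b + kd a b = 0 := by
  obtain ⟨k, b₀, hbb, hb₀⟩ := hab.b4
  have h4k : (0 : ℤ) < 4 ^ (k + 2) := by positivity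
  have hb₀p : 0 < b₀ := by
    rw [hbb] at hb
    exact pos_of_mul_pos_right hb h4k.le
  obtain ⟨A, hA⟩ := Int.eq_ofNat_of_zero_le ha.le
  obtain ⟨B, hB⟩ := Int.eq_ofNat_of_zero_le hb₀p.le
  obtain ⟨D, hDn⟩ := Int.eq_ofNat_of_zero_le (by linarith : 0 ≤ a ^ 2 - 4 * b)
  have hA' : a = (A : ℤ) := hA
  have hB' : b₀ = (B : ℤ) := hB
  have hDn' : a ^ 2 - 4 * b = (D : ℤ) := hDn
  have hA4 : A % 4 = 1 := by
    have := hab.a4
    omega
  have hA0 : A ≠ 0 := by omega
  have hBodd : Odd B := by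
    rw [Nat.odd_iff]
    omega
  have hB0 : B ≠ 0 := by
    rintro rfl
    simp at hBodd
  have hD8 : D % 8 = 1 := by
    have h1 : a ^ 2 % 8 = 1 := by
      have h2 : a = 4 * (a / 4) + 1 := by
        have := hab.a4
        omega
      have h3 : a ^ 2 = 8 * (2 * (a / 4) ^ 2 + a / 4) + 1 := by
        calc a ^ 2 = (4 * (a / 4) + 1) ^ 2 := by rw [← h2]
          _ = _ := by ring
      omega
    have h2 : 4 * b = 8 * (8 * 4 ^ k * b₀) := by
      rw [hbb]
      ring
    omega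
  have hDodd : Odd D := by
    rw [Nat.odd_iff]
    omega
  have hD0 : D ≠ 0 := by omega
  -- coprimality
  have hcop : ∀ q : ℕ, q.Prime → (q : ℤ) ∣ b → ¬ (q : ℤ) ∣ a := by
    intro q hq h1 h2
    have h3 := hc.isUnit_of_dvd' h2 h1
    rw [Int.isUnit_iff] at h3
    have := hq.two_le
    omega
  have hB_b : (B : ℤ) ∣ b := by
    rw [hbb, ← hB']
    exact dvd_mul_left _ _
  have hcopD : ∀ q : ℕ, q.Prime → q ≠ 2 → (q : ℤ) ∣ a ^ 2 - 4 * b → ¬ (q : ℤ) ∣ a ∧ ¬ (q : ℤ) ∣ b := by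
    intro q hq hq2 h1
    have hqi : Prime (q : ℤ) := Nat.prime_iff_prime_int.1 hq
    have key : (q : ℤ) ∣ b → False := by
      intro h2
      have h3 : (q : ℤ) ∣ a ^ 2 := by
        have h4 : a ^ 2 = (a ^ 2 - 4 * b) + 4 * b := by ring
        rw [h4]
        exact dvd_add h1 (h2.mul_left 4)
      exact hcop q hq h2 (hqi.dvd_of_dvd_pow h3)
    refine ⟨fun h2 => key ?_, key⟩
    have h3 : (q : ℤ) ∣ 4 * b := by
      have h4 : 4 * b = a ^ 2 - (a ^ 2 - 4 * b) := by ring
      rw [h4]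
      exact dvd_sub (dvd_pow h2 two_ne_zero) h1
    rcases hqi.dvd_or_dvd h3 with h4 | h4
    · exfalso
      have h5 : (q : ℤ) ∣ 2 := by
        have h6 : (4 : ℤ) = 2 ^ 2 := by norm_num
        rw [h6] at h4
        exact hqi.dvd_of_dvd_pow h4
      exact hq2 ((Nat.prime_dvd_prime_iff_eq hq Nat.prime_two).1 (by exact_mod_cast h5))
    · exact h4
  -- the two sums
  have hb0 := Hyp.b_ne hab
  have e1 : (Qs a b).filter (Ob a b) = B.primeFactors.filter (fun q => Odd (B.factorization q)) := by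
    ext q
    rw [Finset.mem_filter, Finset.mem_filter, mem_Qs hab, Nat.mem_primeFactors]
    have hval : q.Prime → q ≠ 2 → padicValInt q b = B.factorization q := by
      intro hq hq2
      have h1 : b.natAbs = 4 ^ (k + 2) * B := by
        rw [hbb, hB', Int.natAbs_mul, Int.natAbs_pow, Int.natAbs_natCast]
        rfl
      have h4 : Nat.factorization (4 ^ (k + 2)) q = 0 := by
        apply Nat.factorization_eq_zero_of_not_dvd
        intro h5
        have h6 : q ∣ 2 := by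
          have h7 : 4 ^ (k + 2) = 2 ^ (2 * (k + 2)) := by rw [pow_mul]; norm_num
          rw [h7] at h5
          exact hq.dvd_of_dvd_pow h5
        exact hq2 ((Nat.prime_dvd_prime_iff_eq hq Nat.prime_two).1 h6)
      rw [padicValInt, ← Nat.factorization_def _ hq, h1,
        Nat.factorization_mul (by positivity) hB0, Finsupp.add_apply, h4, zero_add]
    constructor
    · rintro ⟨⟨hq, hq2, -⟩, h1, -, h3⟩
      rw [hval hq hq2] at h3
      refine ⟨⟨hq, ?_, hB0⟩, h3⟩
      apply Nat.dvd_of_factorization_pos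
      intro h4
      rw [h4] at h3
      simp at h3
    · rintro ⟨⟨hq, h1, -⟩, h3⟩
      have hq2 : q ≠ 2 := by
        rintro rfl
        have := Nat.odd_iff.1 hBodd
        omega
      have h4 : (q : ℤ) ∣ b := (Int.natCast_dvd_natCast.2 h1).trans hB_b
      refine ⟨⟨hq, hq2, h4.mul_right _⟩, h4, hcop q hq h4, ?_⟩
      rw [hval hq hq2]
      exact h3
  have e2 : (Qs a b).filter (Od a b) = D.primeFactors.filter (fun q => Odd (D.factorization q)) := by
    ext q
    rw [Finset.mem_filter, Finset.mem_filter, mem_Qs hab, Nat.mem_primeFactors]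
    have hval : q.Prime → padicValInt q (a ^ 2 - 4 * b) = D.factorization q := by
      intro hq
      rw [padicValInt, ← Nat.factorization_def _ hq, hDn', Int.natAbs_natCast]
    constructor
    · rintro ⟨⟨hq, hq2, -⟩, h1, -, h3⟩
      rw [hval hq] at h3
      rw [hDn'] at h1
      exact ⟨⟨hq, Int.natCast_dvd_natCast.1 h1, hD0⟩, h3⟩
    · rintro ⟨⟨hq, h1, -⟩, h3⟩
      have hq2 : q ≠ 2 := by
        rintro rfl
        omega
      have h4 : (q : ℤ) ∣ a ^ 2 - 4 * b := by
        rw [hDn']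
        exact Int.natCast_dvd_natCast.2 h1
      refine ⟨⟨hq, hq2, h4.mul_left _⟩, h4, (hcopD q hq hq2 h4).2, ?_⟩
      rw [hval hq]
      exact h3
  have j1 : J(a | B) = Nb_sg (kb a b) := by
    unfold kb
    rw [e1]
    exact Nb_jac hB0 fun q hq h1 => hcop q hq ((Int.natCast_dvd_natCast.2 h1).trans hB_b)
  have j2 : J(-2 * a | D) = Nb_sg (kd a b) := by
    unfold kd
    rw [e2]
    refine Nb_jac hD0 fun q hq h1 h2 => ?_
    have hq2 : q ≠ 2 := by
      rintro rfl
      omega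
    have h4 : (q : ℤ) ∣ a ^ 2 - 4 * b := by
      rw [hDn']
      exact Int.natCast_dvd_natCast.2 h1
    have hqi : Prime (q : ℤ) := Nat.prime_iff_prime_int.1 hq
    rcases hqi.dvd_or_dvd h2 with h5 | h5
    · rw [dvd_neg] at h5
      exact hq2 ((Nat.prime_dvd_prime_iff_eq hq Nat.prime_two).1 (by exact_mod_cast h5))
    · exact (hcopD q hq hq2 h4).1 h5
  -- reciprocity
  have hgAB : Int.gcd (B : ℤ) (A : ℤ) = 1 := by
    have h1 : IsCoprime (B : ℤ) (A : ℤ) := by
      rw [← hA']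
      exact (hc.of_isCoprime_of_dvd_right hB_b).symm
    exact Int.isCoprime_iff_gcd_eq_one.1 h1
  have hg2A : Int.gcd ((2 : ℤ) ^ (k + 3)) (A : ℤ) = 1 := by
    have h1 : IsCoprime ((2 : ℤ) ^ (k + 3)) (A : ℤ) := by
      apply IsCoprime.pow_left
      refine ⟨-(2 * ((A : ℤ) / 4)), 1, ?_⟩
      omega
    exact Int.isCoprime_iff_gcd_eq_one.1 h1
  have r1 : J(a | B) = J((B : ℤ) | A) := by
    rw [hA']
    exact jacobiSym.quadratic_reciprocity_one_mod_four hA4 hBodd
  have r2 : J(-2 * a | D) = J((B : ℤ) | A) := by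
    rw [jacobiSym.mul_left, jacobiSym.at_neg_two hDodd]
    have h1 : ZMod.χ₈' (D : ZMod 8) = 1 := by
      have h2 : ((D : ℕ) : ZMod 8) = 1 := by
        have h3 := (ZMod.natCast_eq_natCast_iff' D 1 8).2 (by omega)
        rw [h3, Nat.cast_one]
      rw [h2]
      decide
    rw [h1, one_mul, hA', jacobiSym.quadratic_reciprocity_one_mod_four hA4 hDodd]
    have h2 : J((D : ℤ) | A) = J(-1 * ((2 : ℤ) ^ (k + 3)) ^ 2 * B | A) := by
      apply jacobiSym.mod_left'
      apply Int.emod_emod_of_dvd _ (dvd_refl _) |>.symm.trans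
      have h3 : (D : ℤ) = (A : ℤ) ^ 2 + -1 * ((2 : ℤ) ^ (k + 3)) ^ 2 * B := by
        rw [← hDn', ← hA', hbb, hB']
        have h4 : ((2 : ℤ) ^ (k + 3)) ^ 2 = 4 * 4 ^ (k + 2) := by
          rw [← pow_mul, mul_comm (k + 3) 2, pow_mul]
          norm_num
          ring
        rw [h4]
        ring
      rw [h3]
      simp [pow_two, Int.add_emod]
    rw [h2, jacobiSym.mul_left, jacobiSym.mul_left, jacobiSym.sq_one' hg2A,
      jacobiSym.at_neg_one (by rw [Nat.odd_iff]; omega : Odd A), ZMod.χ₄_nat_one_mod_four hA4]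
    ring
  have h1 : Nb_sg (kb a b + kd a b) = 1 := by
    rw [Nb_sg_add, ← j1, ← j2, r1, r2, ← sq]
    exact jacobiSym.sq_one hgAB
  by_contra hne
  unfold Nb_sg at h1
  rw [if_neg hne] at h1
  norm_num at h1

end H93T1
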