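import Pool.Agent.H93.T1.Nl

/-!
ROW No (project MP_78d38b_T1, block N): the local conditions are congruences (about 170 lines).

PROOF. `D = a^2 - 4 b`. At `8`: `a * R` is odd; `t2 := 5 * (a * R)`: if `8 ∣ ν - t2` then
`a * (R * ν) = 5 * (a * R)^2 = 5` modulo `8` (squares of odd numbers are one modulo `8`,
`Int.emod_emod_of_dvd`, `Int.sq_mod_eight..`, or case analysis modulo eight).
At `q ∈ Qs a b` (an odd prime, `mem_Qs`) choose `t q` by cases; in each case it is not divisible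
by `q`, and the condition holds for all `ν = t q` modulo `q`. (An integer prime to `q` has an inverse
modulo `q`: `∃ s, q ∣ x * s - 1`, by `Int.isCoprime_iff_gcd_eq_one` / `Int.exists_..`, or in `ZMod q`.
There is a non-square modulo `q`: an integer `r` with `¬ SqMod q r`, so `q ∤ r`:
`FiniteField.exists_nonsquare`; `sq_iff`.) Note `¬ SqMod q x` implies `q ∤ x`, and `SqMod q` only
depends on the class modulo `q` (`lg_of_dvd_sub`), and for units `lg_mul`.
* `q ∣ a` and `q ∣ b`: then not `Ob`, not `Od`, so `q ∤ R`; `t q` := an inverse of `R` modulo `q`.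
* `q ∣ b`, `q ∤ a`, even valuation of `b`: not `Ob`; not `Od` because `q ∣ b`. `q ∤ R`. `t q` with
  `a R t q = r` modulo `q`, `r` a non-square. Then for `ν = t q`: `q ∤ R ν` and `¬ SqMod q (a * (R * ν))`.
* `q ∣ b`, `q ∤ a`, odd valuation `2 k + 1` of `b`: `Ob`. `b = q^(2k+1) b'`, `q ∤ b'`
  (`padicValInt`, `Int` version of `ordProj/ordCompl`, or `multiplicity`: `padicValInt_dvd`,
  `padicValInt_dvd_iff`). `R = q R'`, `q ∤ R'` (hypothesis `hR1`). `u = R' ν`: want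
  `SqMod q (-(a * u * b'))` and `q ∤ u b'`: `t q` with `- a R' b' t q = 1` modulo `q`.
* `q ∤ b`, `q ∣ D`, even valuation of `D`: not `Ob`, not `Od`, `q ∤ R`; `q ∤ a` (else `q ∣ 4 b`);
  `t q` with `-2 a R t q = r` modulo `q`, `r` a non-square.
* `q ∤ b`, `q ∣ D`, odd valuation of `D`: `Od`; `D = q^(2k+1) d'`, `R = q R'`, `t q` with
  `2 a R' d' t q = 1` modulo `q`.
The fields of `LocOK` quantify over all odd primes `q`: in each of them `q ∣ b D`, so `q ∈ Qs a b`.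
-/

set_option autoImplicit false
open scoped Classical

namespace H93T1

open H38T1 Pool.Agent.H93.MQ

private lemma No_inv {q : ℕ} (hq : q.Prime) {c : ℤ} (hc : ¬ (q : ℤ) ∣ c) (r : ℤ) :
    ∃ t : ℤ, (q : ℤ) ∣ c * t - r := by
  have hp : Prime (q : ℤ) := Nat.prime_iff_prime_int.1 hq
  have h1 : IsCoprime (q : ℤ) c := (hp.coprime_iff_not_dvd).2 hc
  obtain ⟨x, y, hxy⟩ := h1
  refine ⟨y * r, -x * r, ?_⟩
  linear_combination r * hxy

private lemma No_congr {q : ℕ} {x y : ℤ} (h : (q : ℤ) ∣ x - y) (hx : SqMod q x) : SqMod q y := by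
  obtain ⟨t, ht⟩ := hx
  refine ⟨t, ?_⟩
  have h1 := dvd_sub ht h
  have e : x - t ^ 2 - (x - y) = y - t ^ 2 := by ring
  rwa [e] at h1

private lemma No_nonres {q : ℕ} (hq : q.Prime) (h2 : q ≠ 2) :
    ∃ r : ℤ, ¬ SqMod q r ∧ ¬ (q : ℤ) ∣ r := by
  have : Fact q.Prime := ⟨hq⟩
  obtain ⟨a, ha⟩ := FiniteField.exists_nonsquare (F := ZMod q) (by
    rw [ZMod.ringChar_zmod_n]
    exact h2)
  obtain ⟨r, rfl⟩ := ZMod.intCast_surjective a
  refine ⟨r, fun h => ha ((sq_iff r).1 h), fun h => ha ?_⟩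
  rw [(ZMod.intCast_zmod_eq_zero_iff_dvd r q).2 h]
  exact ⟨0, (mul_zero 0).symm⟩

private lemma No_fac {q : ℕ} (hq : q.Prime) {x : ℤ} (hx : x ≠ 0) (ho : Odd (padicValInt q x)) :
    ∃ (x' : ℤ) (k : ℕ), x = (q : ℤ) ^ (2 * k + 1) * x' ∧ ¬ (q : ℤ) ∣ x' := by
  have : Fact q.Prime := ⟨hq⟩
  obtain ⟨k, hk⟩ := ho
  have h1 : (q : ℤ) ^ (2 * k + 1) ∣ x := (padicValInt_dvd_iff _ _).2 (Or.inr (by rw [hk]))
  obtain ⟨x', hx'⟩ := h1
  refine ⟨x', k, hx', fun h => ?_⟩
  obtain ⟨y, rfl⟩ := h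
  have h3 : (q : ℤ) ^ (2 * k + 1 + 1) ∣ x := ⟨y, by rw [hx']; ring⟩
  rcases (padicValInt_dvd_iff _ _).1 h3 with h4 | h4
  · exact hx h4
  · rw [hk] at h4
    omega

/-- all local conditions at one prime -/
private structure No_P (a b : ℤ) (q : ℕ) (n : ℤ) : Prop where
  three : (q : ℤ) ∣ a → (q : ℤ) ∣ b → (q : ℤ) ∣ n - 1
  bev : (q : ℤ) ∣ b → ¬ (q : ℤ) ∣ a → Even (padicValInt q b) →
    ¬ (q : ℤ) ∣ n ∧ ¬ SqMod q (a * n)
  bod : (q : ℤ) ∣ b → ¬ (q : ℤ) ∣ a → Odd (padicValInt q b) →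
    ∃ (u b' : ℤ) (k : ℕ), n = q * u ∧ b = (q : ℤ) ^ (2 * k + 1) * b' ∧ ¬ (q : ℤ) ∣ u * b' ∧
      SqMod q (-(a * u * b'))
  dev : (q : ℤ) ∣ a ^ 2 - 4 * b → ¬ (q : ℤ) ∣ b →
    Even (padicValInt q (a ^ 2 - 4 * b)) → ¬ (q : ℤ) ∣ n ∧ ¬ SqMod q (-2 * a * n)
  dod : (q : ℤ) ∣ a ^ 2 - 4 * b → ¬ (q : ℤ) ∣ b →
    Odd (padicValInt q (a ^ 2 - 4 * b)) → ∃ (u d' : ℤ) (k : ℕ), n = q * u ∧
      a ^ 2 - 4 * b = (q : ℤ) ^ (2 * k + 1) * d' ∧ ¬ (q : ℤ) ∣ u * d' ∧ SqMod q (2 * a * u * d')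

private lemma No_shift {q : ℕ} {c t r v : ℤ} (h1 : (q : ℤ) ∣ c * t - r) (h2 : (q : ℤ) ∣ v - t) :
    (q : ℤ) ∣ c * v - r := by
  have e : c * v - r = (c * t - r) + c * (v - t) := by ring
  rw [e]
  exact dvd_add h1 (h2.mul_left c)

private lemma No_nd {q : ℕ} {c t r : ℤ} (h1 : (q : ℤ) ∣ c * t - r) (hr : ¬ (q : ℤ) ∣ r) :
    ¬ (q : ℤ) ∣ t := by
  intro h
  apply hr
  have h3 := dvd_sub (h.mul_left c) h1
  rwa [sub_sub_cancel] at h3

private theorem No_loc {a b R : ℤ} (hab : Hyp a b)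
    (hR1 : ∀ q ∈ Qs a b, (Ob a b q ∨ Od a b q) → (q : ℤ) ∣ R ∧ ¬ (q : ℤ) ^ 2 ∣ R)
    (hR2 : ∀ q ∈ Qs a b, ¬ (Ob a b q ∨ Od a b q) → ¬ (q : ℤ) ∣ R) {q : ℕ} (hQ : q ∈ Qs a b) :
    ∃ t : ℤ, ¬ (q : ℤ) ∣ t ∧ ∀ ν : ℤ, (q : ℤ) ∣ ν - t → No_P a b q (R * ν) := by
  obtain ⟨hq, hq2, hqd⟩ := (mem_Qs hab).1 hQ
  have hp : Prime (q : ℤ) := Nat.prime_iff_prime_int.1 hq
  have hq1 : ¬ (q : ℤ) ∣ 1 := hp.not_dvd_one
  have hqq2 : ¬ (q : ℤ) ∣ 2 := by
    intro h
    apply hq2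
    have h4 : q ∣ 2 := by exact_mod_cast h
    exact (Nat.prime_dvd_prime_iff_eq hq Nat.prime_two).1 h4
  have hb0 := Hyp.b_ne hab
  have hD0 := Hyp.D_ne hab
  have split : (Ob a b q ∨ Od a b q) → ∃ R' : ℤ, R = q * R' ∧ ¬ (q : ℤ) ∣ R' := by
    intro h
    obtain ⟨⟨R', rfl⟩, h4⟩ := hR1 q hQ h
    refine ⟨R', rfl, fun h5 => h4 ?_⟩
    rw [sq]
    exact mul_dvd_mul_left _ h5
  by_cases hb : (q : ℤ) ∣ b
  · have hnOd : ¬ Od a b q := fun h => h.2.1 hb
    by_cases ha : (q : ℤ) ∣ a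
    · -- `q` divides both
      have hR : ¬ (q : ℤ) ∣ R := hR2 q hQ (by
        rintro (h | h)
        · exact h.2.1 ha
        · exact hnOd h)
      obtain ⟨t, ht⟩ := No_inv hq hR 1
      refine ⟨t, No_nd ht hq1, fun ν hν => ⟨fun _ _ => No_shift ht hν, ?_, ?_, ?_, ?_⟩⟩
      · exact fun _ h => absurd ha h
      · exact fun _ h => absurd ha h
      · exact fun _ h => absurd hb h
      · exact fun _ h => absurd hb h
    · by_cases hev : Even (padicValInt q b)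
      · have hR : ¬ (q : ℤ) ∣ R := hR2 q hQ (by
          rintro (h | h)
          · exact (Nat.not_odd_iff_even.2 hev) h.2.2
          · exact hnOd h)
        obtain ⟨r, hr, hr'⟩ := No_nonres hq hq2
        obtain ⟨t, ht⟩ := No_inv hq (c := a * R) (fun h => (hp.dvd_or_dvd h).elim ha hR) r
        refine ⟨t, No_nd ht hr', fun ν hν => ⟨fun h => absurd h ha, ?_, ?_, ?_, ?_⟩⟩
        · intro _ _ _
          have h1 := No_shift ht hν
          constructor
          · intro h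
            rcases hp.dvd_or_dvd h with h | h
            · exact hR h
            · exact No_nd h1 hr' h
          · intro h
            refine hr (No_congr ?_ h)
            rwa [← mul_assoc]
        · exact fun _ _ h => absurd h (Nat.not_odd_iff_even.2 hev)
        · exact fun _ h => absurd hb h
        · exact fun _ h => absurd hb h
      · have ho : Odd (padicValInt q b) := Nat.not_even_iff_odd.1 hev
        obtain ⟨R', rfl, hR'⟩ := split (Or.inl ⟨hb, ha, ho⟩)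
        obtain ⟨b', k, hbk, hb'⟩ := No_fac hq hb0 ho
        obtain ⟨t, ht⟩ := No_inv hq (c := -(a * R' * b')) (fun h => by
          rw [dvd_neg] at h
          rcases hp.dvd_or_dvd h with h | h
          · exact (hp.dvd_or_dvd h).elim ha hR'
          · exact hb' h) 1
        refine ⟨t, No_nd ht hq1, fun ν hν => ⟨fun h => absurd h ha, ?_, ?_, ?_, ?_⟩⟩
        · exact fun _ _ h => absurd h hev
        · intro _ _ _
          have h1 := No_shift ht hν
          refine ⟨R' * ν, b', k, by ring, hbk, ?_, ⟨1, ?_⟩⟩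
          · intro h
            rcases hp.dvd_or_dvd h with h | h
            · rcases hp.dvd_or_dvd h with h | h
              · exact hR' h
              · exact No_nd h1 hq1 h
            · exact hb' h
          · have e : -(a * (R' * ν) * b') - 1 ^ 2 = -(a * R' * b') * ν - 1 := by ring
            rw [e]
            exact h1
        · exact fun _ h => absurd hb h
        · exact fun _ h => absurd hb h
  · have hD : (q : ℤ) ∣ a ^ 2 - 4 * b := (hp.dvd_or_dvd hqd).resolve_left hb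
    have hnOb : ¬ Ob a b q := fun h => hb h.1
    have ha : ¬ (q : ℤ) ∣ a := by
      intro ha
      have h1 : (q : ℤ) ∣ a ^ 2 := by
        rw [sq]
        exact ha.mul_left a
      have h3 : (q : ℤ) ∣ 4 * b := by
        have := dvd_sub h1 hD
        rwa [sub_sub_cancel] at this
      rcases hp.dvd_or_dvd h3 with h | h
      · have h5 : (q : ℤ) ∣ 2 * 2 := by
          have e : (2 : ℤ) * 2 = 4 := by norm_num
          rw [e]
          exact h
        exact (hp.dvd_or_dvd h5).elim hqq2 hqq2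
      · exact hb h
    have h2a : ¬ (q : ℤ) ∣ 2 * a := fun h => (hp.dvd_or_dvd h).elim hqq2 ha
    by_cases hev : Even (padicValInt q (a ^ 2 - 4 * b))
    · have hR : ¬ (q : ℤ) ∣ R := hR2 q hQ (by
        rintro (h | h)
        · exact hnOb h
        · exact (Nat.not_odd_iff_even.2 hev) h.2.2)
      obtain ⟨r, hr, hr'⟩ := No_nonres hq hq2
      obtain ⟨t, ht⟩ := No_inv hq (c := -2 * a * R) (fun h => by
        rcases hp.dvd_or_dvd h with h | h
        · apply h2a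
          rw [neg_mul, dvd_neg] at h
          exact h
        · exact hR h) r
      refine ⟨t, No_nd ht hr', fun ν hν => ⟨fun h => absurd h ha, ?_, ?_, ?_, ?_⟩⟩
      · exact fun h => absurd h hb
      · exact fun h => absurd h hb
      · intro _ _ _
        have h1 := No_shift ht hν
        constructor
        · intro h
          rcases hp.dvd_or_dvd h with h | h
          · exact hR h
          · exact No_nd h1 hr' h
        · intro h
          refine hr (No_congr ?_ h)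
          have e : -2 * a * (R * ν) - r = -2 * a * R * ν - r := by ring
          rw [e]
          exact h1
      · exact fun _ _ h => absurd h (Nat.not_odd_iff_even.2 hev)
    · have ho : Odd (padicValInt q (a ^ 2 - 4 * b)) := Nat.not_even_iff_odd.1 hev
      obtain ⟨R', rfl, hR'⟩ := split (Or.inr ⟨hD, hb, ho⟩)
      obtain ⟨d', k, hdk, hd'⟩ := No_fac hq hD0 ho
      obtain ⟨t, ht⟩ := No_inv hq (c := 2 * a * R' * d') (fun h => by
        rcases hp.dvd_or_dvd h with h | h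
        · exact (hp.dvd_or_dvd h).elim h2a hR'
        · exact hd' h) 1
      refine ⟨t, No_nd ht hq1, fun ν hν => ⟨fun h => absurd h ha, ?_, ?_, ?_, ?_⟩⟩
      · exact fun h => absurd h hb
      · exact fun h => absurd h hb
      · exact fun _ _ h => absurd h hev
      · intro _ _ _
        have h1 := No_shift ht hν
        refine ⟨R' * ν, d', k, by ring, hdk, ?_, ⟨1, ?_⟩⟩
        · intro h
          rcases hp.dvd_or_dvd h with h | h
          · rcases hp.dvd_or_dvd h with h | h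
            · exact hR' h
            · exact No_nd h1 hq1 h
          · exact hd' h
        · have e : 2 * a * (R' * ν) * d' - 1 ^ 2 = 2 * a * R' * d' * ν - 1 := by ring
          rw [e]
          exact h1

private lemma No_eight {m v : ℤ} (hm : m % 2 = 1) (h : (8 : ℤ) ∣ v - 5 * m) :
    (m * v) % 8 = 5 := by
  have h1 : m % 8 = 1 ∨ m % 8 = 3 ∨ m % 8 = 5 ∨ m % 8 = 7 := by omega
  rw [Int.mul_emod]
  rcases h1 with h1 | h1 | h1 | h1
  · have h3 : v % 8 = 5 := by omega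
    rw [h1, h3]; norm_num
  · have h3 : v % 8 = 7 := by omega
    rw [h1, h3]; norm_num
  · have h3 : v % 8 = 1 := by omega
    rw [h1, h3]; norm_num
  · have h3 : v % 8 = 3 := by omega
    rw [h1, h3]; norm_num

theorem loc_class {a b R : ℤ} (hab : Hyp a b) (hR : R % 2 = 1)
    (hR1 : ∀ q ∈ Qs a b, (Ob a b q ∨ Od a b q) → (q : ℤ) ∣ R ∧ ¬ (q : ℤ) ^ 2 ∣ R)
    (hR2 : ∀ q ∈ Qs a b, ¬ (Ob a b q ∨ Od a b q) → ¬ (q : ℤ) ∣ R) :
    ∃ (t : ℕ → ℤ) (t2 : ℤ), t2 % 2 = 1 ∧ (∀ q ∈ Qs a b, ¬ (q : ℤ) ∣ t q) ∧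
      ∀ ν : ℤ, (8 : ℤ) ∣ ν - t2 → (∀ q ∈ Qs a b, (q : ℤ) ∣ ν - t q) → LocOK a b (R * ν) := by
  have hloc : ∀ q : ℕ, ∃ t : ℤ, q ∈ Qs a b →
      ¬ (q : ℤ) ∣ t ∧ ∀ ν : ℤ, (q : ℤ) ∣ ν - t → No_P a b q (R * ν) := by
    intro q
    by_cases hQ : q ∈ Qs a b
    · obtain ⟨t, ht⟩ := No_loc hab hR1 hR2 hQ
      exact ⟨t, fun _ => ht⟩
    · exact ⟨0, fun h => absurd h hQ⟩
  choose t ht using hloc
  have hm : (a * R) % 2 = 1 := by
    have h1 := hab.a4
    have h3 : a % 2 = 1 := by omega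
    rw [Int.mul_emod, h3, hR]
    norm_num
  refine ⟨t, 5 * (a * R), by omega, fun q hq => (ht q hq).1, fun ν h8 hν => ?_⟩
  have hall : ∀ q ∈ Qs a b, No_P a b q (R * ν) := fun q hq => (ht q hq).2 ν (hν q hq)
  have hmemb : ∀ q : ℕ, q.Prime → q ≠ 2 → (q : ℤ) ∣ b → q ∈ Qs a b :=
    fun q h1 h3 h4 => (mem_Qs hab).2 ⟨h1, h3, h4.mul_right _⟩
  have hmemd : ∀ q : ℕ, q.Prime → q ≠ 2 → (q : ℤ) ∣ a ^ 2 - 4 * b → q ∈ Qs a b :=
    fun q h1 h3 h4 => (mem_Qs hab).2 ⟨h1, h3, h4.mul_left _⟩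
  refine ⟨?_, ?_, ?_, ?_, ?_, ?_⟩
  · rw [← mul_assoc]
    exact No_eight hm h8
  · exact fun q h1 h3 h4 h5 => (hall q (hmemb q h1 h3 h5)).three h4 h5
  · exact fun q h1 h3 h4 => (hall q (hmemb q h1 h3 h4)).bev h4
  · exact fun q h1 h3 h4 => (hall q (hmemb q h1 h3 h4)).bod h4
  · exact fun q h1 h3 h4 => (hall q (hmemd q h1 h3 h4)).dev h4
  · exact fun q h1 h3 h4 => (hall q (hmemd q h1 h3 h4)).dod h4

end H93T1
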