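import Pool.Agent.H93.T1.Nl

/-!
ROW Npb (project MP_78d38b_T1, block N): product formula for the symbols of `n` and `b` (about 170
lines).

PROOF. Let `S = insert 2 (Qs a b ∪ P ∪ P' ∪ T)` (all primes), `v = cl n`, `w = cl b`. Both are
supported in `S` and zero (`cl_apply_of_not_prime`, `cl_apply_of_not_dvd`; `hall`, `mem_Qs`). So by
`hs_prod` (file `H93/MQ/HsP.lean`): `∑ p ∈ S, hs p v w + v 0 * w 0 = 0`, and
`v 0 = if n < 0 then 1 else 0`, `w 0 = if b < 0 then 1 else 0` (`cl_apply_zero`).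
The sets `{2}`, `Qs a b`, `P`, `P'`, `T` are disjoint (the primes in `P ∪ P' ∪ T` do not divide
`2 b D`), so the sum is the sum of five sums (`Finset.sum_insert`, `Finset.sum_union`).
* `hs 2 v w = 0`: `hs 2 v w = ev eps v * ev eps w + v 2 * ev ome w + w 2 * ev ome v`;
  `n = 1` modulo four (`a = 1` modulo four and `a n = 5` modulo eight), so `ev eps v = 0` (`ev_eps`,
  file `H93/MQ/HsA.lean`) and `v 2 = 0` (`n` odd); `w 2 = 0`: the valuation of `b = 4^(k+2) b₀` at two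
  is `2 (k + 2)` (`cl_mul`, `cl_sq` for `(2^(k+2))^2`, `b₀` odd).
* `q ∈ Qs a b`, four types. `D = a^2 - 4 b`.
  - `q ∣ a`, `q ∣ b`: `padicValInt q b = 1` is odd (`Hyp.mini`: `q^2 ∤ b`), `q ∤ n` since
    `q ∣ n - 1`; `hs_right`: the symbol is `lg q n = lg q 1 = 0` (`lg_of_dvd_sub`, `lg_zero`).
  - `q ∣ b`, `q ∤ a`, even valuation: `q ∤ n` (`LocOK.bev`), `hs_unit`: zero.
  - `Ob a b q`: `LocOK.bod`: `n = q u`, `b = q^(2k+1) b'`: `hs_both`: `lg q (-(u b'))`, and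
    `lg q (-(u b')) + lg q a = lg q (-(a u b')) = 0` (`lg_mul`), so it is `lg q a` (`x + x = 0`).
  - `q ∤ b`, `q ∣ D`: `b` is a square modulo `q`: `lg q b = 0`: `4 b = a^2` modulo `q` and `2` is
    invertible modulo `q` (`SqMod q b`: `t = a * s` with `2 s = 1` modulo `q`). If `q ∤ n`: `hs_unit`
    (valuation of `b` is zero): zero. If `q ∣ n`: `n = q u` with `q ∤ u` (`Squarefree n`), `hs_left`:
    `lg q b = 0`.
  So the sum over `Qs a b` is `kb a b` (`Finset.sum_filter`).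
* `l ∈ P`: `n = l u`, `l ∤ u`, `hs_left`: `lg l b = 0`. `l ∈ P'`: `lg l b = 1`, the sum is
  `(P'.card : ZMod 2)`. `l ∈ T`: `lg l b`.
Hence the formula (in `ZMod 2` signs do not matter).
-/

set_option autoImplicit false
open scoped Classical

namespace H93T1

open H38T1 Pool.Agent.H93.MQ

private lemma Npb_split {n : ℤ} (hn : Squarefree n) {l : ℕ} (hl : l.Prime) (h : (l : ℤ) ∣ n) :
    ∃ u : ℤ, n = l * u ∧ ¬ (l : ℤ) ∣ u := by
  obtain ⟨u, hu⟩ := h
  refine ⟨u, hu, ?_⟩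
  rintro ⟨c, hc⟩
  have h1 : (l : ℤ) * (l : ℤ) ∣ n := ⟨c, by rw [hu, hc]; ring⟩
  have h2 := hn _ h1
  rw [Int.isUnit_iff] at h2
  have h3 := hl.two_le
  rcases h2 with h2 | h2 <;> omega

private lemma Npb_two {a b n : ℤ} (hab : Hyp a b) (hl : LocOK a b n) (hn0 : n ≠ 0) :
    hs 2 (cl n) (cl b) = 0 := by
  have hn4 : n % 4 = 1 := by
    have h1 := hl.two
    have h2 := hab.a4
    have h3 : a * n = 4 * ((a / 4) * n) + n := by
      have h4 : a = 4 * (a / 4) + 1 := by omega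
      calc a * n = (4 * (a / 4) + 1) * n := by rw [← h4]
        _ = _ := by ring
    omega
  have hv1 : ev eps (cl n) = 0 := (ev_eps (by omega)).2 hn4
  have hv2 : cl n 2 = 0 := cl_apply_of_not_dvd hn0 Nat.prime_two (by
    intro h
    obtain ⟨c, hc⟩ := h
    push_cast at hc
    omega)
  have hw2 : cl b 2 = 0 := by
    obtain ⟨k, b₀, hb, hb0⟩ := hab.b4
    have h1 : b = ((2 : ℤ) ^ (k + 2)) ^ 2 * b₀ := by
      rw [hb, ← pow_mul, mul_comm (k + 2) 2, pow_mul]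
      norm_num
    have h2 : b₀ ≠ 0 := by
      rintro rfl
      norm_num at hb0
    have h3 : (2 : ℤ) ^ (k + 2) ≠ 0 := pow_ne_zero _ (by norm_num)
    rw [h1, cl_mul (pow_ne_zero 2 h3) h2, cl_sq h3, zero_add]
    refine cl_apply_of_not_dvd h2 Nat.prime_two ?_
    rintro ⟨c, hc⟩
    push_cast at hc
    omega
  unfold hs
  rw [if_pos rfl, hv1, hv2, hw2]
  ring

private lemma Npb_val {b : ℤ} {q : ℕ} (hq : q.Prime) (hb : b ≠ 0) (h1 : (q : ℤ) ∣ b)
    (h2 : ¬ (q : ℤ) ^ 2 ∣ b) : Odd (padicValInt q b) := by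
  haveI : Fact q.Prime := ⟨hq⟩
  have h3 := (padicValInt_dvd_iff (p := q) 1 b).1 (by rw [pow_one]; exact h1)
  have h4 : ¬ (2 ≤ padicValInt q b) := fun h => h2 ((padicValInt_dvd_iff (p := q) 2 b).2 (Or.inr h))
  rcases h3 with h3 | h3
  · exact absurd h3 hb
  · have : padicValInt q b = 1 := by omega
    rw [this]
    exact odd_one

private lemma Npb_val0 {b : ℤ} {q : ℕ} (hq : q.Prime) (h : ¬ (q : ℤ) ∣ b) :
    Even (padicValInt q b) := by
  haveI : Fact q.Prime := ⟨hq⟩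
  have h4 : ¬ (1 ≤ padicValInt q b) := fun h' => h (by
    have := (padicValInt_dvd_iff (p := q) 1 b).2 (Or.inr h')
    rwa [pow_one] at this)
  have : padicValInt q b = 0 := by omega
  rw [this]
  exact Even.zero

private lemma Npb_sq {a b : ℤ} {q : ℕ} (hq : q.Prime) (h2 : q ≠ 2)
    (h : (q : ℤ) ∣ a ^ 2 - 4 * b) : SqMod q b := by
  have hodd := hq.eq_two_or_odd.resolve_left h2
  obtain ⟨s, hs⟩ : ∃ s : ℤ, 2 * s = q + 1 := ⟨((q : ℤ) + 1) / 2, by omega⟩
  refine ⟨a * s, ?_⟩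
  have h1 : b - (a * s) ^ 2 = b * (1 - (2 * s)) * (1 + 2 * s) - (a ^ 2 - 4 * b) * s ^ 2 := by ring
  rw [h1]
  refine dvd_sub ?_ (h.mul_right _)
  refine Dvd.dvd.mul_right ?_ _
  refine Dvd.dvd.mul_left ?_ _
  rw [hs]
  exact ⟨-1, by ring⟩

private lemma Npb_z2 (x y : ZMod 2) : x + y = 0 → x = y := by
  revert x y
  decide

private lemma Npb_fin (k c t v w : ZMod 2) : 0 + (k + (0 + c + t)) + v * w = 0 →
    t = k + c + v * w := by
  revert k c t v w
  decide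

private lemma Npb_Q {a b n : ℤ} (hab : Hyp a b) (hn : Squarefree n) (hl : LocOK a b n) {q : ℕ}
    (hq : q ∈ Qs a b) : hs q (cl n) (cl b) = if Ob a b q then lg q a else 0 := by
  obtain ⟨hqp, hq2, hqd⟩ := (mem_Qs hab).1 hq
  have hb0 := Hyp.b_ne hab
  by_cases hqb : (q : ℤ) ∣ b
  · by_cases hqa : (q : ℤ) ∣ a
    · have h1 := hl.three q hqp hq2 hqa hqb
      have h2 : ¬ (q : ℤ) ∣ n := by
        intro h
        have h3 : (q : ℤ) ∣ 1 := by
          have := dvd_sub h h1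
          rwa [sub_sub_cancel] at this
        have h4 := hqp.two_le
        have h5 := Int.le_of_dvd one_pos h3
        omega
      rw [if_neg (fun h => h.2.1 hqa),
        hs_right hqp hq2 h2 hb0 (Npb_val hqp hb0 hqb (hab.mini q hqp hqa)),
        lg_of_dvd_sub h1, lg_zero]
      exact ⟨1, by norm_num⟩
    · by_cases hv : Odd (padicValInt q b)
      · rw [if_pos ⟨hqb, hqa, hv⟩]
        obtain ⟨u, b', k, h1, h2, h3, h4⟩ := hl.bod q hqp hq2 hqb hqa hv
        have hu : ¬ (q : ℤ) ∣ u := fun h => h3 (h.mul_right _)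
        have hb' : ¬ (q : ℤ) ∣ b' := fun h => h3 (h.mul_left _)
        rw [h1]
        have h5 := hs_both (k := k) hqp hq2 hu hb'
        rw [← h2] at h5
        rw [h5]
        apply Npb_z2
        rw [← lg_mul hqp hq2 (by rwa [dvd_neg]) hqa, lg_zero]
        have h6 : -(u * b') * a = -(a * u * b') := by ring
        rw [h6]
        exact h4
      · have h1 := hl.bev q hqp hq2 hqb hqa (Nat.not_odd_iff_even.1 hv)
        rw [if_neg (fun h => hv h.2.2), hs_unit hqp hq2 h1.1 hb0 (Nat.not_odd_iff_even.1 hv)]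
  · rw [if_neg (fun h => hqb h.1)]
    have hqD : (q : ℤ) ∣ a ^ 2 - 4 * b := by
      rcases (Nat.prime_iff_prime_int.1 hqp).dvd_or_dvd hqd with h | h
      · exact absurd h hqb
      · exact h
    by_cases hqn : (q : ℤ) ∣ n
    · obtain ⟨u, h1, h2⟩ := Npb_split hn hqp hqn
      rw [h1, hs_left hqp hq2 h2 hqb, lg_zero]
      exact Npb_sq hqp hq2 hqD
    · exact hs_unit hqp hq2 hqn hb0 (Npb_val0 hqp hqb)

theorem prod_b {a b n : ℤ} (hab : Hyp a b) (hn : Squarefree n) (hl : LocOK a b n)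
    {P P' T : Finset ℕ} (h1 : Disjoint P P') (h2 : Disjoint (P ∪ P') T)
    (hP : ∀ l ∈ P ∪ P' ∪ T, l.Prime ∧ (l : ℤ) ∣ n ∧ ¬ (l : ℤ) ∣ 2 * (b * (a ^ 2 - 4 * b)))
    (hall : ∀ l : ℕ, l.Prime → (l : ℤ) ∣ n → (l : ℤ) ∣ b * (a ^ 2 - 4 * b) ∨ l ∈ P ∪ P' ∪ T)
    (hb : ∀ l ∈ P, SqMod l b) (hb' : ∀ l ∈ P', ¬ SqMod l b) :
    ∑ r ∈ T, lg r b = kb a b + (P'.card : ZMod 2) +
      (if n < 0 then 1 else 0) * (if b < 0 then 1 else 0) := by
  have hn0 : n ≠ 0 := hn.ne_zero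
  have hb0 := Hyp.b_ne hab
  have hS : ∀ p ∈ insert 2 (Qs a b ∪ (P ∪ P' ∪ T)), p.Prime := by
    intro p hp
    rw [Finset.mem_insert, Finset.mem_union] at hp
    rcases hp with rfl | hp | hp
    · exact Nat.prime_two
    · exact ((mem_Qs hab).1 hp).1
    · exact (hP p hp).1
  have hmem : ∀ i : ℕ, i.Prime → i ∉ insert 2 (Qs a b ∪ (P ∪ P' ∪ T)) →
      ¬ (i : ℤ) ∣ b * (a ^ 2 - 4 * b) ∧ i ∉ P ∪ P' ∪ T := by
    intro i hi his
    rw [Finset.mem_insert, Finset.mem_union, not_or, not_or] at his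
    exact ⟨fun h => his.2.1 ((mem_Qs hab).2 ⟨hi, his.1, h⟩), his.2.2⟩
  have hv : ∀ i, i ≠ 0 → i ∉ insert 2 (Qs a b ∪ (P ∪ P' ∪ T)) → cl n i = 0 := by
    intro i hi his
    by_cases hip : i.Prime
    · obtain ⟨h3, h4⟩ := hmem i hip his
      refine cl_apply_of_not_dvd hn0 hip fun h5 => ?_
      rcases hall i hip h5 with h6 | h6
      · exact h3 h6
      · exact h4 h6
    · exact cl_apply_of_not_prime n hi hip
  have hw : ∀ i, i ≠ 0 → i ∉ insert 2 (Qs a b ∪ (P ∪ P' ∪ T)) → cl b i = 0 := by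
    intro i hi his
    by_cases hip : i.Prime
    · obtain ⟨h3, h4⟩ := hmem i hip his
      exact cl_apply_of_not_dvd hb0 hip fun h5 => h3 (h5.mul_right _)
    · exact cl_apply_of_not_prime b hi hip
  have hprod := hs_prod hS (Finset.mem_insert_self _ _) hv hw
  have hd2 : ∀ l ∈ P ∪ P' ∪ T, l ≠ 2 ∧ ¬ (l : ℤ) ∣ b ∧ l ∉ Qs a b := by
    intro l hl'
    obtain ⟨h3, h4, h5⟩ := hP l hl'
    refine ⟨?_, ?_, ?_⟩
    · rintro rfl
      exact h5 (Dvd.intro _ rfl)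
    · intro h
      exact h5 ((h.mul_right _).mul_left _)
    · intro h
      exact h5 (((mem_Qs hab).1 h).2.2.mul_left _)
  have h2S : 2 ∉ Qs a b ∪ (P ∪ P' ∪ T) := by
    rw [Finset.mem_union, not_or]
    exact ⟨fun h => ((mem_Qs hab).1 h).2.1 rfl, fun h => (hd2 2 h).1 rfl⟩
  have hdis : Disjoint (Qs a b) (P ∪ P' ∪ T) := by
    rw [Finset.disjoint_right]
    intro l hl'
    exact (hd2 l hl').2.2
  have hleft : ∀ l ∈ P ∪ P' ∪ T, hs l (cl n) (cl b) = lg l b := by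
    intro l hl'
    obtain ⟨h3, h4, h5⟩ := hP l hl'
    obtain ⟨h6, h7, -⟩ := hd2 l hl'
    obtain ⟨u, h8, h9⟩ := Npb_split hn h3 h4
    rw [h8, hs_left h3 h6 h9 h7]
  have e1 : ∑ p ∈ Qs a b, hs p (cl n) (cl b) = kb a b := by
    unfold kb
    rw [Finset.sum_filter]
    exact Finset.sum_congr rfl fun q hq => Npb_Q hab hn hl hq
  have e2 : ∑ p ∈ P, hs p (cl n) (cl b) = 0 := by
    refine Finset.sum_eq_zero fun l hl' => ?_
    rw [hleft l (by simp [hl']), lg_zero]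
    exact hb l hl'
  have e3 : ∑ p ∈ P', hs p (cl n) (cl b) = (P'.card : ZMod 2) := by
    have h3 : ∀ l ∈ P', hs l (cl n) (cl b) = 1 := by
      intro l hl'
      rw [hleft l (by simp [hl']), lg_one]
      exact hb' l hl'
    rw [Finset.sum_congr rfl h3, Finset.sum_const, nsmul_eq_mul, mul_one]
  have e4 : ∑ p ∈ T, hs p (cl n) (cl b) = ∑ p ∈ T, lg p b :=
    Finset.sum_congr rfl fun l hl' => hleft l (by simp [hl'])
  rw [Finset.sum_insert h2S, Finset.sum_union hdis, Finset.sum_union h2, Finset.sum_union h1,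
    Npb_two hab hl hn0, e1, e2, e3, e4, cl_apply_zero hn0, cl_apply_zero hb0] at hprod
  exact Npb_fin _ _ _ _ _ hprod

end H93T1
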