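import Pool.Agent.H93.T1.Nl

/-!
ROW Npd (project MP_78d38b_T1, block N): product formula for the symbols of `n` and
`D = a^2 - 4 b` (about 170 lines). The same as row Npb with `D` in place of `b`.

PROOF. Let `S = insert 2 (Qs a b ∪ P ∪ P' ∪ T)` (all primes), `v = cl n`, `w = cl D`. Both are
supported in `S` and zero (`cl_apply_of_not_prime`, `cl_apply_of_not_dvd`; `hall`, `mem_Qs`). So by
`hs_prod` (file `H93/MQ/HsP.lean`): `∑ p ∈ S, hs p v w + v 0 * w 0 = 0`, and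
`v 0 = if n < 0 then 1 else 0`, `w 0 = if D < 0 then 1 else 0` (`cl_apply_zero`).
The sets `{2}`, `Qs a b`, `P`, `P'`, `T` are disjoint (the primes in `P ∪ P' ∪ T` do not divide
`2 b D`), so the sum is the sum of five sums (`Finset.sum_insert`, `Finset.sum_union`).
* `hs 2 v w = 0`: `hs 2 v w = ev eps v * ev eps w + v 2 * ev ome w + w 2 * ev ome v`;
  `n = 1` modulo four (`a = 1` modulo four and `a n = 5` modulo eight), so `ev eps v = 0` (`ev_eps`,
  file `H93/MQ/HsA.lean`) and `v 2 = 0` (`n` odd); `w 2 = 0` since `D` is odd (`a` odd).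
* `q ∈ Qs a b`, four types.
  - `q ∣ a`, `q ∣ b`: `b = q b₁`, `q ∤ b₁` (`Hyp.mini`), `D = q (a a₁ - 4 b₁)` with `a = q a₁`: so
    `padicValInt q D = 1` is odd, `q ∤ n` since `q ∣ n - 1`; `hs_right`: the symbol is
    `lg q n = lg q 1 = 0` (`lg_of_dvd_sub`, `lg_zero`).
  - `q ∣ b`, `q ∤ a`: `q ∤ D` and `lg q D = 0` (`D = a^2` modulo `q`). If `q ∤ n`: `hs_unit`
    (valuation of `D` is zero): zero. If `q ∣ n`: `n = q u` with `q ∤ u` (`Squarefree n`), `hs_left`: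
    `lg q D = 0`.
  - `q ∤ b`, `q ∣ D`, even valuation of `D`: `q ∤ n` (`LocOK.dev`), `hs_unit`: zero.
  - `Od a b q`: `LocOK.dod`: `n = q u`, `D = q^(2k+1) d'`: `hs_both`: `lg q (-(u d'))`, and
    `lg q (-(u d')) + lg q (-2 a) = lg q (2 a u d') = 0` (`lg_mul`; `q ∤ a`, else `q ∣ 4 b`), so it is
    `lg q (-2 a)` (`x + x = 0`).
  So the sum over `Qs a b` is `kd a b` (`Finset.sum_filter`).
* `l ∈ P'`: `n = l u`, `l ∤ u`, `hs_left`: `lg l D = 0`. `l ∈ P`: `lg l D = 1`, the sum is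
  `(P.card : ZMod 2)`. `l ∈ T`: `lg l D`.
Hence the formula (in `ZMod 2` signs do not matter).
-/

set_option autoImplicit false
open scoped Classical

namespace H93T1

open H38T1 Pool.Agent.H93.MQ

private lemma Npd_split {n : ℤ} (hn : Squarefree n) {l : ℕ} (hl : l.Prime) (h : (l : ℤ) ∣ n) :
    ∃ u : ℤ, n = l * u ∧ ¬ (l : ℤ) ∣ u := by
  obtain ⟨u, hu⟩ := h
  refine ⟨u, hu, ?_⟩
  rintro ⟨c, hc⟩
  have h1 : (l : ℤ) * (l : ℤ) ∣ n := ⟨c, by rw [hu, hc]; ring⟩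
  have h2 := hn _ h1
  rw [Int.isUnit_iff] at h2
  have h3 := hl.two_le
  rcases h2 with h2 | h2 <;> omega

private lemma Npd_two {a b n : ℤ} (hab : Hyp a b) (hl : LocOK a b n) (hn0 : n ≠ 0) :
    hs 2 (cl n) (cl (a ^ 2 - 4 * b)) = 0 := by
  have h4 : a = 4 * (a / 4) + 1 := by
    have h2 := hab.a4
    omega
  have hn4 : n % 4 = 1 := by
    have h1 := hl.two
    have h3 : a * n = 4 * ((a / 4) * n) + n := by
      calc a * n = (4 * (a / 4) + 1) * n := by rw [← h4]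
        _ = _ := by ring
    omega
  have hv1 : ev eps (cl n) = 0 := (ev_eps (by omega)).2 hn4
  have hv2 : cl n 2 = 0 := cl_apply_of_not_dvd hn0 Nat.prime_two (by
    intro h
    obtain ⟨c, hc⟩ := h
    push_cast at hc
    omega)
  have hw2 : cl (a ^ 2 - 4 * b) 2 = 0 := by
    refine cl_apply_of_not_dvd (Hyp.D_ne hab) Nat.prime_two ?_
    rintro ⟨c, hc⟩
    push_cast at hc
    have h5 : a ^ 2 = 2 * (8 * (a / 4) ^ 2 + 4 * (a / 4)) + 1 := by
      calc a ^ 2 = (4 * (a / 4) + 1) ^ 2 := by rw [← h4]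
        _ = _ := by ring
    omega
  unfold hs
  rw [if_pos rfl, hv1, hv2, hw2]
  ring

private lemma Npd_val {b : ℤ} {q : ℕ} (hq : q.Prime) (hb : b ≠ 0) (h1 : (q : ℤ) ∣ b)
    (h2 : ¬ (q : ℤ) ^ 2 ∣ b) : Odd (padicValInt q b) := by
  haveI : Fact q.Prime := ⟨hq⟩
  have h3 := (padicValInt_dvd_iff (p := q) 1 b).1 (by rw [pow_one]; exact h1)
  have h4 : ¬ (2 ≤ padicValInt q b) := fun h => h2 ((padicValInt_dvd_iff (p := q) 2 b).2 (Or.inr h))
  rcases h3 with h3 | h3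
  · exact absurd h3 hb
  · have : padicValInt q b = 1 := by omega
    rw [this]
    exact odd_one

private lemma Npd_val0 {b : ℤ} {q : ℕ} (hq : q.Prime) (h : ¬ (q : ℤ) ∣ b) :
    Even (padicValInt q b) := by
  haveI : Fact q.Prime := ⟨hq⟩
  have h4 : ¬ (1 ≤ padicValInt q b) := fun h' => h (by
    have := (padicValInt_dvd_iff (p := q) 1 b).2 (Or.inr h')
    rwa [pow_one] at this)
  have : padicValInt q b = 0 := by omega
  rw [this]
  exact Even.zero

private lemma Npd_z2 (x y : ZMod 2) : x + y = 0 → x = y := by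
  revert x y
  decide

private lemma Npd_fin (k c t v w : ZMod 2) : 0 + (k + (c + 0 + t)) + v * w = 0 →
    t = k + c + v * w := by
  revert k c t v w
  decide

private lemma Npd_ndvd2 {q : ℕ} (hq : q.Prime) (h2 : q ≠ 2) : ¬ (q : ℤ) ∣ 2 := by
  intro h
  have h3 : q ∣ 2 := by exact_mod_cast h
  exact h2 ((Nat.prime_dvd_prime_iff_eq hq Nat.prime_two).1 h3)

private lemma Npd_ndvd4 {q : ℕ} (hq : q.Prime) (h2 : q ≠ 2) {b : ℤ} (h : (q : ℤ) ∣ 4 * b) :
    (q : ℤ) ∣ b := by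
  have hp := Nat.prime_iff_prime_int.1 hq
  have h4 : ¬ (q : ℤ) ∣ 4 := by
    intro h3
    have h5 : (q : ℤ) ∣ 2 * 2 := by
      have : (2 : ℤ) * 2 = 4 := by norm_num
      rw [this]
      exact h3
    rcases hp.dvd_or_dvd h5 with h6 | h6 <;> exact Npd_ndvd2 hq h2 h6
  exact (hp.dvd_or_dvd h).resolve_left h4

private lemma Npd_Q {a b n : ℤ} (hab : Hyp a b) (hn : Squarefree n) (hl : LocOK a b n) {q : ℕ}
    (hq : q ∈ Qs a b) :
    hs q (cl n) (cl (a ^ 2 - 4 * b)) = if Od a b q then lg q (-2 * a) else 0 := by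
  obtain ⟨hqp, hq2, hqd⟩ := (mem_Qs hab).1 hq
  have hD0 := Hyp.D_ne hab
  by_cases hqb : (q : ℤ) ∣ b
  · rw [if_neg (fun h => h.2.1 hqb)]
    by_cases hqa : (q : ℤ) ∣ a
    · have h1 := hl.three q hqp hq2 hqa hqb
      have h2 : ¬ (q : ℤ) ∣ n := by
        intro h
        have h3 : (q : ℤ) ∣ 1 := by
          have := dvd_sub h h1
          rwa [sub_sub_cancel] at this
        have h4 := hqp.two_le
        have h5 := Int.le_of_dvd one_pos h3
        omega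
      have h6 : (q : ℤ) ∣ a ^ 2 - 4 * b :=
        dvd_sub (Dvd.dvd.pow hqa two_ne_zero) (hqb.mul_left _)
      have h7 : ¬ (q : ℤ) ^ 2 ∣ a ^ 2 - 4 * b := by
        intro h8
        have h9 : (q : ℤ) ^ 2 ∣ a ^ 2 := pow_dvd_pow_of_dvd hqa 2
        have h10 : (q : ℤ) ^ 2 ∣ 4 * b := by
          have := dvd_sub h9 h8
          rwa [sub_sub_cancel] at this
        obtain ⟨b₁, hb₁⟩ := hqb
        have hq0 : (q : ℤ) ≠ 0 := by exact_mod_cast hqp.ne_zero
        have h11 : (q : ℤ) ∣ 4 * b₁ := by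
          have h12 : (q : ℤ) * q ∣ q * (4 * b₁) := by
            have e : (q : ℤ) * (4 * b₁) = 4 * b := by rw [hb₁]; ring
            rw [e, ← sq]
            exact h10
          exact (mul_dvd_mul_iff_left hq0).1 h12
        have h13 := Npd_ndvd4 hqp hq2 h11
        apply hab.mini q hqp hqa
        rw [hb₁, sq]
        exact mul_dvd_mul_left _ h13
      rw [hs_right hqp hq2 h2 hD0 (Npd_val hqp hD0 h6 h7), lg_of_dvd_sub h1, lg_zero]
      exact ⟨1, by norm_num⟩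
    · have hqD : ¬ (q : ℤ) ∣ a ^ 2 - 4 * b := by
        intro h
        have h1 : (q : ℤ) ∣ a ^ 2 := by
          have := dvd_add h (hqb.mul_left 4)
          rwa [sub_add_cancel] at this
        exact hqa ((Nat.prime_iff_prime_int.1 hqp).dvd_of_dvd_pow h1)
      by_cases hqn : (q : ℤ) ∣ n
      · obtain ⟨u, h1, h2⟩ := Npd_split hn hqp hqn
        rw [h1, hs_left hqp hq2 h2 hqD, lg_zero]
        refine ⟨a, ?_⟩
        have e : a ^ 2 - 4 * b - a ^ 2 = -(4 * b) := by ring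
        rw [e, dvd_neg]
        exact hqb.mul_left _
      · exact hs_unit hqp hq2 hqn hD0 (Npd_val0 hqp hqD)
  · have hqD : (q : ℤ) ∣ a ^ 2 - 4 * b := by
      rcases (Nat.prime_iff_prime_int.1 hqp).dvd_or_dvd hqd with h | h
      · exact absurd h hqb
      · exact h
    by_cases hv : Odd (padicValInt q (a ^ 2 - 4 * b))
    · rw [if_pos ⟨hqD, hqb, hv⟩]
      obtain ⟨u, d', k, h1, h2, h3, h4⟩ := hl.dod q hqp hq2 hqD hqb hv
      have hu : ¬ (q : ℤ) ∣ u := fun h => h3 (h.mul_right _)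
      have hd' : ¬ (q : ℤ) ∣ d' := fun h => h3 (h.mul_left _)
      have h5 := hs_both (k := k) hqp hq2 hu hd'
      rw [← h2, ← h1] at h5
      rw [h5]
      have hqa : ¬ (q : ℤ) ∣ -2 * a := by
        intro h
        rcases (Nat.prime_iff_prime_int.1 hqp).dvd_or_dvd h with h6 | h6
        · rw [dvd_neg] at h6
          exact Npd_ndvd2 hqp hq2 h6
        · apply hqb
          apply Npd_ndvd4 hqp hq2
          have := dvd_sub (Dvd.dvd.pow h6 two_ne_zero) hqD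
          rwa [sub_sub_cancel] at this
      apply Npd_z2
      rw [← lg_mul hqp hq2 (by rwa [dvd_neg]) hqa, lg_zero]
      have h6 : -(u * d') * (-2 * a) = 2 * a * u * d' := by ring
      rw [h6]
      exact h4
    · have h1 := hl.dev q hqp hq2 hqD hqb (Nat.not_odd_iff_even.1 hv)
      rw [if_neg (fun h => hv h.2.2), hs_unit hqp hq2 h1.1 hD0 (Nat.not_odd_iff_even.1 hv)]

theorem prod_d {a b n : ℤ} (hab : Hyp a b) (hn : Squarefree n) (hl : LocOK a b n)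
    {P P' T : Finset ℕ} (h1 : Disjoint P P') (h2 : Disjoint (P ∪ P') T)
    (hP : ∀ l ∈ P ∪ P' ∪ T, l.Prime ∧ (l : ℤ) ∣ n ∧ ¬ (l : ℤ) ∣ 2 * (b * (a ^ 2 - 4 * b)))
    (hall : ∀ l : ℕ, l.Prime → (l : ℤ) ∣ n → (l : ℤ) ∣ b * (a ^ 2 - 4 * b) ∨ l ∈ P ∪ P' ∪ T)
    (hd : ∀ l ∈ P, ¬ SqMod l (a ^ 2 - 4 * b)) (hd' : ∀ l ∈ P', SqMod l (a ^ 2 - 4 * b)) :
    ∑ r ∈ T, lg r (a ^ 2 - 4 * b) = kd a b + (P.card : ZMod 2) +
      (if n < 0 then 1 else 0) * (if a ^ 2 - 4 * b < 0 then 1 else 0) := by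
  have hn0 : n ≠ 0 := hn.ne_zero
  have hD0 := Hyp.D_ne hab
  have hS : ∀ p ∈ insert 2 (Qs a b ∪ (P ∪ P' ∪ T)), p.Prime := by
    intro p hp
    rw [Finset.mem_insert, Finset.mem_union] at hp
    rcases hp with rfl | hp | hp
    · exact Nat.prime_two
    · exact ((mem_Qs hab).1 hp).1
    · exact (hP p hp).1
  have hmem : ∀ i : ℕ, i.Prime → i ∉ insert 2 (Qs a b ∪ (P ∪ P' ∪ T)) →
      ¬ (i : ℤ) ∣ b * (a ^ 2 - 4 * b) ∧ i ∉ P ∪ P' ∪ T := by
    intro i hi his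
    rw [Finset.mem_insert, Finset.mem_union, not_or, not_or] at his
    exact ⟨fun h => his.2.1 ((mem_Qs hab).2 ⟨hi, his.1, h⟩), his.2.2⟩
  have hv : ∀ i, i ≠ 0 → i ∉ insert 2 (Qs a b ∪ (P ∪ P' ∪ T)) → cl n i = 0 := by
    intro i hi his
    by_cases hip : i.Prime
    · obtain ⟨h3, h4⟩ := hmem i hip his
      refine cl_apply_of_not_dvd hn0 hip fun h5 => ?_
      rcases hall i hip h5 with h6 | h6
      · exact h3 h6
      · exact h4 h6
    · exact cl_apply_of_not_prime n hi hip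
  have hw : ∀ i, i ≠ 0 → i ∉ insert 2 (Qs a b ∪ (P ∪ P' ∪ T)) → cl (a ^ 2 - 4 * b) i = 0 := by
    intro i hi his
    by_cases hip : i.Prime
    · obtain ⟨h3, h4⟩ := hmem i hip his
      exact cl_apply_of_not_dvd hD0 hip fun h5 => h3 (h5.mul_left _)
    · exact cl_apply_of_not_prime _ hi hip
  have hprod := hs_prod hS (Finset.mem_insert_self _ _) hv hw
  have hd2 : ∀ l ∈ P ∪ P' ∪ T, l ≠ 2 ∧ ¬ (l : ℤ) ∣ a ^ 2 - 4 * b ∧ l ∉ Qs a b := by
    intro l hl'
    obtain ⟨h3, h4, h5⟩ := hP l hl'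
    refine ⟨?_, ?_, ?_⟩
    · rintro rfl
      exact h5 (Dvd.intro _ rfl)
    · intro h
      exact h5 ((h.mul_left _).mul_left _)
    · intro h
      exact h5 (((mem_Qs hab).1 h).2.2.mul_left _)
  have h2S : 2 ∉ Qs a b ∪ (P ∪ P' ∪ T) := by
    rw [Finset.mem_union, not_or]
    exact ⟨fun h => ((mem_Qs hab).1 h).2.1 rfl, fun h => (hd2 2 h).1 rfl⟩
  have hdis : Disjoint (Qs a b) (P ∪ P' ∪ T) := by
    rw [Finset.disjoint_right]
    intro l hl'
    exact (hd2 l hl').2.2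
  have hleft : ∀ l ∈ P ∪ P' ∪ T, hs l (cl n) (cl (a ^ 2 - 4 * b)) = lg l (a ^ 2 - 4 * b) := by
    intro l hl'
    obtain ⟨h3, h4, h5⟩ := hP l hl'
    obtain ⟨h6, h7, -⟩ := hd2 l hl'
    obtain ⟨u, h8, h9⟩ := Npd_split hn h3 h4
    rw [h8, hs_left h3 h6 h9 h7]
  have e1 : ∑ p ∈ Qs a b, hs p (cl n) (cl (a ^ 2 - 4 * b)) = kd a b := by
    unfold kd
    rw [Finset.sum_filter]
    exact Finset.sum_congr rfl fun q hq => Npd_Q hab hn hl hq
  have e2 : ∑ p ∈ P, hs p (cl n) (cl (a ^ 2 - 4 * b)) = (P.card : ZMod 2) := by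
    have h3 : ∀ l ∈ P, hs l (cl n) (cl (a ^ 2 - 4 * b)) = 1 := by
      intro l hl'
      rw [hleft l (by simp [hl']), lg_one]
      exact hd l hl'
    rw [Finset.sum_congr rfl h3, Finset.sum_const, nsmul_eq_mul, mul_one]
  have e3 : ∑ p ∈ P', hs p (cl n) (cl (a ^ 2 - 4 * b)) = 0 := by
    refine Finset.sum_eq_zero fun l hl' => ?_
    rw [hleft l (by simp [hl']), lg_zero]
    exact hd' l hl'
  have e4 : ∑ p ∈ T, hs p (cl n) (cl (a ^ 2 - 4 * b)) = ∑ p ∈ T, lg p (a ^ 2 - 4 * b) :=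
    Finset.sum_congr rfl fun l hl' => hleft l (by simp [hl'])
  rw [Finset.sum_insert h2S, Finset.sum_union hdis, Finset.sum_union h2, Finset.sum_union h1,
    Npd_two hab hl hn0, e1, e2, e3, e4, cl_apply_zero hn0, cl_apply_zero hD0] at hprod
  exact Npd_fin _ _ _ _ _ hprod

end H93T1
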