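import Pool.Agent.H93.T1.Nd

/-!
ROW Nr (project MP_78d38b_T1, block N): Chinese remainder theorem (about 80 lines).

PROOF. `Nat.chineseRemainderOfFinset` (used in `exists_class`, `H93/MQ/Cls.lean`: copy from there) for
the moduli `8` (index `2`, `2 ∉ Q`) and `q ∈ Q`, with the residues `(t2 % 8).toNat`,
`(t q % q).toNat`; or induction on `Q`. `c` is odd since `t2` is odd, and not divisible by `q ∈ Q`
since `t q` is not; so it is prime to `8 * ∏ q ∈ Q, q` (`Nat.Coprime.mul_right`,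
`Nat.Coprime.prod_right`, `Nat.Prime.coprime_iff_not_dvd`).
-/

set_option autoImplicit false
open scoped Classical

namespace H93T1

private lemma Nr_sub {m : ℕ} (hm : 0 < m) {c : ℕ} {t : ℤ} (h : c ≡ (t % m).toNat [MOD m]) :
    (m : ℤ) ∣ c - t := by
  have h1 : 0 ≤ t % (m : ℤ) := Int.emod_nonneg _ (by positivity)
  have h2 := (Nat.modEq_iff_dvd.mp h.symm)
  rw [Int.toNat_of_nonneg h1] at h2
  have h3 : (m : ℤ) ∣ t % (m : ℤ) - t := by
    rw [Int.emod_def]
    exact ⟨-(t / m), by ring⟩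
  have h4 := dvd_add h2 h3
  have h5 : (c : ℤ) - t % (m : ℤ) + (t % (m : ℤ) - t) = c - t := by ring
  rwa [h5] at h4

theorem crt_class {Q : Finset ℕ} (hQ : ∀ q ∈ Q, q.Prime ∧ q ≠ 2) (t : ℕ → ℤ)
    (ht : ∀ q ∈ Q, ¬ (q : ℤ) ∣ t q) (t2 : ℤ) (ht2 : t2 % 2 = 1) :
    ∃ c : ℕ, c.Coprime (8 * ∏ q ∈ Q, q) ∧ (8 : ℤ) ∣ c - t2 ∧ ∀ q ∈ Q, (q : ℤ) ∣ c - t q := by
  let s : ℕ → ℕ := fun i => if i = 2 then 8 else i
  let w : ℕ → ℕ := fun i => if i = 2 then (t2 % (8 : ℕ)).toNat else (t i % (i : ℤ)).toNat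
  have hs : ∀ i ∈ insert 2 Q, s i ≠ 0 := by
    intro i hi
    by_cases h : i = 2
    · simp [s, h]
    · simp only [s, if_neg h]
      rcases Finset.mem_insert.mp hi with h' | h'
      · exact absurd h' h
      · exact (hQ i h').1.ne_zero
  have hco : ∀ j ∈ Q, Nat.Coprime 8 j := by
    intro j hj
    have h1 : Nat.Coprime 2 j := (Nat.coprime_primes Nat.prime_two (hQ j hj).1).mpr
      (Ne.symm (hQ j hj).2)
    exact Nat.Coprime.pow_left 3 h1
  have pp : ((insert 2 Q : Finset ℕ) : Set ℕ).Pairwise (Function.onFun Nat.Coprime s) := by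
    intro i hi j hj hij
    have hi' := Finset.mem_insert.mp (Finset.mem_coe.mp hi)
    have hj' := Finset.mem_insert.mp (Finset.mem_coe.mp hj)
    change Nat.Coprime (s i) (s j)
    by_cases h : i = 2
    · by_cases h' : j = 2
      · exact absurd (h.trans h'.symm) hij
      · simp only [s, if_pos h, if_neg h']
        exact hco j (hj'.resolve_left h')
    · by_cases h' : j = 2
      · simp only [s, if_neg h, if_pos h']
        exact (hco i (hi'.resolve_left h)).symm
      · simp only [s, if_neg h, if_neg h']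
        exact (Nat.coprime_primes (hQ i (hi'.resolve_left h)).1
          (hQ j (hj'.resolve_left h')).1).2 hij
  obtain ⟨c, hc⟩ := Nat.chineseRemainderOfFinset w s (insert 2 Q) hs pp
  have h8 : (8 : ℤ) ∣ c - t2 := by
    have h1 := hc 2 (Finset.mem_insert_self _ _)
    simp only [s, w, if_true] at h1
    exact_mod_cast Nr_sub (m := 8) (by norm_num) h1
  have hq : ∀ q ∈ Q, (q : ℤ) ∣ c - t q := by
    intro q hqQ
    have h1 := hc q (Finset.mem_insert_of_mem hqQ)
    simp only [s, w, if_neg (hQ q hqQ).2] at h1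
    exact Nr_sub (hQ q hqQ).1.pos h1
  refine ⟨c, ?_, h8, hq⟩
  refine Nat.Coprime.mul_right ?_ (Nat.Coprime.prod_right fun q hqQ => ?_)
  · have h1 : Nat.Coprime c 2 := by
      rw [Nat.coprime_comm, Nat.Prime.coprime_iff_not_dvd Nat.prime_two]
      intro hd
      omega
    exact Nat.Coprime.pow_right 3 h1
  · rw [Nat.coprime_comm, Nat.Prime.coprime_iff_not_dvd (hQ q hqQ).1]
    intro hd
    apply ht q hqQ
    have h1 : (q : ℤ) ∣ (c : ℤ) := by exact_mod_cast hd
    have h2 := dvd_sub h1 (hq q hqQ)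
    have h3 : (c : ℤ) - (c - t q) = t q := by ring
    rwa [h3] at h2

end H93T1
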