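import Pool.Agent.H93.T1.Ng
import Pool.Agent.H93.T1.Nr
import Pool.Agent.H93.T1.No
import Pool.Agent.H93.T1.Npb
import Pool.Agent.H93.T1.Npd
import Pool.Agent.H93.T1.Nb

/-!
Block N of T1 (MP_78d38b): existence of the twisting integer, assembly (helper93).
-/

set_option autoImplicit false
open scoped Classical

open H38T1 Pool.Agent.H93.MQ

namespace H93T1

section prod

variable {U : Finset ℕ} {s : ℤ}

private lemma Na_sq (hU : ∀ q ∈ U, q.Prime) : Squarefree (∏ q ∈ U, q) := by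
  induction U using Finset.induction_on with
  | empty => rw [Finset.prod_empty]; exact squarefree_one
  | insert q U hq ih =>
    rw [Finset.prod_insert hq]
    have h1 : q.Prime := hU q (Finset.mem_insert_self _ _)
    have h2 : ∀ r ∈ U, r.Prime := fun r hr => hU r (Finset.mem_insert_of_mem hr)
    refine (Nat.squarefree_mul ?_).2 ⟨h1.squarefree, ih h2⟩
    refine Nat.Coprime.prod_right fun r hr => ?_
    rw [Nat.coprime_primes h1 (h2 r hr)]
    rintro rfl
    exact hq hr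

private lemma Na_dvd (hU : ∀ q ∈ U, q.Prime) (hs : s = 1 ∨ s = -1) {l : ℕ} (hl : l.Prime) :
    (l : ℤ) ∣ s * ((∏ q ∈ U, q : ℕ) : ℤ) ↔ l ∈ U := by
  have h1 : (l : ℤ) ∣ s * ((∏ q ∈ U, q : ℕ) : ℤ) ↔ (l : ℤ) ∣ ((∏ q ∈ U, q : ℕ) : ℤ) := by
    rcases hs with rfl | rfl
    · rw [one_mul]
    · rw [neg_one_mul, dvd_neg]
  rw [h1, Int.natCast_dvd_natCast, hl.prime.dvd_finsetProd_iff]
  constructor
  · rintro ⟨q, hq, h⟩
    rw [(Nat.prime_dvd_prime_iff_eq hl (hU q hq)).1 h]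
    exact hq
  · intro h
    exact ⟨l, h, dvd_rfl⟩

private lemma Na_sqf (hU : ∀ q ∈ U, q.Prime) (hs : s = 1 ∨ s = -1) :
    Squarefree (s * ((∏ q ∈ U, q : ℕ) : ℤ)) := by
  have h1 : Squarefree (((∏ q ∈ U, q : ℕ) : ℤ)) := Int.squarefree_natCast.2 (Na_sq hU)
  rcases hs with rfl | rfl
  · rwa [one_mul]
  · rw [neg_one_mul]
    exact fun d hd => h1 d (by rwa [dvd_neg] at hd)

end prod

/-- The sign data. -/
private lemma Na_sign {a b : ℤ} (hab : Hyp a b) : ∃ (τ : Bool) (s : ℤ), (s = 1 ∨ s = -1) ∧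
    (a ^ 2 < 4 * b ∨ (0 < b ∧ 0 < a ∧ IsCoprime a b) → τ = false) ∧ (τ = false → 0 < b) ∧ (τ = true → 4 * b < a ^ 2) ∧
    (kb a b + kd a b + (if s < 0 then 1 else 0) * ((if b < 0 then 1 else 0) +
      (if a ^ 2 - 4 * b < 0 then 1 else 0)) + (if τ = true then 1 else 0) = 0) ∧
    (τ = false → a ^ 2 < 4 * b ∨ (0 < b ∧ 4 * b < a ^ 2 ∧ a * s < 0)) ∧
    (τ = true → b < 0 ∨ (0 < b ∧ 4 * b < a ^ 2 ∧ 0 < a * s)) := by
  have hb := Hyp.b_ne hab
  have hD := Hyp.D_ne hab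
  have ha : a ≠ 0 := by
    rintro rfl
    have := hab.a4
    norm_num at this
  have h01 : ∀ x : ZMod 2, x = 0 ∨ x = 1 := by decide
  have h11 : (1 : ZMod 2) + 1 = 0 := by decide
  have hm1 : ((-1 : ℤ) < 0) := by norm_num
  have hp1 : ¬ ((1 : ℤ) < 0) := by norm_num
  have ha2 : 0 < a ^ 2 := by positivity
  rcases lt_or_gt_of_ne hD with hD' | hD'
  · -- negative discriminant
    have hb' : 0 < b := by nlinarith
    have hb'' : ¬ b < 0 := by omega
    have h4 : a ^ 2 < 4 * b := by omega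
    rcases h01 (kb a b + kd a b) with h | h
    · exact ⟨false, 1, Or.inl rfl, fun _ => rfl, fun _ => hb', fun h => (Bool.false_ne_true h).elim,
        by simp [h, hp1], fun _ => Or.inl h4, fun h => (Bool.false_ne_true h).elim⟩
    · exact ⟨false, -1, Or.inr rfl, fun _ => rfl, fun _ => hb', fun h => (Bool.false_ne_true h).elim,
        by simp [h, hb'', hD', h11], fun _ => Or.inl h4, fun h => (Bool.false_ne_true h).elim⟩
  · have hD'' : ¬ a ^ 2 - 4 * b < 0 := by omega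
    have h4 : 4 * b < a ^ 2 := by omega
    have h4' : ¬ a ^ 2 < 4 * b := by omega
    rcases lt_or_gt_of_ne hb with hb' | hb'
    · have hb'' : ¬ 0 < b := by omega
      have h4' : ¬ (a ^ 2 < 4 * b ∨ (0 < b ∧ 0 < a ∧ IsCoprime a b)) := by
        rintro (h | h)
        · exact h4' h
        · exact hb'' h.1
      rcases h01 (kb a b + kd a b) with h | h
      · exact ⟨true, -1, Or.inr rfl, fun h => absurd h h4', fun h => (Bool.false_ne_true h.symm).elim,
          fun _ => h4, by simp [h, hb', hD'', h11], fun h => (Bool.false_ne_true h.symm).elim,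
          fun _ => Or.inl hb'⟩
      · exact ⟨true, 1, Or.inl rfl, fun h => absurd h h4', fun h => (Bool.false_ne_true h.symm).elim,
          fun _ => h4, by simp [h, hp1, h11], fun h => (Bool.false_ne_true h.symm).elim,
          fun _ => Or.inl hb'⟩
    · have hb'' : ¬ b < 0 := by omega
      have h4'' : kb a b + kd a b = 1 → ¬ (a ^ 2 < 4 * b ∨ (0 < b ∧ 0 < a ∧ IsCoprime a b)) := by
        rintro h (h' | h')
        · exact h4' h'
        · rw [bal_zero hab h'.2.1 hb' h4 h'.2.2] at h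
          exact zero_ne_one h
      rcases h01 (kb a b + kd a b) with h | h
      · rcases lt_or_gt_of_ne ha with h5 | h5
        · exact ⟨false, 1, Or.inl rfl, fun _ => rfl, fun _ => hb',
            fun h => (Bool.false_ne_true h).elim, by simp [h, hb'', hD''],
            fun _ => Or.inr ⟨hb', h4, by omega⟩, fun h => (Bool.false_ne_true h).elim⟩
        · exact ⟨false, -1, Or.inr rfl, fun _ => rfl, fun _ => hb',
            fun h => (Bool.false_ne_true h).elim, by simp [h, hb'', hD''],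
            fun _ => Or.inr ⟨hb', h4, by omega⟩, fun h => (Bool.false_ne_true h).elim⟩
      · rcases lt_or_gt_of_ne ha with h5 | h5
        · exact ⟨true, -1, Or.inr rfl, fun h' => absurd h' (h4'' h),
            fun h => (Bool.false_ne_true h.symm).elim, fun _ => h4, by simp [h, hb'', hD'', h11],
            fun h => (Bool.false_ne_true h.symm).elim, fun _ => Or.inr ⟨hb', h4, by omega⟩⟩
        · exact ⟨true, 1, Or.inl rfl, fun h' => absurd h' (h4'' h),
            fun h => (Bool.false_ne_true h.symm).elim, fun _ => h4, by simp [h, hb'', hD'', h11],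
            fun h => (Bool.false_ne_true h.symm).elim, fun _ => Or.inr ⟨hb', h4, by omega⟩⟩

/-- There is a real type `τ` such that for all sets `Pp`, `Pp'` of the right kind there are
arbitrarily large twisting integers; `τ = false` if `a ^ 2 < 4 b` and also if `a`, `b` are positive
and coprime. -/
theorem exists_n' {a b : ℤ} (hab : Hyp a b) : ∃ τ : Bool,
    (a ^ 2 < 4 * b ∨ (0 < b ∧ 0 < a ∧ IsCoprime a b) → τ = false) ∧
    (τ = false → 0 < b) ∧ (τ = true → 4 * b < a ^ 2) ∧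
    ∀ (J : ℕ → Prop), (∀ M : ℕ, Squarefree M → Odd M → ∀ c : ℕ, c.Coprime (8 * M) →
        {l : ℕ | l.Prime ∧ l ≡ c [MOD 8 * M] ∧ J l}.Infinite) →
      ∀ Pp Pp' : Finset ℕ, Disjoint Pp Pp' →
      (∀ l ∈ Pp, l.Prime ∧ ¬ (l : ℤ) ∣ 2 * (b * (a ^ 2 - 4 * b)) ∧ SqMod l b ∧
        ¬ SqMod l (a ^ 2 - 4 * b)) →
      (∀ l ∈ Pp', l.Prime ∧ ¬ (l : ℤ) ∣ 2 * (b * (a ^ 2 - 4 * b)) ∧ ¬ SqMod l b ∧
        SqMod l (a ^ 2 - 4 * b)) →
      Pp.card = Pp'.card + (if τ = true then 1 else 0) →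
      ∀ N : ℕ, ∃ n : ℤ, N < n.natAbs ∧ TwistOK a b n Pp Pp' τ ∧
        ∀ l : ℕ, l.Prime → (l : ℤ) ∣ n → ¬ (l : ℤ) ∣ b * (a ^ 2 - 4 * b) → l ∉ Pp → l ∉ Pp' →
          J l := by
  obtain ⟨τ, s, hs, hτ1, hτ2, hτ3, hbal, ht0, ht1⟩ := Na_sign hab
  refine ⟨τ, hτ1, hτ2, hτ3, ?_⟩
  intro J hJ Pp Pp' hdis hPp hPp' hcard N
  set O : Finset ℕ := (Qs a b).filter (fun q => Ob a b q ∨ Od a b q) with hO
  set M : ℕ := ∏ q ∈ Qs a b, q with hM
  have hQp : ∀ q ∈ Qs a b, q.Prime ∧ q ≠ 2 := fun q hq => ⟨((mem_Qs hab).1 hq).1, ((mem_Qs hab).1 hq).2.1⟩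
  have hMsq : Squarefree M := Na_sq fun q hq => (hQp q hq).1
  have hMo : Odd M := by
    rw [hM]
    refine Finset.prod_induction _ Odd (fun _ _ h h' => h.mul h') odd_one fun q hq => ?_
    exact (hQp q hq).1.odd_of_ne_two (hQp q hq).2
  have hOp : ∀ q ∈ O, q.Prime := fun q hq => (hQp q (Finset.mem_filter.1 hq).1).1
  -- the primes of `Pp`, `Pp'` are not in `O`
  have hQnot : ∀ l : ℕ, ¬ (l : ℤ) ∣ 2 * (b * (a ^ 2 - 4 * b)) → l ∉ Qs a b := by
    intro l hl hq
    exact hl (((mem_Qs hab).1 hq).2.2.mul_left 2)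
  set U₀ : Finset ℕ := O ∪ (Pp ∪ Pp') with hU₀
  have hU₀p : ∀ q ∈ U₀, q.Prime := by
    intro q hq
    rcases Finset.mem_union.1 hq with h | h
    · exact hOp q h
    · rcases Finset.mem_union.1 h with h | h
      · exact (hPp q h).1
      · exact (hPp' q h).1
  have hPPn : ∀ q ∈ Pp ∪ Pp', ¬ (q : ℤ) ∣ 2 * (b * (a ^ 2 - 4 * b)) := by
    intro q h
    rcases Finset.mem_union.1 h with h | h
    · exact (hPp q h).2.1
    · exact (hPp' q h).2.1
  have hU₀2 : 2 ∉ U₀ := by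
    intro h
    rcases Finset.mem_union.1 h with h | h
    · exact (hQp 2 (Finset.mem_filter.1 h).1).2 rfl
    · exact hPPn 2 h ⟨_, rfl⟩
  set R : ℤ := s * ((∏ q ∈ U₀, q : ℕ) : ℤ) with hR
  have hR2 : R % 2 = 1 := by
    have h1 : ¬ (2 : ℤ) ∣ R := by
      intro h
      exact hU₀2 ((Na_dvd hU₀p hs Nat.prime_two).1 (by exact_mod_cast h))
    omega
  obtain ⟨t, t2, ht2, htq, hloc⟩ := loc_class hab hR2 (by
    intro q hq h
    have h1 : q ∈ U₀ := Finset.mem_union_left _ (Finset.mem_filter.2 ⟨hq, h⟩)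
    refine ⟨(Na_dvd hU₀p hs (hQp q hq).1).2 h1, ?_⟩
    intro h2
    have h3 := Na_sqf hU₀p hs (q : ℤ) (by rw [← sq]; exact h2)
    exact (hQp q hq).1.one_lt.ne' (by
      have h4 := Int.isUnit_iff.1 h3
      omega)) (by
    intro q hq h h1
    have h2 := (Na_dvd hU₀p hs (hQp q hq).1).1 h1
    rcases Finset.mem_union.1 h2 with h3 | h3
    · exact h (Finset.mem_filter.1 h3).2
    · exact hQnot q (hPPn q h3) hq)
  obtain ⟨c, hc, hc8, hcq⟩ := crt_class hQp t htq t2 ht2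
  obtain ⟨c₁, hc₁, hneu⟩ := neutral_class hab
  -- the common value of the symbols
  set κ : ZMod 2 := kb a b + (Pp'.card : ZMod 2) + (if s < 0 then 1 else 0) *
    (if b < 0 then 1 else 0) with hκ
  have hκd : kd a b + (Pp.card : ZMod 2) + (if s < 0 then 1 else 0) *
      (if a ^ 2 - 4 * b < 0 then 1 else 0) = κ := by
    have h1 : (Pp.card : ZMod 2) = (Pp'.card : ZMod 2) + (if τ = true then 1 else 0) := by
      rw [hcard]
      split_ifs <;> push_cast <;> ring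
    have h2 : ∀ x y z u v w t : ZMod 2, x + y + z * (u + v) + t = 0 →
        y + (w + t) + z * v = x + w + z * u := by decide
    rw [h1, hκ]
    exact h2 _ _ _ _ _ _ _ hbal
  -- the key step
  have key : ∀ T : Finset ℕ, T.Nonempty → (∀ l ∈ T, l.Prime ∧ J l ∧ N < l ∧
      ¬ (l : ℤ) ∣ 2 * (b * (a ^ 2 - 4 * b)) ∧ l ∉ Pp ∧ l ∉ Pp') → (∏ l ∈ T, l) ≡ c [MOD 8 * M] →
      (∑ r ∈ T, lg r b = κ ∧ ∑ r ∈ T, lg r (a ^ 2 - 4 * b) = κ) ∧
      ((∀ l ∈ T, ¬ SqMod l b ∧ ¬ SqMod l (a ^ 2 - 4 * b)) → ∃ n : ℤ, N < n.natAbs ∧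
        TwistOK a b n Pp Pp' τ ∧ ∀ l : ℕ, l.Prime → (l : ℤ) ∣ n →
          ¬ (l : ℤ) ∣ b * (a ^ 2 - 4 * b) → l ∉ Pp → l ∉ Pp' → J l) := by
    intro T hTne hT hTc
    have hUT : Disjoint U₀ T := by
      rw [Finset.disjoint_left]
      intro q hq hqT
      obtain ⟨-, -, -, h1, h2, h3⟩ := hT q hqT
      rcases Finset.mem_union.1 hq with h | h
      · exact hQnot q h1 (Finset.mem_filter.1 h).1
      · rcases Finset.mem_union.1 h with h | h
        · exact h2 h
        · exact h3 h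
    set U : Finset ℕ := U₀ ∪ T with hU
    have hUp : ∀ q ∈ U, q.Prime := by
      intro q hq
      rcases Finset.mem_union.1 hq with h | h
      · exact hU₀p q h
      · exact (hT q h).1
    set n : ℤ := s * ((∏ q ∈ U, q : ℕ) : ℤ) with hn
    have hnR : n = R * ((∏ l ∈ T, l : ℕ) : ℤ) := by
      rw [hn, hR, hU, Finset.prod_union hUT]
      push_cast
      ring
    have hU0 : 0 < ∏ q ∈ U, q := Finset.prod_pos fun q hq => (hUp q hq).pos
    have hsign : n < 0 ↔ s < 0 := by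
      rw [hn]
      have h1 : (0 : ℤ) < ((∏ q ∈ U, q : ℕ) : ℤ) := by exact_mod_cast hU0
      constructor
      · intro h
        by_contra h2
        rw [not_lt] at h2
        exact absurd h (not_lt.2 (mul_nonneg h2 h1.le))
      · intro h
        exact mul_neg_of_neg_of_pos h h1
    have hcong : ∀ m : ℕ, (m : ℤ) ∣ ((8 * M : ℕ) : ℤ) → (m : ℤ) ∣ ((∏ l ∈ T, l : ℕ) : ℤ) - c := by
      intro m hm
      have h1 := (Nat.modEq_iff_dvd.1 hTc)
      have h2 : ((8 * M : ℕ) : ℤ) ∣ ((∏ l ∈ T, l : ℕ) : ℤ) - c := by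
        rw [← dvd_neg, neg_sub]
        exact h1
      exact hm.trans h2
    have hL : LocOK a b n := by
      rw [hnR]
      apply hloc
      · have h1 := hcong 8 (by exact_mod_cast Dvd.intro M rfl)
        have h2 : (((∏ l ∈ T, l : ℕ) : ℤ) - t2) = (((∏ l ∈ T, l : ℕ) : ℤ) - c) + (c - t2) := by ring
        rw [h2]
        exact dvd_add (by exact_mod_cast h1) hc8
      · intro q hq
        have h1 := hcong q (by
          have h3 : q ∣ 8 * M := (Finset.dvd_prod_of_mem _ hq).mul_left 8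
          exact_mod_cast h3)
        have h2 : (((∏ l ∈ T, l : ℕ) : ℤ) - t q) = (((∏ l ∈ T, l : ℕ) : ℤ) - c) + (c - t q) := by
          ring
        rw [h2]
        exact dvd_add h1 (hcq q hq)
    have hmem : ∀ l : ℕ, l.Prime → ((l : ℤ) ∣ n ↔ l ∈ U) := fun l hl => Na_dvd hUp hs hl
    have hPU : ∀ l ∈ Pp ∪ Pp' ∪ T, l.Prime ∧ (l : ℤ) ∣ n ∧
        ¬ (l : ℤ) ∣ 2 * (b * (a ^ 2 - 4 * b)) := by
      intro l hl
      have h1 : l ∈ U := by
        rcases Finset.mem_union.1 hl with h | h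
        · exact Finset.mem_union_left _ (Finset.mem_union_right _ h)
        · exact Finset.mem_union_right _ h
      refine ⟨hUp l h1, (hmem l (hUp l h1)).2 h1, ?_⟩
      rcases Finset.mem_union.1 hl with h | h
      · exact hPPn l h
      · exact (hT l h).2.2.2.1
    have hall : ∀ l : ℕ, l.Prime → (l : ℤ) ∣ n →
        (l : ℤ) ∣ b * (a ^ 2 - 4 * b) ∨ l ∈ Pp ∪ Pp' ∪ T := by
      intro l hl hln
      rcases Finset.mem_union.1 ((hmem l hl).1 hln) with h | h
      · rcases Finset.mem_union.1 h with h | h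
        · exact Or.inl ((mem_Qs hab).1 (Finset.mem_filter.1 h).1).2.2
        · exact Or.inr (Finset.mem_union_left _ h)
      · exact Or.inr (Finset.mem_union_right _ h)
    have hdT : Disjoint (Pp ∪ Pp') T := by
      rw [Finset.disjoint_left] at hUT ⊢
      intro q hq
      exact hUT (Finset.mem_union_right _ hq)
    have hnsq : Squarefree n := Na_sqf hUp hs
    have e1 := prod_b hab hnsq hL hdis hdT hPU hall (fun l hl => (hPp l hl).2.2.1)
      (fun l hl => (hPp' l hl).2.2.1)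
    have e2 := prod_d hab hnsq hL hdis hdT hPU hall (fun l hl => (hPp l hl).2.2.2)
      (fun l hl => (hPp' l hl).2.2.2)
    simp only [hsign] at e1 e2
    refine ⟨⟨e1, e2.trans hκd⟩, ?_⟩
    intro hTn
    refine ⟨n, ?_, ?_, ?_⟩
    · obtain ⟨l, hl⟩ := hTne
      have h1 : l ∣ n.natAbs := Int.natCast_dvd.1 ((hmem l (hT l hl).1).2
        (Finset.mem_union_right _ hl))
      have h2 : 0 < n.natAbs := Int.natAbs_pos.2 hnsq.ne_zero
      exact (hT l hl).2.2.1.trans_le (Nat.le_of_dvd h2 h1)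
    · refine ⟨hnsq, hL.two, ?_, hL.bev, hL.bod, hL.dev, hL.dod, ?_, ?_, ?_, ?_, ?_⟩
      · intro q hq h2 ha hb h
        have h3 := hL.three q hq h2 ha hb
        have h4 : (q : ℤ) ∣ 1 := by
          have h5 : (1 : ℤ) = n - (n - 1) := by ring
          rw [h5]
          exact dvd_sub h h3
        have h5 := Int.natCast_dvd_natCast.1 (by exact_mod_cast h4 : ((q : ℕ) : ℤ) ∣ ((1 : ℕ) : ℤ))
        exact hq.one_lt.ne' (Nat.dvd_one.1 h5)
      · intro l hl hln hlb
        rcases hall l hl hln with h | h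
        · exact absurd h hlb
        · rcases Finset.mem_union.1 h with h | h
          · rcases Finset.mem_union.1 h with h | h
            · exact Or.inl ⟨h, (hPp l h).2.2.1, (hPp l h).2.2.2⟩
            · exact Or.inr (Or.inl ⟨h, (hPp' l h).2.2.1, (hPp' l h).2.2.2⟩)
          · exact Or.inr (Or.inr ⟨(hT l h).2.2.2.2.1, (hT l h).2.2.2.2.2, (hTn l h).1, (hTn l h).2⟩)
      · intro l hl
        exact hPU l (Finset.mem_union_left _ (Finset.mem_union_left _ hl))
      · intro l hl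
        exact hPU l (Finset.mem_union_left _ (Finset.mem_union_right _ hl))
      · intro h
        rcases ht0 h with h1 | ⟨h1, h2, h3⟩
        · exact Or.inl h1
        · refine Or.inr ⟨h1, h2, ?_⟩
          rw [hn, ← mul_assoc]
          exact mul_neg_of_neg_of_pos h3 (by exact_mod_cast hU0)
      · intro h
        rcases ht1 h with h1 | ⟨h1, h2, h3⟩
        · exact Or.inl h1
        · refine Or.inr ⟨h1, h2, ?_⟩
          rw [hn, ← mul_assoc]
          exact mul_pos h3 (by exact_mod_cast hU0)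
    · intro l hl hln hlb h1 h2
      rcases hall l hl hln with h | h
      · exact absurd h hlb
      · rcases Finset.mem_union.1 h with h | h
        · rcases Finset.mem_union.1 h with h | h
          · exact absurd h h1
          · exact absurd h h2
        · exact (hT l h).2.1
  -- large primes in a class
  have hbadfin : ({l : ℕ | l ≤ N} ∪ {l : ℕ | l ∣ (2 * (b * (a ^ 2 - 4 * b))).natAbs} ∪
      ((Pp ∪ Pp' : Finset ℕ) : Set ℕ)).Finite := by
    refine ((Set.finite_le_nat N).union ?_).union (Finset.finite_toSet _)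
    have h0 : (2 * (b * (a ^ 2 - 4 * b))).natAbs ≠ 0 :=
      Int.natAbs_ne_zero.2 (mul_ne_zero two_ne_zero (mul_ne_zero (Hyp.b_ne hab) (Hyp.D_ne hab)))
    exact (Set.finite_le_nat _).subset fun l hl => Nat.le_of_dvd (Nat.pos_of_ne_zero h0) hl
  have hpick : ∀ (c' : ℕ), c'.Coprime (8 * M) → ∀ E : Finset ℕ, ∃ l : ℕ, l ∉ E ∧
      l ≡ c' [MOD 8 * M] ∧ (l.Prime ∧ J l ∧ N < l ∧ ¬ (l : ℤ) ∣ 2 * (b * (a ^ 2 - 4 * b)) ∧
        l ∉ Pp ∧ l ∉ Pp') := by
    intro c' hc' E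
    obtain ⟨l, hl⟩ := ((hJ M hMsq hMo c' hc').sdiff (hbadfin.union E.finite_toSet)).nonempty
    obtain ⟨⟨h1, h2, h3⟩, h4⟩ := hl
    rw [Set.mem_union, Set.mem_union, Set.mem_union] at h4
    push Not at h4
    obtain ⟨⟨⟨h5, h6⟩, h7⟩, h8⟩ := h4
    rw [Finset.mem_coe, Finset.mem_union] at h7
    refine ⟨l, h8, h2, h1, h3, not_le.1 h5, ?_, fun h => h7 (Or.inl h), fun h => h7 (Or.inr h)⟩
    intro h
    exact h6 (Int.natCast_dvd.1 h)
  obtain ⟨l, -, hlc, hl⟩ := hpick c hc ∅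
  obtain ⟨⟨k1, k2⟩, k3⟩ := key {l} (Finset.singleton_nonempty l) (by
    intro x hx
    rw [Finset.mem_singleton.1 hx]
    exact hl) (by rw [Finset.prod_singleton]; exact hlc)
  rw [Finset.sum_singleton] at k1 k2
  have h01 : ∀ x : ZMod 2, x = 0 ∨ x = 1 := by decide
  rcases h01 κ with hκ0 | hκ1
  · -- two neutral primes
    obtain ⟨l₁, -, hl₁c, hl₁⟩ := hpick c₁ hc₁ ∅
    have hneu₁ := hneu l₁ hl₁.1 hl₁c
    have hcop : l₁.Coprime (8 * M) := by
      have h1 := hl₁c.gcd_eq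
      rw [Nat.coprime_iff_gcd_eq_one, h1]
      exact hc₁
    obtain ⟨i, hi⟩ := Nat.exists_mul_mod_eq_one_of_coprime hcop (by
      have : 0 < M := Nat.pos_of_ne_zero hMsq.ne_zero
      omega)
    have hi' : l₁ * i ≡ 1 [MOD 8 * M] := by
      have h1 : 1 % (8 * M) = 1 := Nat.mod_eq_of_lt (by
        have : 0 < M := Nat.pos_of_ne_zero hMsq.ne_zero
        omega)
      rw [Nat.ModEq, h1]
      exact hi.2
    have hic : i.Coprime (8 * M) := by
      have h1 : (l₁ * i).Coprime (8 * M) := by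
        rw [Nat.coprime_iff_gcd_eq_one, hi'.gcd_eq, Nat.gcd_one_left]
      exact Nat.Coprime.coprime_mul_left h1
    obtain ⟨l₂, hl₂1, hl₂c, hl₂⟩ := hpick (i * c) (Nat.Coprime.mul_left hic hc) {l₁}
    have hne : l₁ ≠ l₂ := by
      intro h
      exact hl₂1 (Finset.mem_singleton.2 h.symm)
    have hpr : l₁ * l₂ ≡ c [MOD 8 * M] := by
      calc l₁ * l₂ ≡ l₁ * (i * c) [MOD 8 * M] := hl₂c.mul_left _
        _ = (l₁ * i) * c := by ring
        _ ≡ 1 * c [MOD 8 * M] := hi'.mul_right _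
        _ = c := one_mul c
    obtain ⟨⟨m1, m2⟩, m3⟩ := key {l₁, l₂} (Finset.insert_nonempty _ _) (by
      intro x hx
      rcases Finset.mem_insert.1 hx with h | h
      · rw [h]; exact hl₁
      · rw [Finset.mem_singleton.1 h]; exact hl₂) (by rw [Finset.prod_pair hne]; exact hpr)
    rw [Finset.sum_pair hne, hκ0] at m1 m2
    rw [lg_one.2 hneu₁.2.1] at m1
    rw [lg_one.2 hneu₁.2.2] at m2
    have hx : ∀ x : ZMod 2, 1 + x = 0 → x = 1 := by decide
    apply m3
    intro x hx'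
    rcases Finset.mem_insert.1 hx' with h | h
    · rw [h]; exact hneu₁.2
    · rw [Finset.mem_singleton.1 h]
      exact ⟨lg_one.1 (hx _ m1), lg_one.1 (hx _ m2)⟩
  · apply k3
    intro x hx
    rw [Finset.mem_singleton.1 hx]
    exact ⟨lg_one.1 (k1.trans hκ1), lg_one.1 (k2.trans hκ1)⟩

/-- There is a real type `τ` such that for all sets `Pp`, `Pp'` of the right kind there are
arbitrarily large twisting integers. -/
theorem exists_n {a b : ℤ} (hab : Hyp a b) : ∃ τ : Bool, (a ^ 2 < 4 * b → τ = false) ∧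
    (τ = false → 0 < b) ∧ (τ = true → 4 * b < a ^ 2) ∧
    ∀ (J : ℕ → Prop), (∀ M : ℕ, Squarefree M → Odd M → ∀ c : ℕ, c.Coprime (8 * M) →
        {l : ℕ | l.Prime ∧ l ≡ c [MOD 8 * M] ∧ J l}.Infinite) →
      ∀ Pp Pp' : Finset ℕ, Disjoint Pp Pp' →
      (∀ l ∈ Pp, l.Prime ∧ ¬ (l : ℤ) ∣ 2 * (b * (a ^ 2 - 4 * b)) ∧ SqMod l b ∧
        ¬ SqMod l (a ^ 2 - 4 * b)) →
      (∀ l ∈ Pp', l.Prime ∧ ¬ (l : ℤ) ∣ 2 * (b * (a ^ 2 - 4 * b)) ∧ ¬ SqMod l b ∧
        SqMod l (a ^ 2 - 4 * b)) →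
      Pp.card = Pp'.card + (if τ = true then 1 else 0) →
      ∀ N : ℕ, ∃ n : ℤ, N < n.natAbs ∧ TwistOK a b n Pp Pp' τ ∧
        ∀ l : ℕ, l.Prime → (l : ℤ) ∣ n → ¬ (l : ℤ) ∣ b * (a ^ 2 - 4 * b) → l ∉ Pp → l ∉ Pp' →
          J l := by
  obtain ⟨τ, h1, h2⟩ := exists_n' hab
  exact ⟨τ, fun h => h1 (Or.inl h), h2⟩

end H93T1
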