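import Pool.Agent.H38.T1.Tw
import Pool.Agent.H93.MQ.HsP
import Pool.Agent.H93.MQ.Cls

/-!
Definitions for block N of T1 (MP_78d38b): the twisting integer (no row, definitions only).
-/

set_option autoImplicit false
open scoped Classical

namespace H93T1

open H38T1 Pool.Agent.H93.MQ

/-- The Legendre symbol, additively: zero iff `x` is a square modulo `q`. -/
noncomputable def lg (q : ℕ) (x : ℤ) : ZMod 2 := if SqMod q x then 0 else 1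

/-- The odd primes dividing `b (a^2 - 4 b)`. -/
noncomputable def Qs (a b : ℤ) : Finset ℕ := (b * (a ^ 2 - 4 * b)).natAbs.primeFactors.erase 2

/-- The prime `q` divides `b` to an odd power and does not divide `a`. -/
def Ob (a b : ℤ) (q : ℕ) : Prop := (q : ℤ) ∣ b ∧ ¬ (q : ℤ) ∣ a ∧ Odd (padicValInt q b)

/-- The prime `q` divides `a^2 - 4 b` to an odd power and does not divide `b`. -/
def Od (a b : ℤ) (q : ℕ) : Prop :=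
  (q : ℤ) ∣ a ^ 2 - 4 * b ∧ ¬ (q : ℤ) ∣ b ∧ Odd (padicValInt q (a ^ 2 - 4 * b))

/-- The sum of the symbols of `a`. -/
noncomputable def kb (a b : ℤ) : ZMod 2 := ∑ q ∈ (Qs a b).filter (Ob a b), lg q a

/-- The sum of the symbols of `-2 a`. -/
noncomputable def kd (a b : ℤ) : ZMod 2 := ∑ q ∈ (Qs a b).filter (Od a b), lg q (-2 * a)

/-- The local conditions on the twisting integer `n` at the primes dividing `2 b (a^2 - 4 b)`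
(as in `TwistOK`, but `n` is one modulo the primes dividing `a` and `b`). -/
structure LocOK (a b n : ℤ) : Prop where
  two : (a * n) % 8 = 5
  three : ∀ q : ℕ, q.Prime → q ≠ 2 → (q : ℤ) ∣ a → (q : ℤ) ∣ b → (q : ℤ) ∣ n - 1
  bev : ∀ q : ℕ, q.Prime → q ≠ 2 → (q : ℤ) ∣ b → ¬ (q : ℤ) ∣ a → Even (padicValInt q b) →
    ¬ (q : ℤ) ∣ n ∧ ¬ SqMod q (a * n)
  bod : ∀ q : ℕ, q.Prime → q ≠ 2 → (q : ℤ) ∣ b → ¬ (q : ℤ) ∣ a → Odd (padicValInt q b) →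
    ∃ (u b' : ℤ) (k : ℕ), n = q * u ∧ b = (q : ℤ) ^ (2 * k + 1) * b' ∧ ¬ (q : ℤ) ∣ u * b' ∧
      SqMod q (-(a * u * b'))
  dev : ∀ q : ℕ, q.Prime → q ≠ 2 → (q : ℤ) ∣ a ^ 2 - 4 * b → ¬ (q : ℤ) ∣ b →
    Even (padicValInt q (a ^ 2 - 4 * b)) → ¬ (q : ℤ) ∣ n ∧ ¬ SqMod q (-2 * a * n)
  dod : ∀ q : ℕ, q.Prime → q ≠ 2 → (q : ℤ) ∣ a ^ 2 - 4 * b → ¬ (q : ℤ) ∣ b →
    Odd (padicValInt q (a ^ 2 - 4 * b)) → ∃ (u d' : ℤ) (k : ℕ), n = q * u ∧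
      a ^ 2 - 4 * b = (q : ℤ) ^ (2 * k + 1) * d' ∧ ¬ (q : ℤ) ∣ u * d' ∧ SqMod q (2 * a * u * d')

lemma Hyp.b_ne {a b : ℤ} (h : Hyp a b) : b ≠ 0 := by
  rintro rfl
  exact h.nb ⟨0, rfl⟩

lemma Hyp.D_ne {a b : ℤ} (h : Hyp a b) : a ^ 2 - 4 * b ≠ 0 := by
  intro h0
  exact h.nD ⟨0, by rw [h0]; rfl⟩

lemma mem_Qs {a b : ℤ} (h : Hyp a b) {q : ℕ} :
    q ∈ Qs a b ↔ q.Prime ∧ q ≠ 2 ∧ (q : ℤ) ∣ b * (a ^ 2 - 4 * b) := by
  unfold Qs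
  rw [Finset.mem_erase, Nat.mem_primeFactors, ← Int.natCast_dvd]
  have h0 : (b * (a ^ 2 - 4 * b)).natAbs ≠ 0 :=
    Int.natAbs_ne_zero.2 (mul_ne_zero (Hyp.b_ne h) (Hyp.D_ne h))
  tauto

end H93T1
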