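import Pool.Agent.H93.T1.Nd

/-!
ROW Nl (project MP_78d38b_T1, block N): the Legendre symbol `lg` and the Hilbert symbols `hs`
(about 150 lines).

PROOF. `q` is an odd prime. `SqMod q x` (`∃ t, q ∣ x - t^2`) is the same as `IsSquare (x : ZMod q)`
(`ZMod.intCast_surjective`, `ZMod.intCast_zmod_eq_zero_iff_dvd` / `ZMod.intCast_eq_intCast_iff_dvd_sub`):
`sq_iff`. With `ev_chi` (file `H93/MQ/ClB.lean`) this gives `lg_eq`: `lg q x = ev (chi q) (cl x)` for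
`q` not dividing `x`. `lg_mul`: from `lg_eq` and `cl_mul`.
`lg_of_dvd_sub`: if `x = y` modulo `q` the symbols are equal (directly from the definition).
Then the values of `hs q` (file `H93/MQ/HsD.lean`; `q ≠ 2`:
`hs q v w = v q * w q * chi q 0 + v q * ev (chi q) w + w q * ev (chi q) v`), with
`cl_apply_of_not_dvd`, `cl_apply_prime` (file `H93/MQ/ClA.lean`):
* `hs_unit`: both coordinates at `q` vanish, so the symbol is zero.
* `hs_left`: `n = q u`, `q ∤ u`: `cl n = single q 1 + cl u` (`cl_mul`, `cl_natPrime`), `cl n q = 1`;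
  `cl x q = 0` since the valuation is even: `hs = ev (chi q) (cl x)`; and as `q ∤ x` it is `lg q x`.
* `hs_right`: `q ∤ n`, `cl x q = 1` (odd valuation): `hs = ev (chi q) (cl n) = lg q n`.
* `hs_both`: `n = q u`, `x = q^(2k+1) x'`: `cl x = single q 1 + cl x'` (`cl_mul`, `cl_sq` for
  `(q^k)^2`, `cl_natPrime`), `chi q q = 0` (`HsP_chi_self`), `ev_single`, so
  `hs = chi q 0 + lg q x' + lg q u`, and `chi q 0 = ev (chi q) (cl (-1)) = lg q (-1)` (`cl_neg_one`);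
  then `lg_mul`.
-/

set_option autoImplicit false
open scoped Classical

namespace H93T1

open H38T1 Pool.Agent.H93.MQ

variable {q : ℕ}

theorem sq_iff (x : ℤ) : SqMod q x ↔ IsSquare ((x : ℤ) : ZMod q) := by
  constructor
  · rintro ⟨t, ht⟩
    refine ⟨(t : ZMod q), ?_⟩
    have h := (ZMod.intCast_zmod_eq_zero_iff_dvd (x - t ^ 2) q).2 ht
    push_cast at h
    rw [sub_eq_zero] at h
    rw [h, sq]
  · rintro ⟨r, hr⟩
    obtain ⟨t, rfl⟩ := ZMod.intCast_surjective r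
    refine ⟨t, (ZMod.intCast_zmod_eq_zero_iff_dvd (x - t ^ 2) q).1 ?_⟩
    push_cast
    rw [hr]
    ring

theorem lg_eq (hq : q.Prime) (h2 : q ≠ 2) {x : ℤ} (hx : ¬ (q : ℤ) ∣ x) :
    lg q x = ev (chi q) (cl x) := by
  unfold lg
  have h := ev_chi hq h2 hx
  by_cases hs : SqMod q x
  · rw [if_pos hs, h.2 ((sq_iff x).1 hs)]
  · rw [if_neg hs, ClA_ne (fun h0 => hs ((sq_iff x).2 (h.1 h0)))]

theorem lg_mul (hq : q.Prime) (h2 : q ≠ 2) {x y : ℤ} (hx : ¬ (q : ℤ) ∣ x) (hy : ¬ (q : ℤ) ∣ y) :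
    lg q (x * y) = lg q x + lg q y := by
  have hxy : ¬ (q : ℤ) ∣ x * y := fun h =>
    ((Nat.prime_iff_prime_int.1 hq).dvd_or_dvd h).elim hx hy
  have hx0 : x ≠ 0 := by
    rintro rfl
    exact hx (dvd_zero _)
  have hy0 : y ≠ 0 := by
    rintro rfl
    exact hy (dvd_zero _)
  rw [lg_eq hq h2 hxy, lg_eq hq h2 hx, lg_eq hq h2 hy, cl_mul hx0 hy0, map_add]

theorem lg_of_dvd_sub {x y : ℤ} (h : (q : ℤ) ∣ x - y) : lg q x = lg q y := by
  have e : SqMod q x ↔ SqMod q y := by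
    constructor
    · rintro ⟨t, ht⟩
      refine ⟨t, ?_⟩
      have := dvd_sub ht h
      rwa [show x - t ^ 2 - (x - y) = y - t ^ 2 by ring] at this
    · rintro ⟨t, ht⟩
      refine ⟨t, ?_⟩
      have := dvd_add ht h
      rwa [show y - t ^ 2 + (x - y) = x - t ^ 2 by ring] at this
  unfold lg
  simp only [e]

theorem lg_zero {x : ℤ} : lg q x = 0 ↔ SqMod q x := by
  unfold lg
  split_ifs with h
  · simp [h]
  · simp [h]

theorem lg_one {x : ℤ} : lg q x = 1 ↔ ¬ SqMod q x := by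
  unfold lg
  split_ifs with h
  · simp [h]
  · simp [h]

theorem Nl_hs (h2 : q ≠ 2) (v w : V) :
    hs q v w = v q * w q * chi q 0 + v q * ev (chi q) w + w q * ev (chi q) v := by
  unfold hs
  rw [if_neg h2]

theorem Nl_ne0 {x : ℤ} (hx : ¬ (q : ℤ) ∣ x) : x ≠ 0 := by
  rintro rfl
  exact hx (dvd_zero _)

theorem Nl_even (hq : q.Prime) {x : ℤ} (hx0 : x ≠ 0) (hx : Even (padicValInt q x)) :
    cl x q = 0 := by
  rw [cl_apply_prime hx0 hq]
  exact (ZMod.natCast_eq_zero_iff _ _).2 hx.two_dvd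

theorem Nl_odd (hq : q.Prime) {x : ℤ} (hx0 : x ≠ 0) (hx : Odd (padicValInt q x)) :
    cl x q = 1 := by
  rw [cl_apply_prime hx0 hq]
  refine ClA_ne fun h => ?_
  have := (ZMod.natCast_eq_zero_iff _ _).1 h
  exact (Nat.not_even_iff_odd.2 hx) (even_iff_two_dvd.2 this)

theorem hs_unit (hq : q.Prime) (h2 : q ≠ 2) {n x : ℤ} (hn : ¬ (q : ℤ) ∣ n) (hx0 : x ≠ 0)
    (hx : Even (padicValInt q x)) : hs q (cl n) (cl x) = 0 := by
  rw [Nl_hs h2, cl_apply_of_not_dvd (Nl_ne0 hn) hq hn, Nl_even hq hx0 hx]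
  ring

theorem Nl_mulq (hq : q.Prime) {u : ℤ} (hu : ¬ (q : ℤ) ∣ u) :
    cl (q * u) = Finsupp.single q 1 + cl u := by
  rw [cl_mul (by exact_mod_cast hq.ne_zero) (Nl_ne0 hu), cl_natPrime hq]

theorem Nl_mulq_app (hq : q.Prime) {u : ℤ} (hu : ¬ (q : ℤ) ∣ u) :
    (Finsupp.single q 1 + cl u : V) q = 1 := by
  rw [Finsupp.add_apply, Finsupp.single_eq_same, cl_apply_of_not_dvd (Nl_ne0 hu) hq hu, add_zero]

theorem hs_left (hq : q.Prime) (h2 : q ≠ 2) {u x : ℤ} (hu : ¬ (q : ℤ) ∣ u) (hx : ¬ (q : ℤ) ∣ x) :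
    hs q (cl (q * u)) (cl x) = lg q x := by
  rw [Nl_hs h2, Nl_mulq hq hu, Nl_mulq_app hq hu, cl_apply_of_not_dvd (Nl_ne0 hx) hq hx,
    lg_eq hq h2 hx]
  ring

theorem hs_right (hq : q.Prime) (h2 : q ≠ 2) {n x : ℤ} (hn : ¬ (q : ℤ) ∣ n) (hx0 : x ≠ 0)
    (hx : Odd (padicValInt q x)) : hs q (cl n) (cl x) = lg q n := by
  rw [Nl_hs h2, cl_apply_of_not_dvd (Nl_ne0 hn) hq hn, Nl_odd hq hx0 hx, lg_eq hq h2 hn]
  ring

theorem hs_both (hq : q.Prime) (h2 : q ≠ 2) {u x' : ℤ} {k : ℕ} (hu : ¬ (q : ℤ) ∣ u)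
    (hx : ¬ (q : ℤ) ∣ x') :
    hs q (cl (q * u)) (cl ((q : ℤ) ^ (2 * k + 1) * x')) = lg q (-(u * x')) := by
  have hq0 : (q : ℤ) ≠ 0 := by exact_mod_cast hq.ne_zero
  have hx0 := Nl_ne0 hx
  have e : cl ((q : ℤ) ^ (2 * k + 1) * x') = Finsupp.single q 1 + cl x' := by
    rw [show (q : ℤ) ^ (2 * k + 1) * x' = ((q : ℤ) ^ k) ^ 2 * (q * x') by ring,
      cl_mul (pow_ne_zero 2 (pow_ne_zero k hq0)) (mul_ne_zero hq0 hx0),
      cl_sq (pow_ne_zero k hq0), zero_add, Nl_mulq hq hx]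
  have hux : ¬ (q : ℤ) ∣ u * x' := fun h =>
    ((Nat.prime_iff_prime_int.1 hq).dvd_or_dvd h).elim hu hx
  have h1 : ¬ (q : ℤ) ∣ (-1 : ℤ) := by
    intro h3
    have h4 := Int.natAbs_dvd_natAbs.2 h3
    simp only [Int.natAbs_natCast, Int.natAbs_neg, Int.natAbs_one, Nat.dvd_one] at h4
    exact hq.one_lt.ne' h4
  rw [Nl_hs h2, e, Nl_mulq hq hu, Nl_mulq_app hq hu, Nl_mulq_app hq hx, map_add, map_add,
    ev_single, HsP_chi_self, ← lg_eq hq h2 hu, ← lg_eq hq h2 hx,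
    show -(u * x') = (-1) * (u * x') by ring, lg_mul hq h2 h1 hux, lg_mul hq h2 hu hx,
    lg_eq hq h2 h1, cl_neg_one, ev_single]
  ring

end H93T1
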